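import Mathlib

/-!
# Numerical ranges of operators on complex Banach spaces
-/

set_option autoImplicit false

namespace Pool.Q193.HP

open Filter Topology

theorem exp_add_c {A : Type*} [NormedRing A] [NormedAlgebra ℂ A] [CompleteSpace A] {a b : A}
    (h : Commute a b) : NormedSpace.exp (a + b) = NormedSpace.exp a * NormedSpace.exp b := by
  letI := NormedAlgebra.restrictScalars ℚ ℂ A
  exact NormedSpace.exp_add_of_commute h

section basic

variable {E : Type*} [NormedAddCommGroup E] [NormedSpace ℂ E]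

/-- support functionals -/
def Sp (x : E) (f : E →L[ℂ] ℂ) : Prop := ‖f‖ ≤ 1 ∧ f x = (‖x‖ : ℂ)

theorem exists_sp (x : E) : ∃ f : E →L[ℂ] ℂ, Sp x f := by
  obtain ⟨g, h1, h2⟩ := exists_dual_vector'' ℂ x
  exact ⟨g, h1, by simpa using h2⟩

theorem Sp.norm_le {x : E} {f : E →L[ℂ] ℂ} (h : Sp x f) (y : E) : ‖f y‖ ≤ ‖y‖ := by
  have h1 := f.le_opNorm y
  have h2 := mul_le_mul_of_nonneg_right h.1 (norm_nonneg y)
  linarith

theorem Sp.re_le {x : E} {f : E →L[ℂ] ℂ} (h : Sp x f) (y : E) : (f y).re ≤ ‖y‖ :=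
  (Complex.re_le_norm _).trans (h.norm_le y)

theorem Sp.re_self {x : E} {f : E →L[ℂ] ℂ} (h : Sp x f) : (f x).re = ‖x‖ := by
  rw [h.2, Complex.ofReal_re]

/-- support functionals and isometries -/
theorem Sp.comp_isom {x : E} {f : E →L[ℂ] ℂ} (h : Sp x f) (T S : E →L[ℂ] E)
    (hT : ∀ y, ‖T y‖ ≤ ‖y‖) (hS : ‖S x‖ = ‖x‖) (hTS : T (S x) = x) : Sp (S x) (f.comp T) := by
  refine ⟨?_, ?_⟩
  · refine ContinuousLinearMap.opNorm_le_bound _ zero_le_one (fun y => ?_)
    rw [ContinuousLinearMap.comp_apply, one_mul]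
    exact (h.norm_le _).trans (hT y)
  · rw [ContinuousLinearMap.comp_apply, hTS, h.2, hS]

theorem ex_deriv [CompleteSpace E] (T : E →L[ℂ] E) (x : E) (t : ℝ) :
    HasDerivAt (fun s : ℝ => NormedSpace.exp ((s : ℂ) • T) x)
      (T (NormedSpace.exp ((t : ℂ) • T) x)) t := by
  have h1 := hasDerivAt_exp_smul_const' (𝕂 := ℂ) T (t : ℂ)
  have h2 := h1.clm_apply (hasDerivAt_const (t : ℂ) x)
  have h3 : HasDerivAt (fun s : ℝ => (s : ℂ)) 1 t := Complex.ofRealCLM.hasDerivAt (x := t)
  have h4 := h2.scomp t h3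
  have h5 : (T * NormedSpace.exp ((t : ℂ) • T)) x + (NormedSpace.exp ((t : ℂ) • T)) 0 =
      T (NormedSpace.exp ((t : ℂ) • T) x) := by
    rw [map_zero, add_zero]
    rfl
  rw [h5, one_smul] at h4
  exact h4

/-- dissipative operators generate contractions -/
theorem exp_norm_le [CompleteSpace E] {T : E →L[ℂ] E}
    (h : ∀ (x : E) (f : E →L[ℂ] ℂ), Sp x f → (f (T x)).re ≤ 0) (x : E) {t : ℝ} (ht : 0 ≤ t) :
    ‖NormedSpace.exp ((t : ℂ) • T) x‖ ≤ ‖x‖ := by
  set u : ℝ → E := fun s => NormedSpace.exp ((s : ℂ) • T) x with hu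
  have hd : ∀ s : ℝ, HasDerivAt u (T (u s)) s := fun s => ex_deriv T x s
  have hc : Continuous u := continuous_iff_continuousAt.2 fun s => (hd s).continuousAt
  have h0 : u 0 = x := by simp [hu]
  have key := image_le_of_liminf_slope_right_le_deriv_boundary (f := fun s => ‖u s‖) (a := 0)
    (b := t) (hc.norm.continuousOn) (B := fun _ => ‖x‖) (B' := fun _ => 0) (by simp [h0])
    continuousOn_const (fun s _ => (hasDerivAt_const s ‖x‖).hasDerivWithinAt) (fun s _ r hr => by
      have hr4 : 0 < r / 4 := by linarith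
      have e1 : ∀ᶠ z in 𝓝[>] s, ‖u z - u s - (z - s) • T (u s)‖ ≤ r / 4 * ‖z - s‖ :=
        ((hasDerivAt_iff_isLittleO.1 (hd s)).def hr4).filter_mono nhdsWithin_le_nhds
      have e2 : ∀ᶠ z in 𝓝[>] s, ‖T (u z) - T (u s)‖ < r / 4 := by
        have h3 : Tendsto (fun z => T (u z) - T (u s)) (𝓝 s) (𝓝 (T (u s) - T (u s))) :=
          ((T.continuous.comp hc).tendsto s).sub tendsto_const_nhds
        rw [sub_self] at h3
        have h4 := h3.norm
        rw [norm_zero] at h4
        exact (h4.eventually_lt_const hr4).filter_mono nhdsWithin_le_nhds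
      refine Eventually.frequently ?_
      filter_upwards [e1, e2, self_mem_nhdsWithin] with z h1 h2 h3
      have h3' : 0 < z - s := sub_pos.2 h3
      obtain ⟨g, hg⟩ := exists_sp (u z)
      have h5 : ‖u z‖ - ‖u s‖ ≤ (g (u z - u s)).re := by
        rw [map_sub, Complex.sub_re, hg.re_self]
        have := hg.re_le (u s)
        linarith
      have h6 : (g (u z - u s)).re = (g (u z - u s - (z - s) • T (u s))).re
          + (z - s) * (g (T (u s) - T (u z))).re + (z - s) * (g (T (u z))).re := by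
        have : ∀ w : E, g ((z - s) • w) = ((z - s : ℝ) : ℂ) * g w := by
          intro w
          rw [← smul_eq_mul, ← map_smul]
          rfl
        rw [map_sub g _ ((z - s) • T (u s)), this, Complex.sub_re, Complex.re_ofReal_mul, map_sub g,
          map_sub g, Complex.sub_re, Complex.sub_re]
        ring
      have h7 := hg.re_le (u z - u s - (z - s) • T (u s))
      have h8 := hg.re_le (T (u s) - T (u z))
      have h9 := h (u z) g hg
      rw [norm_sub_rev] at h8
      rw [Real.norm_of_nonneg h3'.le] at h1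
      rw [slope_def_field, div_lt_iff₀ h3']
      nlinarith)
  exact key ⟨ht, le_rfl⟩

/-- operators with numerical range in a half plane -/
theorem exp_norm_le' [CompleteSpace E] {T : E →L[ℂ] E} {β : ℝ}
    (h : ∀ (x : E) (f : E →L[ℂ] ℂ), Sp x f → (f (T x)).re ≤ β * ‖x‖) (x : E) {t : ℝ}
    (ht : 0 ≤ t) : ‖NormedSpace.exp ((t : ℂ) • T) x‖ ≤ Real.exp (t * β) * ‖x‖ := by
  set S : E →L[ℂ] E := T - (β : ℂ) • 1 with hS
  have h1 : ∀ (x : E) (f : E →L[ℂ] ℂ), Sp x f → (f (S x)).re ≤ 0 := by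
    intro x f hf
    have h2 := h x f hf
    have e1 : S x = T x - (β : ℂ) • x := rfl
    rw [e1, map_sub, map_smul, hf.2, Complex.sub_re, smul_eq_mul, Complex.re_ofReal_mul,
      Complex.ofReal_re]
    linarith
  have h2 := exp_norm_le h1 x ht
  have h3 : NormedSpace.exp ((t : ℂ) • T) = NormedSpace.exp ((t : ℂ) • S) *
      NormedSpace.exp (((t * β : ℝ) : ℂ) • (1 : E →L[ℂ] E)) := by
    have hcom : Commute ((t : ℂ) • S) (((t * β : ℝ) : ℂ) • (1 : E →L[ℂ] E)) :=
      (Commute.one_right _).smul_right _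
    rw [← exp_add_c hcom]
    congr 1
    rw [hS, smul_sub, smul_smul]
    push_cast
    abel
  have h4 : NormedSpace.exp (((t * β : ℝ) : ℂ) • (1 : E →L[ℂ] E)) =
      ((Real.exp (t * β) : ℝ) : ℂ) • (1 : E →L[ℂ] E) := by
    have h5 := NormedSpace.algebraMap_exp_comm (𝕂 := ℂ) (𝔸 := E →L[ℂ] E) (((t * β : ℝ) : ℂ))
    rw [Algebra.algebraMap_eq_smul_one, Algebra.algebraMap_eq_smul_one] at h5
    rw [← h5, ← Complex.exp_eq_exp_ℂ, Complex.ofReal_exp]
  rw [h3, h4]
  show ‖(NormedSpace.exp ((t : ℂ) • S)) (((Real.exp (t * β) : ℝ) : ℂ) • x)‖ ≤ _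
  rw [map_smul, norm_smul, Complex.norm_real, Real.norm_of_nonneg (Real.exp_pos _).le]
  exact mul_le_mul_of_nonneg_left h2 (Real.exp_pos _).le

/-- the numerical radius and the norm -/
theorem norm_le_num [CompleteSpace E] {T : E →L[ℂ] E} {w : ℝ} (hw : 0 < w)
    (h : ∀ (x : E) (f : E →L[ℂ] ℂ), Sp x f → ‖f (T x)‖ ≤ w * ‖x‖) : ‖T‖ ≤ Real.exp 1 * w := by
  have h1 : ∀ z : ℂ, ‖NormedSpace.exp (z • T)‖ ≤ Real.exp (‖z‖ * w) := by
    intro z
    refine ContinuousLinearMap.opNorm_le_bound _ (Real.exp_pos _).le (fun x => ?_)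
    have h2 := exp_norm_le' (T := z • T) (β := ‖z‖ * w) (fun y f hf => by
      have h3 := h y f hf
      rw [smul_apply, map_smul, smul_eq_mul]
      refine (Complex.re_le_norm _).trans ?_
      rw [norm_mul, mul_assoc]
      exact mul_le_mul_of_nonneg_left h3 (norm_nonneg z)) x zero_le_one
    rwa [Complex.ofReal_one, one_smul, one_mul] at h2
  have h2 : ∀ z : ℂ, HasDerivAt (fun u : ℂ => NormedSpace.exp (u • T))
      (NormedSpace.exp (z • T) * T) z := fun z => hasDerivAt_exp_smul_const (𝕂 := ℂ) T z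
  have h3 : Differentiable ℂ (fun u : ℂ => NormedSpace.exp (u • T)) :=
    fun z => (h2 z).differentiableAt
  have h4 := Complex.norm_deriv_le_of_forall_mem_sphere_norm_le (c := 0) (R := 1 / w)
    (C := Real.exp 1) (f := fun u : ℂ => NormedSpace.exp (u • T)) (by positivity)
    h3.diffContOnCl (fun z hz => by
      refine (h1 z).trans ?_
      rw [mem_sphere_zero_iff_norm] at hz
      rw [hz, one_div, inv_mul_cancel₀ hw.ne'])
  rw [(h2 0).deriv, zero_smul, NormedSpace.exp_zero, one_mul] at h4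
  rwa [div_div_eq_mul_div, div_one] at h4

/-- hermitian operators -/
def Hm (T : E →L[ℂ] E) : Prop := ∀ (x : E) (f : E →L[ℂ] ℂ), Sp x f → (f (T x)).im = 0

theorem Hm.exp_norm [CompleteSpace E] {T : E →L[ℂ] E} (hT : Hm T) (t : ℝ) (x : E) :
    ‖NormedSpace.exp ((t * Complex.I : ℂ) • T) x‖ = ‖x‖ := by
  have h1 : ∀ (t : ℝ) (x : E), ‖NormedSpace.exp ((t * Complex.I : ℂ) • T) x‖ ≤ ‖x‖ := by
    intro t x
    have h2 := exp_norm_le (T := (t * Complex.I : ℂ) • T) (fun y f hf => by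
      have h3 := hT y f hf
      rw [smul_apply, map_smul, smul_eq_mul]
      simp [h3]) x zero_le_one
    rwa [Complex.ofReal_one, one_smul] at h2
  refine le_antisymm (h1 t x) ?_
  have h2 := h1 (-t) (NormedSpace.exp ((t * Complex.I : ℂ) • T) x)
  have h3 : NormedSpace.exp ((((-t : ℝ) : ℂ) * Complex.I : ℂ) • T) *
      NormedSpace.exp ((t * Complex.I : ℂ) • T) = 1 := by
    have hcom : Commute ((((-t : ℝ) : ℂ) * Complex.I : ℂ) • T) ((t * Complex.I : ℂ) • T) :=
      ((Commute.refl T).smul_left _).smul_right _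
    rw [← exp_add_c hcom, ← add_smul]
    push_cast
    rw [neg_mul, neg_add_cancel, zero_smul, NormedSpace.exp_zero]
  have h4 : (NormedSpace.exp ((((-t : ℝ) : ℂ) * Complex.I : ℂ) • T))
      (NormedSpace.exp ((t * Complex.I : ℂ) • T) x) = x := by
    have := congrArg (fun S : E →L[ℂ] E => S x) h3
    simpa using this
  rwa [h4] at h2

end basic

end Pool.Q193.HP
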