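import Mathlib
import Pool.Agent.Q193.HP.Num

/-!
# Functional calculus for the numerical range
-/

set_option autoImplicit false

namespace Pool.Q193.HP

open Filter Topology Polynomial

section algebra

variable {A : Type*} [NormedRing A] [NormedAlgebra ℂ A] [CompleteSpace A]

/-- real polynomials of an element of a complex algebra -/
noncomputable def pv (T : A) (p : ℝ[X]) : A := aeval T (p.map Complex.ofRealHom)

omit [CompleteSpace A] in
theorem pv_add (T : A) (p q : ℝ[X]) : pv T (p + q) = pv T p + pv T q := by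
  simp [pv]

omit [CompleteSpace A] in
theorem pv_mul (T : A) (p q : ℝ[X]) : pv T (p * q) = pv T p * pv T q := by
  simp [pv]

omit [CompleteSpace A] in
theorem pv_one (T : A) : pv T 1 = 1 := by
  simp [pv]

omit [CompleteSpace A] in
theorem pv_X (T : A) : pv T X = T := by
  simp [pv]

omit [CompleteSpace A] in
theorem pv_C (T : A) (c : ℝ) : pv T (C c) = (c : ℂ) • (1 : A) := by
  simp [pv, Algebra.algebraMap_eq_smul_one]

omit [CompleteSpace A] in
theorem pv_pow (T : A) (p : ℝ[X]) (n : ℕ) : pv T (p ^ n) = pv T p ^ n := by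
  simp [pv]

omit [CompleteSpace A] in
theorem pv_smul (T : A) (c : ℝ) (p : ℝ[X]) : pv T (c • p) = (c : ℂ) • pv T p := by
  rw [smul_eq_C_mul, pv_mul, pv_C, smul_mul_assoc, one_mul]

omit [CompleteSpace A] in
theorem pv_sub (T : A) (p q : ℝ[X]) : pv T (p - q) = pv T p - pv T q := by
  simp [pv]

theorem growth [Nontrivial A] (a : A) {M M' : ℝ} (hM : 0 ≤ M)
    (h : ∀ z ∈ spectrum ℂ a, ‖z‖ ≤ M) (hM' : M < M') : ∀ᶠ n : ℕ in atTop, ‖a ^ n‖ ≤ M' ^ n := by
  have hM'0 : 0 < M' := hM.trans_lt hM'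
  set m : NNReal := ⟨M', hM'0.le⟩ with hm
  have h1 : spectralRadius ℂ a < (m : ENNReal) := by
    refine spectrum.spectralRadius_lt_of_forall_lt a (fun z hz => ?_)
    have := h z hz
    rw [← NNReal.coe_lt_coe, coe_nnnorm]
    exact this.trans_lt hM'
  have h2 := (spectrum.pow_norm_pow_one_div_tendsto_nhds_spectralRadius a).eventually_lt_const h1
  filter_upwards [h2, eventually_ge_atTop 1] with n hn hn1
  have hn0 : (n : ℝ) ≠ 0 := by
    have : 0 < n := hn1
    positivity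
  have h3 : ‖a ^ n‖ ^ (1 / n : ℝ) < M' := by
    have h4 : ENNReal.ofReal (‖a ^ n‖ ^ (1 / n : ℝ)) < ENNReal.ofReal M' := by
      refine hn.trans_le ?_
      rw [ENNReal.ofReal, Real.toNNReal_of_nonneg hM'0.le]
      exact le_rfl
    exact (ENNReal.ofReal_lt_ofReal_iff hM'0).1 h4
  have h5 := Real.rpow_le_rpow (by positivity) h3.le (Nat.cast_nonneg n)
  rw [← Real.rpow_mul (norm_nonneg _), one_div, inv_mul_cancel₀ hn0, Real.rpow_one,
    Real.rpow_natCast] at h5
  exact h5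

theorem csq (Λ : ℝ[X] →ₗ[ℝ] ℝ) (hsq : ∀ q : ℝ[X], 0 ≤ Λ (q * q)) (q : ℝ[X]) :
    Λ q ^ 2 ≤ Λ 1 * Λ (q * q) := by
  have h1 : ∀ t : ℝ, 0 ≤ Λ 1 * (t * t) + (2 * Λ q) * t + Λ (q * q) := by
    intro t
    have h2 := hsq (t • 1 + q)
    have e1 : (t • 1 + q) * (t • 1 + q) = (t * t) • (1 : ℝ[X]) + (2 * t) • q + q * q := by
      rw [smul_eq_C_mul, smul_eq_C_mul, smul_eq_C_mul, C_mul, C_mul]
      have : (C (2 : ℝ) : ℝ[X]) = 2 := by
        rw [show (2 : ℝ) = ((2 : ℕ) : ℝ) by norm_num, C_eq_natCast]; norm_num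
      rw [this]
      ring
    rw [e1, map_add, map_add, map_smul, map_smul, smul_eq_mul, smul_eq_mul] at h2
    linarith
  have h2 := discrim_le_zero h1
  rw [discrim] at h2
  nlinarith

/-- **Kaplansky's trick** -/
theorem kap [Nontrivial A] (T : A) {α β : ℝ}
    (hσ : ∀ z ∈ spectrum ℂ T, z.im = 0 ∧ α ≤ z.re ∧ z.re ≤ β) (Λ : ℝ[X] →ₗ[ℝ] ℝ)
    (hsq : ∀ q : ℝ[X], 0 ≤ Λ (q * q)) (K : ℝ) (hK : ∀ p : ℝ[X], |Λ p| ≤ K * ‖pv T p‖)
    (r : ℝ[X]) (hr : ∀ t : ℝ, α ≤ t → t ≤ β → 0 ≤ r.eval t) : 0 ≤ Λ r := by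
  obtain ⟨M₀, hM₀⟩ : BddAbove ((fun t => r.eval t) '' Set.Icc α β) :=
    (isCompact_Icc.image r.continuous).bddAbove
  set M : ℝ := max M₀ 0 with hM
  have hM0 : 0 ≤ M := le_max_right _ _
  set s : ℝ[X] := C M - r with hs
  have hL0 : 0 ≤ Λ 1 := by simpa using hsq 1
  -- the spectrum of `s T`
  have hspec : ∀ z ∈ spectrum ℂ (pv T s), ‖z‖ ≤ M := by
    intro z hz
    rw [pv, spectrum.map_polynomial_aeval] at hz
    obtain ⟨w, hw, rfl⟩ := hz
    obtain ⟨h1, h2, h3⟩ := hσ w hw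
    have e1 : w = ((w.re : ℝ) : ℂ) := Complex.ext (by simp) (by simp [h1])
    have e2 : eval w (s.map Complex.ofRealHom) = ((s.eval w.re : ℝ) : ℂ) := by
      conv_lhs => rw [e1]
      rw [eval_map, ← Complex.ofRealHom_eq_coe, eval₂_at_apply]
      rfl
    show ‖eval w (s.map Complex.ofRealHom)‖ ≤ M
    rw [e2, Complex.norm_real, hs, eval_sub, eval_C, Real.norm_eq_abs, abs_le]
    have h4 : r.eval w.re ≤ M := (hM₀ ⟨w.re, ⟨h2, h3⟩, rfl⟩).trans (le_max_left _ _)
    have h5 := hr w.re h2 h3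
    constructor <;> linarith
  have hmain : |Λ s| ≤ Λ 1 * M := by
    rcases hL0.eq_or_lt with hL | hL
    · have h1 := csq Λ hsq s
      rw [← hL, zero_mul] at h1
      have h2 : Λ s = 0 := by nlinarith [sq_nonneg (Λ s)]
      rw [h2, abs_zero, ← hL, zero_mul]
    · refine le_of_forall_gt_imp_ge_of_dense (fun a ha => ?_)
      set M' : ℝ := a / Λ 1 with hM'
      have hMM' : M < M' := by rw [hM', lt_div_iff₀ hL]; linarith
      have hM'0 : 0 < M' := hM0.trans_lt hMM'
      set y : ℕ → ℝ := fun n => |Λ (s ^ (2 ^ n))| / Λ 1 with hy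
      have hy0 : ∀ n, 0 ≤ y n := fun n => by positivity
      have hy2 : ∀ n, y n ^ 2 ≤ y (n + 1) := by
        intro n
        have h1 := csq Λ hsq (s ^ (2 ^ n))
        have e1 : s ^ (2 ^ n) * s ^ (2 ^ n) = s ^ (2 ^ (n + 1)) := by
          rw [← pow_add]; congr 1; ring
        rw [e1] at h1
        simp only [hy]
        rw [div_pow, sq_abs, div_le_div_iff₀ (by positivity) hL]
        have h2 := le_abs_self (Λ (s ^ (2 ^ (n + 1))))
        have h3 : Λ 1 * Λ (s ^ (2 ^ (n + 1))) ≤ Λ 1 * |Λ (s ^ (2 ^ (n + 1)))| := by gcongr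
        nlinarith
      have hyn : ∀ n, y 0 ^ (2 ^ n) ≤ y n := by
        intro n
        induction n with
        | zero => simp
        | succ n ih =>
          calc y 0 ^ (2 ^ (n + 1)) = (y 0 ^ (2 ^ n)) ^ 2 := by rw [← pow_mul]; congr 1
            _ ≤ y n ^ 2 := by gcongr
            _ ≤ y (n + 1) := hy2 n
      have hK0 : 0 ≤ K := by
        by_contra hneg
        have h1 := hK 1
        rw [pv_one] at h1
        have h2 : 0 < ‖(1 : A)‖ := norm_pos_iff.2 one_ne_zero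
        have h3 := abs_nonneg (Λ (1 : ℝ[X]))
        nlinarith
      have hgr : ∀ᶠ n : ℕ in atTop, ‖pv T s ^ (2 ^ n)‖ ≤ M' ^ (2 ^ n) := by
        have h1 := growth (pv T s) hM0 hspec hMM'
        exact (tendsto_pow_atTop_atTop_of_one_lt (r := 2) (by norm_num)).eventually h1
      have hy0M : y 0 ≤ M' := by
        by_contra hcon
        push Not at hcon
        have h1 : 1 < y 0 / M' := by rwa [one_lt_div hM'0]
        have h2 : Tendsto (fun n : ℕ => (y 0 / M') ^ (2 ^ n)) atTop atTop :=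
          (tendsto_pow_atTop_atTop_of_one_lt h1).comp
            (tendsto_pow_atTop_atTop_of_one_lt (r := 2) (by norm_num))
        obtain ⟨n, hn1, hn2⟩ := ((h2.eventually_gt_atTop (K / Λ 1)).and hgr).exists
        have h3 : y 0 ^ (2 ^ n) ≤ K / Λ 1 * M' ^ (2 ^ n) := by
          refine (hyn n).trans ?_
          simp only [hy]
          rw [div_mul_eq_mul_div]
          gcongr
          refine (hK _).trans ?_
          rw [pv_pow]
          gcongr
        rw [div_pow, lt_div_iff₀ (by positivity)] at hn1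
        linarith
      have h4 : y 0 = |Λ s| / Λ 1 := by simp [hy]
      rw [h4, hM', div_le_div_iff_of_pos_right hL] at hy0M
      exact hy0M
  have h1 : Λ s = M * Λ 1 - Λ r := by
    rw [hs, map_sub]
    congr 1
    rw [← mul_one (C M), ← smul_eq_C_mul, map_smul, smul_eq_mul]
  have h2 := le_abs_self (Λ s)
  linarith

end algebra

section banach

variable {E : Type*} [NormedAddCommGroup E] [NormedSpace ℂ E]

/-- the spectrum and the numerical range of a hermitian operator -/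
theorem spec_num [CompleteSpace E] [Nontrivial E] {T : E →L[ℂ] E} (hT : Hm T) {α β : ℝ}
    (h : ∀ (x : E) (f : E →L[ℂ] ℂ), Sp x f → α * ‖x‖ ≤ (f (T x)).re ∧ (f (T x)).re ≤ β * ‖x‖)
    {z : ℂ} (hz : z ∈ spectrum ℂ T) : z.im = 0 ∧ α ≤ z.re ∧ z.re ≤ β := by
  have key : ∀ (s : ℂ) (_ : s ≠ 0) (M : ℝ) (_ : 0 ≤ M)
      (_ : ∀ x, ‖NormedSpace.exp (s • T) x‖ ≤ M * ‖x‖), Real.exp ((s * z).re) ≤ M := by
    intro s hs M hM hsM
    have h1 : s * z ∈ spectrum ℂ (s • T) := by
      have h2 := (spectrum.smul_mem_smul_iff (a := T) (s := z) (r := Units.mk0 s hs)).2 hz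
      exact h2
    have h2 := spectrum.exp_mem_exp (𝕜 := ℂ) _ h1
    have h3 := spectrum.norm_le_norm_of_mem h2
    rw [← Complex.exp_eq_exp_ℂ, Complex.norm_exp] at h3
    exact h3.trans (ContinuousLinearMap.opNorm_le_bound _ hM hsM)
  have hI : ∀ t : ℝ, t ≠ 0 → Real.exp (-(t * z.im)) ≤ 1 := by
    intro t ht
    have h1 := key (t * Complex.I) (mul_ne_zero (by exact_mod_cast ht) Complex.I_ne_zero) 1
      zero_le_one (fun x => by rw [hT.exp_norm, one_mul])
    have e1 : ((t * Complex.I : ℂ) * z).re = -(t * z.im) := by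
      simp
    rwa [e1] at h1
  refine ⟨?_, ?_, ?_⟩
  · have h1 := Real.exp_le_one_iff.1 (hI 1 one_ne_zero)
    have h2 := Real.exp_le_one_iff.1 (hI (-1) (by norm_num))
    linarith
  · have h1 := key (-1) (by norm_num) (Real.exp (-α)) (Real.exp_pos _).le (fun x => by
      have h2 := exp_norm_le' (T := (-1 : ℂ) • T) (β := -α) (fun y f hf => by
        have := (h y f hf).1
        rw [neg_one_smul, neg_apply, map_neg, Complex.neg_re]
        linarith) x zero_le_one
      rwa [Complex.ofReal_one, one_smul, one_mul] at h2)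
    rw [Real.exp_le_exp] at h1
    have e1 : ((-1 : ℂ) * z).re = -z.re := by simp
    rw [e1] at h1
    linarith
  · have h1 := key 1 one_ne_zero (Real.exp β) (Real.exp_pos _).le (fun x => by
      have h2 := exp_norm_le' (T := T) (β := β) (fun y f hf => (h y f hf).2) x zero_le_one
      rw [Complex.ofReal_one, one_mul] at h2
      exact h2)
    rw [Real.exp_le_exp, one_mul] at h1
    exact h1

theorem Hm.sq_nonneg [CompleteSpace E] {S : E →L[ℂ] E} (hS : Hm S) {x : E} {f : E →L[ℂ] ℂ}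
    (h : Sp x f) : 0 ≤ (f (S (S x))).re := by
  by_contra hneg
  push Not at hneg
  set A : E →L[ℂ] E := Complex.I • S with hA
  set u : ℝ → E := fun t => NormedSpace.exp ((t : ℂ) • A) x with hu
  have hd : ∀ t : ℝ, HasDerivAt u (A (u t)) t := fun t => ex_deriv A x t
  have hre : ∀ (w : ℝ → E) (w' : E) (t : ℝ), HasDerivAt w w' t →
      HasDerivAt (fun t => (f (w t)).re) (f w').re t := by
    intro w w' t hw
    have h1 := (f.restrictScalars ℝ).hasFDerivAt.comp_hasDerivAt t hw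
    have h2 := Complex.reCLM.hasFDerivAt.comp_hasDerivAt t h1
    exact h2
  have hg : ∀ t, HasDerivAt (fun t => (f (u t)).re) (f (A (u t))).re t := fun t => hre _ _ _ (hd t)
  have hg2 : ∀ t, HasDerivAt (fun t => (f (A (u t))).re) (f (A (A (u t)))).re t := by
    intro t
    refine hre _ _ _ ?_
    exact (A.restrictScalars ℝ).hasFDerivAt.comp_hasDerivAt t (hd t)
  have hu0 : u 0 = x := by simp [hu]
  have hle : ∀ t, (f (u t)).re ≤ (f (u 0)).re := by
    intro t
    rw [hu0, h.re_self]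
    refine (h.re_le _).trans (le_of_eq ?_)
    have e1 : ((t : ℂ) • A) = (t * Complex.I : ℂ) • S := by rw [hA, smul_smul]
    simp only [hu]
    rw [e1, hS.exp_norm]
  have hderiv : deriv (fun t => (f (u t)).re) = fun t => (f (A (u t))).re :=
    funext fun t => (hg t).deriv
  have h2 : deriv (deriv (fun t => (f (u t)).re)) 0 = -(f (S (S x))).re := by
    rw [hderiv, (hg2 0).deriv, hu0, hA]
    simp only [smul_apply, map_smul, smul_smul, Complex.I_mul_I, neg_one_smul, map_neg,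
      Complex.neg_re]
  have h3 : deriv (fun t => (f (u t)).re) 0 = 0 := by
    rw [hderiv]
    show (f (A (u 0))).re = 0
    rw [hu0, hA, smul_apply, map_smul, smul_eq_mul]
    have := hS x f h
    simp [this]
  have h4 : IsLocalMin (fun t => (f (u t)).re) 0 :=
    isLocalMin_of_deriv_deriv_pos (by rw [h2]; linarith) h3 (hg 0).continuousAt
  have h5 : (fun t => (f (u t)).re) =ᶠ[𝓝 0] fun _ => (f (u 0)).re := by
    filter_upwards [h4] with t ht
    exact le_antisymm (hle t) ht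
  have h6 := h5.deriv.deriv_eq
  rw [h2] at h6
  simp at h6
  linarith

/-- all powers are hermitian -/
def HmP (T : E →L[ℂ] E) : Prop := ∀ n : ℕ, Hm (T ^ n)

theorem Hm.add {S T : E →L[ℂ] E} (hS : Hm S) (hT : Hm T) : Hm (S + T) := by
  intro x f h
  rw [add_apply, map_add, Complex.add_im, hS x f h, hT x f h, add_zero]

theorem Hm.smul {S : E →L[ℂ] E} (hS : Hm S) (c : ℝ) : Hm ((c : ℂ) • S) := by
  intro x f h
  rw [smul_apply, map_smul, smul_eq_mul, Complex.im_ofReal_mul, hS x f h, mul_zero]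

theorem HmP.hm_pv {T : E →L[ℂ] E} (hT : HmP T) (p : ℝ[X]) : Hm (pv T p) := by
  induction p using Polynomial.induction_on' with
  | add p q hp hq => rw [pv_add]; exact hp.add hq
  | monomial n a =>
    rw [← C_mul_X_pow_eq_monomial, pv_mul, pv_pow, pv_X, pv_C, smul_mul_assoc, one_mul]
    exact (hT n).smul a

/-- the functional `p ↦ Re f (p(T) x)` -/
noncomputable def lam (T : E →L[ℂ] E) (x : E) (f : E →L[ℂ] ℂ) : ℝ[X] →ₗ[ℝ] ℝ where
  toFun p := (f (pv T p x)).re
  map_add' p q := by rw [pv_add, add_apply, map_add, Complex.add_re]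
  map_smul' c p := by
    rw [pv_smul, smul_apply, map_smul, smul_eq_mul, Complex.re_ofReal_mul, RingHom.id_apply,
      smul_eq_mul]

theorem lam_apply (T : E →L[ℂ] E) (x : E) (f : E →L[ℂ] ℂ) (p : ℝ[X]) :
    lam T x f p = (f (pv T p x)).re := rfl

/-- positivity of the functional calculus -/
theorem HmP.nonneg [CompleteSpace E] [Nontrivial E] {T : E →L[ℂ] E} (hT : HmP T) {α β : ℝ}
    (h : ∀ (x : E) (f : E →L[ℂ] ℂ), Sp x f → α * ‖x‖ ≤ (f (T x)).re ∧ (f (T x)).re ≤ β * ‖x‖)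
    (r : ℝ[X]) (hr : ∀ t : ℝ, α ≤ t → t ≤ β → 0 ≤ r.eval t) {x : E} {f : E →L[ℂ] ℂ}
    (hf : Sp x f) : 0 ≤ (f (pv T r x)).re := by
  have h1 := kap T (fun z hz => spec_num (by simpa using hT 1) h hz) (lam T x f)
    (fun q => by
      rw [lam_apply, pv_mul]
      exact (hT.hm_pv q).sq_nonneg hf) ‖x‖ (fun p => by
      rw [lam_apply]
      refine (Complex.abs_re_le_norm _).trans ((hf.norm_le _).trans ?_)
      rw [mul_comm]
      exact (pv T p).le_opNorm x) r hr
  exact h1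

theorem HmP.bounds [CompleteSpace E] [Nontrivial E] {T : E →L[ℂ] E} (hT : HmP T) {α β : ℝ}
    (h : ∀ (x : E) (f : E →L[ℂ] ℂ), Sp x f → α * ‖x‖ ≤ (f (T x)).re ∧ (f (T x)).re ≤ β * ‖x‖)
    {r : ℝ[X]} {a b : ℝ} (hr : ∀ t : ℝ, α ≤ t → t ≤ β → a ≤ r.eval t ∧ r.eval t ≤ b) {x : E}
    {f : E →L[ℂ] ℂ} (hf : Sp x f) :
    a * ‖x‖ ≤ (f (pv T r x)).re ∧ (f (pv T r x)).re ≤ b * ‖x‖ := by
  have hc : ∀ c : ℝ, (f (pv T (C c) x)).re = c * ‖x‖ := by
    intro c
    rw [pv_C, smul_apply, map_smul, smul_eq_mul, Complex.re_ofReal_mul]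
    show c * (f x).re = _
    rw [hf.re_self]
  constructor
  · have h1 := hT.nonneg h (r - C a) (fun t h1 h2 => by
      rw [eval_sub, eval_C]; linarith [(hr t h1 h2).1]) hf
    rw [pv_sub, sub_apply, map_sub, Complex.sub_re, hc] at h1
    linarith
  · have h1 := hT.nonneg h (C b - r) (fun t h1 h2 => by
      rw [eval_sub, eval_C]; linarith [(hr t h1 h2).2]) hf
    rw [pv_sub, sub_apply, map_sub, Complex.sub_re, hc] at h1
    linarith

/-- the norm of a polynomial of `T` -/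
theorem HmP.norm_pv_le [CompleteSpace E] [Nontrivial E] {T : E →L[ℂ] E} (hT : HmP T) {α β : ℝ}
    (h : ∀ (x : E) (f : E →L[ℂ] ℂ), Sp x f → α * ‖x‖ ≤ (f (T x)).re ∧ (f (T x)).re ≤ β * ‖x‖)
    {r : ℝ[X]} {b : ℝ} (hb : 0 < b) (hr : ∀ t : ℝ, α ≤ t → t ≤ β → |r.eval t| ≤ b) :
    ‖pv T r‖ ≤ Real.exp 1 * b := by
  refine norm_le_num hb (fun x f hf => ?_)
  have h1 := hT.bounds h (a := -b) (b := b) (fun t h1 h2 => abs_le.1 (hr t h1 h2)) hf
  have h2 := hT.hm_pv r x f hf
  have h3 : f (pv T r x) = (((f (pv T r x)).re : ℝ) : ℂ) :=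
    Complex.ext (by simp) (by simp [h2])
  rw [h3, Complex.norm_real, Real.norm_eq_abs, abs_le]
  constructor
  · linarith [h1.1]
  · exact h1.2

end banach

end Pool.Q193.HP
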