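import Mathlib
import Pool.Agent.Q193.HP.Kap

/-!
# Skew-hermitian operators on a complex Banach space
-/

set_option autoImplicit false

namespace Pool.Q193.HP

open Filter Topology

variable {E : Type*} [NormedAddCommGroup E] [NormedSpace ℂ E]

/-- skew-hermitian operators -/
def SkC (A : E →L[ℂ] E) : Prop := ∀ (x : E) (f : E →L[ℂ] ℂ), Sp x f → (f (A x)).re = 0

theorem SkC.add {A B : E →L[ℂ] E} (hA : SkC A) (hB : SkC B) : SkC (A + B) := by
  intro x f h
  rw [add_apply, map_add, Complex.add_re, hA x f h, hB x f h, add_zero]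

theorem SkC.smul {A : E →L[ℂ] E} (hA : SkC A) (c : ℝ) : SkC ((c : ℂ) • A) := by
  intro x f h
  rw [smul_apply, map_smul, smul_eq_mul, Complex.re_ofReal_mul, hA x f h, mul_zero]

theorem SkC.neg {A : E →L[ℂ] E} (hA : SkC A) : SkC (-A) := by
  intro x f h
  rw [neg_apply, map_neg, Complex.neg_re, hA x f h, neg_zero]

theorem SkC.sub {A B : E →L[ℂ] E} (hA : SkC A) (hB : SkC B) : SkC (A - B) := by
  rw [sub_eq_add_neg]
  exact hA.add hB.neg

theorem SkC.hm {A : E →L[ℂ] E} (hA : SkC A) : Hm ((-Complex.I) • A) := by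
  intro x f h
  have h1 := hA x f h
  rw [smul_apply, map_smul, smul_eq_mul]
  simp [h1]

theorem Hm.sk {A : E →L[ℂ] E} (hA : Hm A) : SkC (Complex.I • A) := by
  intro x f h
  have h1 := hA x f h
  rw [smul_apply, map_smul, smul_eq_mul]
  simp [h1]

theorem SkC.exp_norm [CompleteSpace E] {A : E →L[ℂ] E} (hA : SkC A) (t : ℝ) (x : E) :
    ‖NormedSpace.exp ((t : ℂ) • A) x‖ = ‖x‖ := by
  have h1 := hA.hm.exp_norm t x
  rw [smul_smul] at h1
  have h2 : (t * Complex.I * -Complex.I : ℂ) = t := by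
    have : (t * Complex.I * -Complex.I : ℂ) = -(t * (Complex.I * Complex.I)) := by ring
    rw [this, Complex.I_mul_I]
    ring
  rwa [h2] at h1

theorem exp_neg_apply [CompleteSpace E] (A : E →L[ℂ] E) (t : ℝ) (x : E) :
    NormedSpace.exp (((-t : ℝ) : ℂ) • A) (NormedSpace.exp ((t : ℂ) • A) x) = x := by
  have h3 : NormedSpace.exp (((-t : ℝ) : ℂ) • A) * NormedSpace.exp ((t : ℂ) • A) = 1 := by
    have hcom : Commute (((-t : ℝ) : ℂ) • A) ((t : ℂ) • A) :=
      ((Commute.refl A).smul_left _).smul_right _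
    rw [← exp_add_c hcom, ← add_smul]
    push_cast
    rw [neg_add_cancel, zero_smul, NormedSpace.exp_zero]
  have := congrArg (fun S : E →L[ℂ] E => S x) h3
  simpa using this

theorem exp_neg_apply' [CompleteSpace E] (A : E →L[ℂ] E) (t : ℝ) (x : E) :
    NormedSpace.exp ((t : ℂ) • A) (NormedSpace.exp (((-t : ℝ) : ℂ) • A) x) = x := by
  have := exp_neg_apply A (-t) x
  rwa [neg_neg] at this

theorem exp0 [CompleteSpace E] (A : E →L[ℂ] E) (x : E) :
    NormedSpace.exp (((0 : ℝ) : ℂ) • A) x = x := by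
  rw [Complex.ofReal_zero, zero_smul, NormedSpace.exp_zero]
  rfl

theorem SkC.of_exp [CompleteSpace E] {A : E →L[ℂ] E}
    (hA : ∀ (t : ℝ) (x : E), ‖NormedSpace.exp ((t : ℂ) • A) x‖ = ‖x‖) : SkC A := by
  intro x f h
  have h1 := ex_deriv A x 0
  have h2 := (f.restrictScalars ℝ).hasFDerivAt.comp_hasDerivAt (0 : ℝ) h1
  have h3 := Complex.reCLM.hasFDerivAt.comp_hasDerivAt (0 : ℝ) h2
  have h5 : IsLocalMax (fun t : ℝ => (f (NormedSpace.exp ((t : ℂ) • A) x)).re) 0 := by
    refine Filter.Eventually.of_forall (fun t => ?_)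
    have h6 := h.re_le (NormedSpace.exp ((t : ℂ) • A) x)
    rw [hA] at h6
    show (f (NormedSpace.exp ((t : ℂ) • A) x)).re ≤
      (f (NormedSpace.exp (((0 : ℝ) : ℂ) • A) x)).re
    rw [exp0, h.re_self]
    exact h6
  have h6 := h5.hasDerivAt_eq_zero h3
  rw [exp0] at h6
  exact h6

/-- conjugation by invertible isometries -/
theorem SkC.conj {A : E →L[ℂ] E} (hA : SkC A) (T S : E →L[ℂ] E) (hT : ∀ y, ‖T y‖ ≤ ‖y‖)
    (hS : ∀ y, ‖S y‖ = ‖y‖) (hTS : ∀ y, T (S y) = y) : SkC (T.comp (A.comp S)) := by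
  intro x f h
  have h1 : Sp (S x) (f.comp T) := h.comp_isom T S hT (hS x) (hTS x)
  exact hA _ _ h1

theorem SkC.conj_exp [CompleteSpace E] {A B : E →L[ℂ] E} (hA : SkC A) (hB : SkC B) (t : ℝ) :
    SkC (NormedSpace.exp ((t : ℂ) • B) * A * NormedSpace.exp (((-t : ℝ) : ℂ) • B)) := by
  have h1 := hA.conj (NormedSpace.exp ((t : ℂ) • B)) (NormedSpace.exp (((-t : ℝ) : ℂ) • B))
    (fun y => (hB.exp_norm t y).le) (hB.exp_norm (-t)) (exp_neg_apply' B t)
  exact h1

theorem SkC.comm [CompleteSpace E] {A B : E →L[ℂ] E} (hA : SkC A) (hB : SkC B) :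
    SkC (A * B - B * A) := by
  intro x f h
  have h3 : HasDerivAt (fun s : ℝ => (s : ℂ)) 1 0 := Complex.ofRealCLM.hasDerivAt (x := 0)
  have h3' : HasDerivAt (fun s : ℝ => ((-s : ℝ) : ℂ)) (-1) 0 := by
    have := h3.neg
    refine this.congr_of_eventuallyEq (Filter.Eventually.of_forall fun s => ?_)
    simp
  have h1 : HasDerivAt (fun s : ℝ => NormedSpace.exp ((s : ℂ) • A)) A 0 := by
    have h2 := hasDerivAt_exp_smul_const (𝕂 := ℂ) A (0 : ℂ)
    rw [zero_smul, NormedSpace.exp_zero, one_mul] at h2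
    have h4 := HasDerivAt.scomp (0 : ℝ) (g₁ := fun u : ℂ => NormedSpace.exp (u • A)) (by simpa using h2) h3
    rwa [one_smul] at h4
  have h1' : HasDerivAt (fun s : ℝ => NormedSpace.exp (((-s : ℝ) : ℂ) • A)) (-A) 0 := by
    have h2 := hasDerivAt_exp_smul_const (𝕂 := ℂ) A (0 : ℂ)
    rw [zero_smul, NormedSpace.exp_zero, one_mul] at h2
    have h4 := HasDerivAt.scomp (0 : ℝ) (g₁ := fun u : ℂ => NormedSpace.exp (u • A)) (by simpa using h2) h3'
    rwa [neg_one_smul] at h4
  have h5 := (h1.mul_const B).mul h1'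
  set L : (E →L[ℂ] E) →L[ℝ] ℝ :=
    Complex.reCLM.comp ((f.comp (ContinuousLinearMap.apply ℂ E x)).restrictScalars ℝ) with hL
  have hLa : ∀ S : E →L[ℂ] E, L S = (f (S x)).re := fun S => rfl
  have h8 := L.hasFDerivAt.comp_hasDerivAt (0 : ℝ) h5
  have h9 : HasDerivAt (fun _ : ℝ => (0 : ℝ)) 0 0 := hasDerivAt_const _ _
  have h10 : (fun _ : ℝ => (0 : ℝ)) = (L ∘ ((fun s : ℝ => NormedSpace.exp ((s : ℂ) • A) * B) *
      fun s : ℝ => NormedSpace.exp (((-s : ℝ) : ℂ) • A))) := by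
    funext s
    exact (hB.conj_exp hA s x f h).symm
  rw [h10] at h9
  have h11 := h8.unique h9
  have e0 : NormedSpace.exp (((-0 : ℝ) : ℂ) • A) = 1 := by
    rw [neg_zero, Complex.ofReal_zero, zero_smul, NormedSpace.exp_zero]
  have e0' : NormedSpace.exp (((0 : ℝ) : ℂ) • A) = 1 := by
    rw [Complex.ofReal_zero, zero_smul, NormedSpace.exp_zero]
  rw [e0, e0', mul_one, one_mul, hLa, add_apply, mul_neg, neg_apply, map_add, map_neg,
    Complex.add_re, Complex.neg_re] at h11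
  rw [sub_apply, map_sub, Complex.sub_re]
  linarith

theorem SkC.sq_nonpos [CompleteSpace E] {A : E →L[ℂ] E} (hA : SkC A) {x : E} {f : E →L[ℂ] ℂ}
    (h : Sp x f) : (f (A (A x))).re ≤ 0 := by
  have h1 := hA.hm.sq_nonneg h
  simp only [smul_apply, map_smul, smul_smul] at h1
  have h2 : (-Complex.I * -Complex.I : ℂ) = -1 := by
    rw [neg_mul_neg, Complex.I_mul_I]
  rw [h2, neg_one_smul, Complex.neg_re] at h1
  linarith

/-- **Landau's inequality** -/
theorem SkC.landau [CompleteSpace E] {A : E →L[ℂ] E} (hA : SkC A) (x : E) :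
    ‖A x‖ ^ 2 ≤ 4 * ‖x‖ * ‖A (A x)‖ := by
  obtain ⟨g, hg⟩ := exists_sp (A x)
  set c : ℝ := ‖A (A x)‖ with hc
  have hre : ∀ (w : ℝ → E) (w' : E) (t : ℝ), HasDerivAt w w' t →
      HasDerivAt (fun t => (g (w t)).re) (g w').re t := by
    intro w w' t hw
    have h1 := (g.restrictScalars ℝ).hasFDerivAt.comp_hasDerivAt t hw
    have h2 := Complex.reCLM.hasFDerivAt.comp_hasDerivAt t h1
    exact h2
  have hcomm : ∀ (t : ℝ) (y : E), A (NormedSpace.exp ((t : ℂ) • A) y) =
      NormedSpace.exp ((t : ℂ) • A) (A y) := by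
    intro t y
    have h1 : Commute A (NormedSpace.exp ((t : ℂ) • A)) :=
      ((Commute.refl A).smul_right _).exp_right
    have := congrArg (fun S : E →L[ℂ] E => S y) h1.eq
    simpa using this
  have hd : ∀ (y : E) (t : ℝ), HasDerivAt (fun t : ℝ => (g (NormedSpace.exp ((t : ℂ) • A) y)).re)
      (g (NormedSpace.exp ((t : ℂ) • A) (A y))).re t := by
    intro y t
    have h1 := hre _ _ _ (ex_deriv A y t)
    rwa [hcomm] at h1
  have key : ∀ t : ℝ, 0 ≤ t → t * ‖A x‖ ≤ 2 * ‖x‖ + t ^ 2 / 2 * c := by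
    intro t ht
    have m1 : MonotoneOn (fun s : ℝ => (g (NormedSpace.exp ((s : ℂ) • A) (A x))).re + s * c)
        (Set.Ici 0) := by
      have hd1 : ∀ s : ℝ, HasDerivAt
          (fun s : ℝ => (g (NormedSpace.exp ((s : ℂ) • A) (A x))).re + s * c)
          ((g (NormedSpace.exp ((s : ℂ) • A) (A (A x)))).re + 1 * c) s := fun s =>
        (hd (A x) s).add ((hasDerivAt_id s).mul_const c)
      refine monotoneOn_of_deriv_nonneg (convex_Ici 0)
        (fun s _ => (hd1 s).continuousAt.continuousWithinAt)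
        (fun s _ => (hd1 s).differentiableAt.differentiableWithinAt) (fun s _ => ?_)
      rw [(hd1 s).deriv]
      have h1 := hg.norm_le (NormedSpace.exp ((s : ℂ) • A) (A (A x)))
      rw [hA.exp_norm] at h1
      have h2 := (abs_le.1 ((Complex.abs_re_le_norm _).trans h1)).1
      linarith
    have m2 : MonotoneOn (fun s : ℝ => (g (NormedSpace.exp ((s : ℂ) • A) x)).re - s * ‖A x‖
        + s ^ 2 / 2 * c) (Set.Ici 0) := by
      have hd1 : ∀ s : ℝ, HasDerivAt
          (fun s : ℝ => (g (NormedSpace.exp ((s : ℂ) • A) x)).re - s * ‖A x‖ + s ^ 2 / 2 * c)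
          ((g (NormedSpace.exp ((s : ℂ) • A) (A x))).re - 1 * ‖A x‖ + (2 * s / 2) * c) s := by
        intro s
        refine ((hd x s).sub ((hasDerivAt_id s).mul_const _)).add ?_
        have h1 := ((hasDerivAt_pow 2 s).div_const 2).mul_const c
        simpa using h1
      refine monotoneOn_of_deriv_nonneg (convex_Ici 0)
        (fun s _ => (hd1 s).continuousAt.continuousWithinAt)
        (fun s _ => (hd1 s).differentiableAt.differentiableWithinAt) (fun s hs => ?_)
      rw [(hd1 s).deriv]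
      have hs0 : 0 ≤ s := by
        have := interior_subset hs
        exact this
      have h1 := m1 (Set.mem_Ici.2 le_rfl) (Set.mem_Ici.2 hs0) hs0
      simp only [exp0, zero_mul, add_zero, hg.re_self] at h1
      linarith
    have h1 := m2 (Set.mem_Ici.2 le_rfl) (Set.mem_Ici.2 ht) ht
    simp only [exp0, zero_mul, sub_zero] at h1
    have h2 := hg.norm_le (NormedSpace.exp ((t : ℂ) • A) x)
    rw [hA.exp_norm] at h2
    have h3 := (abs_le.1 ((Complex.abs_re_le_norm _).trans h2)).2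
    have h4 := (abs_le.1 ((Complex.abs_re_le_norm _).trans (hg.norm_le x))).1
    have h5 : (0 : ℝ) ^ 2 / 2 * c = 0 := by ring
    rw [h5] at h1
    linarith
  have h1 : ∀ t : ℝ, 0 ≤ (c / 2) * (t * t) + (-‖A x‖) * t + 2 * ‖x‖ := by
    intro t
    rcases le_total 0 t with ht | ht
    · have := key t ht
      nlinarith
    · have h2 : 0 ≤ c := norm_nonneg _
      have h3 := norm_nonneg (A x)
      have h4 := norm_nonneg x
      have h5 : 0 ≤ (c / 2) * (t * t) := mul_nonneg (by linarith) (mul_self_nonneg t)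
      nlinarith [mul_nonneg h3 (neg_nonneg.2 ht)]
  have h2 := discrim_le_zero h1
  rw [discrim] at h2
  nlinarith

end Pool.Q193.HP
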