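import Mathlib
import Pool.Agent.Q193.HP.Sk

/-!
# Limits of sequences of operators along an ultrafilter
-/

set_option autoImplicit false

namespace Pool.Q193.HP

open Filter Topology

/-- a free ultrafilter -/
noncomputable def om : Filter ℕ := (hyperfilter ℕ : Filter ℕ)

instance : NeBot om := by
  unfold om
  infer_instance

theorem om_le : om ≤ atTop := Nat.hyperfilter_le_atTop

theorem ulim {u : ℕ → ℂ} {M : ℝ} (h : ∀ n, ‖u n‖ ≤ M) : ∃ z, Tendsto u om (𝓝 z) := by
  obtain ⟨z, _, hz⟩ := (isCompact_closedBall (0 : ℂ) M).ultrafilter_le_nhds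
    ((hyperfilter ℕ).map u) (by
      rw [le_principal_iff]
      exact Filter.mem_map.2 (Filter.univ_mem' fun n => by
        show u n ∈ Metric.closedBall (0 : ℂ) M
        rw [mem_closedBall_zero_iff]
        exact h n))
  exact ⟨z, hz⟩

section spaces

variable {E : Type*} [NormedAddCommGroup E] [NormedSpace ℂ E]

theorem eq_of_dual {x y : E} (h : ∀ f : E →L[ℂ] ℂ, f x = f y) : x = y := by
  obtain ⟨f, hf⟩ := exists_sp (x - y)
  have h1 := hf.2
  rw [map_sub, h f, sub_self] at h1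
  have h2 : ‖x - y‖ = 0 := by exact_mod_cast h1.symm
  exact sub_eq_zero.1 (norm_eq_zero.1 h2)

theorem norm_le_of_dual {z : E} {M : ℝ} (h : ∀ f : E →L[ℂ] ℂ, ‖f‖ ≤ 1 → ‖f z‖ ≤ M) : ‖z‖ ≤ M := by
  obtain ⟨f, hf⟩ := exists_sp z
  have h1 := h f hf.1
  rw [hf.2, Complex.norm_real, norm_norm] at h1
  exact h1

theorem fun_le {f : E →L[ℂ] ℂ} (hf : ‖f‖ ≤ 1) (x : E) : ‖f x‖ ≤ ‖x‖ := by
  have h1 := f.le_opNorm x
  have h2 := mul_le_mul_of_nonneg_right hf (norm_nonneg x)
  linarith

/-- bounded sequences have weak limits -/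
def WL (E : Type*) [NormedAddCommGroup E] [NormedSpace ℂ E] : Prop :=
  ∀ (x : ℕ → E) (M : ℝ), (∀ n, ‖x n‖ ≤ M) →
    ∃ z, ∀ f : E →L[ℂ] ℂ, Tendsto (fun n => f (x n)) om (𝓝 (f z))

theorem wl_of_reflexive
    (h : Function.Surjective (NormedSpace.inclusionInDoubleDual ℂ E)) : WL E := by
  intro x M hM
  have hM0 : 0 ≤ M := (norm_nonneg (x 0)).trans (hM 0)
  have h1 : ∀ f : E →L[ℂ] ℂ, ∃ z, Tendsto (fun n => f (x n)) om (𝓝 z) := by
    intro f
    refine ulim (M := ‖f‖ * M) (fun n => ?_)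
    refine (f.le_opNorm _).trans ?_
    have := hM n
    have := norm_nonneg f
    gcongr
  choose F hF using h1
  set L : (E →L[ℂ] ℂ) →L[ℂ] ℂ := LinearMap.mkContinuous
    { toFun := F
      map_add' := fun f g => by
        refine tendsto_nhds_unique (hF (f + g)) ?_
        exact (hF f).add (hF g)
      map_smul' := fun c f => by
        refine tendsto_nhds_unique (hF (c • f)) ?_
        exact (hF f).const_smul c } M (fun f => by
      refine le_of_tendsto (hF f).norm (Filter.Eventually.of_forall fun n => ?_)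
      refine (f.le_opNorm _).trans ?_
      rw [mul_comm]
      have := hM n
      have := norm_nonneg f
      gcongr) with hL
  obtain ⟨z, hz⟩ := h L
  refine ⟨z, fun f => ?_⟩
  have h2 : f z = F f := by
    have := congrArg (fun G : StrongDual ℂ (StrongDual ℂ E) => G f) hz
    exact this
  rw [h2]
  exact hF f

end spaces

section ops

variable {E F : Type*} [NormedAddCommGroup E] [NormedSpace ℂ E] [NormedAddCommGroup F]
  [NormedSpace ℂ F]

/-- weak convergence of operators -/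
def WLim (a : ℕ → (F →L[ℂ] E)) (b : F →L[ℂ] E) : Prop :=
  ∀ (y : F) (f : E →L[ℂ] ℂ), Tendsto (fun n => f (a n y)) om (𝓝 (f (b y)))

theorem exists_wlim (hE : WL E) (a : ℕ → (F →L[ℂ] E)) {M : ℝ} (h : ∀ n, ‖a n‖ ≤ M) :
    ∃ b : F →L[ℂ] E, WLim a b := by
  have hM0 : 0 ≤ M := (norm_nonneg (a 0)).trans (h 0)
  have hb : ∀ (n : ℕ) (y : F), ‖a n y‖ ≤ M * ‖y‖ := by
    intro n y
    refine ((a n).le_opNorm y).trans ?_
    have := h n
    have := norm_nonneg y
    gcongr
  have h1 : ∀ y : F, ∃ z, ∀ f : E →L[ℂ] ℂ, Tendsto (fun n => f (a n y)) om (𝓝 (f z)) :=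
    fun y => hE (fun n => a n y) (M * ‖y‖) (fun n => hb n y)
  choose z hz using h1
  refine ⟨LinearMap.mkContinuous
    { toFun := z
      map_add' := fun x y => by
        refine eq_of_dual fun f => ?_
        refine tendsto_nhds_unique (hz (x + y) f) ?_
        rw [map_add]
        refine ((hz x f).add (hz y f)).congr (fun n => ?_)
        rw [map_add, map_add]
      map_smul' := fun c x => by
        refine eq_of_dual fun f => ?_
        refine tendsto_nhds_unique (hz (c • x) f) ?_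
        rw [RingHom.id_apply, map_smul]
        refine ((hz x f).const_smul c).congr (fun n => ?_)
        rw [map_smul, map_smul] } M (fun y => ?_), fun y f => hz y f⟩
  refine norm_le_of_dual fun f hf => ?_
  refine le_of_tendsto (hz y f).norm (Filter.Eventually.of_forall fun n => ?_)
  exact (fun_le hf _).trans (hb n y)

theorem WLim.norm_le {a : ℕ → (F →L[ℂ] E)} {b : F →L[ℂ] E} (hab : WLim a b) {M : ℝ}
    (h : ∀ n, ‖a n‖ ≤ M) : ‖b‖ ≤ M := by
  have hM0 : 0 ≤ M := (norm_nonneg (a 0)).trans (h 0)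
  refine ContinuousLinearMap.opNorm_le_bound _ hM0 (fun y => ?_)
  refine norm_le_of_dual fun f hf => ?_
  refine le_of_tendsto (hab y f).norm (Filter.Eventually.of_forall fun n => ?_)
  refine (fun_le hf _).trans (((a n).le_opNorm y).trans ?_)
  have := h n
  have := norm_nonneg y
  gcongr

theorem WLim.of_tendsto {a : ℕ → (F →L[ℂ] E)} {b : F →L[ℂ] E} (h : Tendsto a atTop (𝓝 b)) :
    WLim a b := by
  intro y f
  have h1 : Tendsto (fun n => a n y) atTop (𝓝 (b y)) :=
    ((ContinuousLinearMap.apply ℂ E y).continuous.tendsto b).comp h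
  exact ((f.continuous.tendsto _).comp h1).mono_left om_le

theorem WLim.const (b : F →L[ℂ] E) : WLim (fun _ => b) b := fun _ _ => tendsto_const_nhds

theorem WLim.add {a a' : ℕ → (F →L[ℂ] E)} {b b' : F →L[ℂ] E} (h : WLim a b) (h' : WLim a' b') :
    WLim (fun n => a n + a' n) (b + b') := by
  intro y f
  rw [add_apply, map_add]
  refine ((h y f).add (h' y f)).congr (fun n => ?_)
  rw [add_apply, map_add]

theorem WLim.smul {a : ℕ → (F →L[ℂ] E)} {b : F →L[ℂ] E} (c : ℂ) (h : WLim a b) :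
    WLim (fun n => c • a n) (c • b) := by
  intro y f
  rw [smul_apply, map_smul]
  refine ((h y f).const_smul c).congr (fun n => ?_)
  rw [smul_apply, map_smul]

theorem WLim.neg {a : ℕ → (F →L[ℂ] E)} {b : F →L[ℂ] E} (h : WLim a b) :
    WLim (fun n => - a n) (- b) := by
  intro y f
  rw [neg_apply, map_neg]
  refine ((h y f).neg).congr (fun n => ?_)
  rw [neg_apply, map_neg]

variable {G : Type*} [NormedAddCommGroup G] [NormedSpace ℂ G]

theorem WLim.comp_left {a : ℕ → (F →L[ℂ] E)} {b : F →L[ℂ] E} (h : WLim a b) (c : E →L[ℂ] G) :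
    WLim (fun n => c.comp (a n)) (c.comp b) := fun y f => h y (f.comp c)

theorem WLim.comp_right {a : ℕ → (F →L[ℂ] E)} {b : F →L[ℂ] E} (h : WLim a b) (c : G →L[ℂ] F) :
    WLim (fun n => (a n).comp c) (b.comp c) := fun y f => h (c y) f

end ops

/-- attained maxima -/
theorem exists_max {α : Type*} {K : Set α} (hne : K.Nonempty) (φ : α → ℝ) {B : ℝ}
    (hB : ∀ v ∈ K, φ v ≤ B)
    (hcomp : ∀ w : ℕ → α, (∀ n, w n ∈ K) → ∃ z ∈ K, Tendsto (fun n => φ (w n)) om (𝓝 (φ z))) :
    ∃ z ∈ K, ∀ v ∈ K, φ v ≤ φ z := by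
  set s : ℝ := sSup (φ '' K) with hs
  have hbdd : BddAbove (φ '' K) := ⟨B, by rintro _ ⟨v, hv, rfl⟩; exact hB v hv⟩
  have hne' : (φ '' K).Nonempty := hne.image _
  have h1 : ∀ n : ℕ, ∃ w ∈ K, s - 1 / ((n : ℝ) + 1) < φ w := by
    intro n
    obtain ⟨_, ⟨w, hw, rfl⟩, h2⟩ := exists_lt_of_lt_csSup hne'
      (show s - 1 / ((n : ℝ) + 1) < sSup (φ '' K) by
        have : 0 < 1 / ((n : ℝ) + 1) := by positivity
        linarith)
    exact ⟨w, hw, h2⟩
  choose w hw hw2 using h1
  obtain ⟨z, hz, hlim⟩ := hcomp w hw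
  refine ⟨z, hz, fun v hv => ?_⟩
  have h3 : Tendsto (fun n : ℕ => s - 1 / ((n : ℝ) + 1)) om (𝓝 (s - 0)) :=
    (tendsto_const_nhds.sub tendsto_one_div_add_atTop_nhds_zero_nat).mono_left om_le
  rw [sub_zero] at h3
  have h4 : s ≤ φ z := le_of_tendsto_of_tendsto h3 hlim (Filter.Eventually.of_forall fun n =>
    (hw2 n).le)
  exact (le_csSup hbdd ⟨v, hv, rfl⟩).trans h4

/-- lexicographic maximisation: extreme points -/
theorem exists_lex {α : Type*} {K : Set α} (hne : K.Nonempty) (φ : ℕ → α → ℝ) (B : ℕ → ℝ)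
    (hB : ∀ n, ∀ v ∈ K, φ n v ≤ B n)
    (hcomp : ∀ w : ℕ → α, (∀ n, w n ∈ K) → ∃ z ∈ K, ∀ m, Tendsto (fun n => φ m (w n)) om
      (𝓝 (φ m z))) :
    ∃ z ∈ K, (∀ v ∈ K, φ 0 v ≤ φ 0 z) ∧
      ∀ v ∈ K, ∀ w ∈ K, (∀ n, 2 * φ n z = φ n v + φ n w) → ∀ n, φ n v = φ n w := by
  let F : ℕ → Set α := fun n => Nat.rec K (fun n S => {w | w ∈ S ∧ ∀ v ∈ S, φ n v ≤ φ n w}) n
  have hF0 : F 0 = K := rfl
  have hFs : ∀ n, F (n + 1) = {w | w ∈ F n ∧ ∀ v ∈ F n, φ n v ≤ φ n w} := fun n => rfl
  have hsub : ∀ n, F n ⊆ K := by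
    intro n
    induction n with
    | zero => exact subset_rfl
    | succ n ih =>
      rw [hFs]
      exact fun w hw => ih hw.1
  have hanti : ∀ m n, m ≤ n → F n ⊆ F m := by
    intro m n hmn
    induction hmn with
    | refl => exact subset_rfl
    | step h ih =>
      rw [Nat.succ_eq_add_one, hFs]
      exact fun w hw => ih hw.1
  have hcl : ∀ n, ∀ (w : ℕ → α) (z : α), (∀ᶠ k in om, w k ∈ F n) → z ∈ K →
      (∀ m, Tendsto (fun k => φ m (w k)) om (𝓝 (φ m z))) → z ∈ F n := by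
    intro n
    induction n with
    | zero =>
      intro w z _ hz _
      exact hz
    | succ n ih =>
      intro w z hw hz hlim
      rw [hFs]
      refine ⟨ih w z (hw.mono fun k hk => by rw [hFs] at hk; exact hk.1) hz hlim,
        fun v hv => ?_⟩
      refine ge_of_tendsto (hlim n) (hw.mono fun k hk => ?_)
      rw [hFs] at hk
      exact hk.2 v hv
  have hne' : ∀ n, (F n).Nonempty := by
    intro n
    induction n with
    | zero => exact hne
    | succ n ih =>
      obtain ⟨z, hz, h1⟩ := exists_max ih (φ n) (B := B n) (fun v hv => hB n v (hsub n hv))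
        (fun w hw => by
          obtain ⟨z, hz, hlim⟩ := hcomp w (fun k => hsub n (hw k))
          exact ⟨z, hcl n w z (Filter.Eventually.of_forall hw) hz hlim, hlim n⟩)
      exact ⟨z, by rw [hFs]; exact ⟨hz, h1⟩⟩
  choose w hw using hne'
  obtain ⟨z, hz, hlim⟩ := hcomp w (fun k => hsub k (hw k))
  have hzF : ∀ n, z ∈ F n := by
    intro n
    refine hcl n w z ?_ hz hlim
    exact (eventually_ge_atTop n).filter_mono om_le |>.mono fun k hk => hanti n k hk (hw k)
  refine ⟨z, hz, ?_, ?_⟩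
  · have := hzF (0 + 1)
    rw [hFs] at this
    exact this.2
  · intro v hv u hu h2
    have key : ∀ n, v ∈ F n ∧ u ∈ F n := by
      intro n
      induction n with
      | zero => exact ⟨hv, hu⟩
      | succ n ih =>
        have h3 := hzF (n + 1)
        rw [hFs] at h3
        have h4 := h3.2 v ih.1
        have h5 := h3.2 u ih.2
        have h6 := h2 n
        rw [hFs]
        refine ⟨⟨ih.1, fun y hy => ?_⟩, ⟨ih.2, fun y hy => ?_⟩⟩
        · have := h3.2 y hy
          linarith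
        · have := h3.2 y hy
          linarith
    intro n
    have h3 := key (n + 1)
    rw [hFs] at h3
    exact le_antisymm (h3.2.2 v h3.1.1) (h3.1.2 u h3.2.1)

end Pool.Q193.HP
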