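import Mathlib
import Pool.Agent.Q193.HP.Lim

/-!
# Pair structures: spaces of pairs `(a, a')` of operators `V → U`, `U → V`
-/

set_option autoImplicit false

namespace Pool.Q193.HP

open Filter Topology

variable {U V : Type*} [NormedAddCommGroup U] [NormedSpace ℂ U] [NormedAddCommGroup V]
  [NormedSpace ℂ V]

/-- pair structures -/
structure PS (W : (V →L[ℂ] U) → (U →L[ℂ] V) → Prop) : Prop where
  zero : W 0 0
  add : ∀ {a a' b b'}, W a a' → W b b' → W (a + b) (a' + b')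
  smul : ∀ (c : ℝ) {a a'}, W a a' → W ((c : ℂ) • a) ((c : ℂ) • a')
  J : ∀ {a a'}, W a a' → W (Complex.I • a) (-(Complex.I • a'))
  lim : ∀ (a : ℕ → (V →L[ℂ] U)) (a' : ℕ → (U →L[ℂ] V)) (M : ℝ) (b : V →L[ℂ] U) (b' : U →L[ℂ] V),
    (∀ n, W (a n) (a' n)) → (∀ n, ‖a n‖ ≤ M) → (∀ n, ‖a' n‖ ≤ M) → WLim a b → WLim a' b' → W b b'
  h1 : ∀ {a a' b b'}, W a a' → W b b' → ∀ {x : U} {f : U →L[ℂ] ℂ}, Sp x f →
    f (a (b' x)) = (starRingEnd ℂ) (f (b (a' x)))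
  h2 : ∀ {a a' b b'}, W a a' → W b b' → ∀ {y : V} {g : V →L[ℂ] ℂ}, Sp y g →
    g (a' (b y)) = (starRingEnd ℂ) (g (b' (a y)))
  p1 : ∀ {a a'}, W a a' → ∀ {x : U} {f : U →L[ℂ] ℂ}, Sp x f → 0 ≤ (f (a (a' x))).re
  p2 : ∀ {a a'}, W a a' → ∀ {y : V} {g : V →L[ℂ] ℂ}, Sp y g → 0 ≤ (g (a' (a y))).re
  l1 : ∀ {a a'}, W a a' → ∀ y : V, ‖a y‖ ^ 2 ≤ 4 * ‖y‖ * ‖a' (a y)‖
  l2 : ∀ {a a'}, W a a' → ∀ x : U, ‖a' x‖ ^ 2 ≤ 4 * ‖x‖ * ‖a (a' x)‖

variable {W : (V →L[ℂ] U) → (U →L[ℂ] V) → Prop}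

theorem PS.neg (h : PS W) {a a'} (ha : W a a') : W (-a) (-a') := by
  have := h.smul (-1) ha
  simpa using this

theorem PS.sub (h : PS W) {a a' b b'} (ha : W a a') (hb : W b b') : W (a - b) (a' - b') := by
  rw [sub_eq_add_neg, sub_eq_add_neg]
  exact h.add ha (h.neg hb)

theorem PS.swap (h : PS W) : PS (fun (a' : U →L[ℂ] V) (a : V →L[ℂ] U) => W a a') where
  zero := h.zero
  add := fun ha hb => h.add ha hb
  smul := fun c _ _ ha => h.smul c ha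
  J := fun ha => by
    have h1 := h.neg (h.J ha)
    rwa [neg_neg] at h1
  lim := fun a' a M b' b h1 h2 h3 h4 h5 => h.lim a a' M b b' h1 h3 h2 h5 h4
  h1 := fun ha hb _ _ hs => h.h2 ha hb hs
  h2 := fun ha hb _ _ hs => h.h1 ha hb hs
  p1 := fun ha _ _ hs => h.p2 ha hs
  p2 := fun ha _ _ hs => h.p1 ha hs
  l1 := fun ha y => h.l2 ha y
  l2 := fun ha x => h.l1 ha x

theorem PS.real1 (h : PS W) {a a'} (ha : W a a') {x : U} {f : U →L[ℂ] ℂ} (hs : Sp x f) :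
    (f (a (a' x))).im = 0 := Complex.conj_eq_iff_im.1 (h.h1 ha ha hs).symm

theorem PS.left_zero (h : PS W) {a} (ha : W a 0) : a = 0 := by
  ext y
  have h1 := h.l1 ha y
  rw [zero_apply, norm_zero, mul_zero] at h1
  have h2 : ‖a y‖ = 0 := by nlinarith [norm_nonneg (a y)]
  rw [norm_eq_zero.1 h2, zero_apply]

theorem PS.right_zero (h : PS W) {a'} (ha : W 0 a') : a' = 0 := h.swap.left_zero ha

/-- the numerical unit ball -/
def Kb (W : (V →L[ℂ] U) → (U →L[ℂ] V) → Prop) : Set ((V →L[ℂ] U) × (U →L[ℂ] V)) :=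
  {p | W p.1 p.2 ∧ ∀ (x : U) (f : U →L[ℂ] ℂ), Sp x f → (f (p.1 (p.2 x))).re ≤ ‖x‖}

theorem PS.kb_bound [CompleteSpace U] (h : PS W) {p} (hp : p ∈ Kb W) :
    ‖p.1‖ ≤ 16 ∧ ‖p.2‖ ≤ 16 := by
  obtain ⟨hW, hn⟩ := hp
  have h0 : ‖p.1.comp p.2‖ ≤ Real.exp 1 * 1 := by
    refine norm_le_num one_pos (fun x f hf => ?_)
    have h1 := h.real1 hW hf
    have h2 := h.p1 hW hf
    have h3 := hn x f hf
    rw [ContinuousLinearMap.comp_apply, one_mul]
    have h4 : f (p.1 (p.2 x)) = (((f (p.1 (p.2 x))).re : ℝ) : ℂ) :=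
      Complex.ext (by simp) (by simp [h1])
    rw [h4, Complex.norm_real, Real.norm_of_nonneg h2]
    exact h3
  have he : Real.exp 1 * 1 ≤ 3 := by
    have := Real.exp_one_lt_d9
    linarith
  have h2 : ∀ x, ‖p.2 x‖ ≤ 4 * ‖x‖ := by
    intro x
    have h3 := h.l2 hW x
    have h4 := (p.1.comp p.2).le_opNorm x
    rw [ContinuousLinearMap.comp_apply] at h4
    have h5 : ‖p.1 (p.2 x)‖ ≤ 3 * ‖x‖ := by
      refine h4.trans ?_
      have := norm_nonneg x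
      gcongr
      linarith
    have h6 := norm_nonneg x
    have h7 : ‖p.2 x‖ ^ 2 ≤ (4 * ‖x‖) ^ 2 := by nlinarith
    exact abs_le_of_sq_le_sq' h7 (by positivity) |>.2
  have h1 : ∀ y, ‖p.1 y‖ ≤ 16 * ‖y‖ := by
    intro y
    have h3 := h.l1 hW y
    have h4 := h2 (p.1 y)
    have h5 := norm_nonneg y
    have h6 := norm_nonneg (p.1 y)
    rcases h6.eq_or_lt with h7 | h7
    · rw [← h7]; positivity
    · have h8 : ‖p.1 y‖ * ‖p.1 y‖ ≤ (16 * ‖y‖) * ‖p.1 y‖ := by nlinarith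
      exact le_of_mul_le_mul_right h8 h7
  constructor
  · exact ContinuousLinearMap.opNorm_le_bound _ (by norm_num) h1
  · refine ContinuousLinearMap.opNorm_le_bound _ (by norm_num) (fun x => (h2 x).trans ?_)
    have := norm_nonneg x
    linarith

/-- weak lower semicontinuity -/
theorem PS.lsc (h : PS W) {a : ℕ → (V →L[ℂ] U)} {a' : ℕ → (U →L[ℂ] V)} {b b'} (hb : W b b')
    (ha : ∀ n, W (a n) (a' n)) (h1 : WLim a b) (h2 : WLim a' b') {x : U} {f : U →L[ℂ] ℂ}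
    (hf : Sp x f) {c : ℝ} (hc : ∀ n, (f (a n (a' n x))).re ≤ c) : (f (b (b' x))).re ≤ c := by
  have h3 : ∀ n, 2 * (f (b (a' n x))).re ≤ (f (b (b' x))).re + c := by
    intro n
    have h4 := h.p1 (h.sub hb (ha n)) hf
    have h5 := h.h1 (ha n) hb hf
    have e1 : f ((b - a n) ((b' - a' n) x)) =
        f (b (b' x)) - f (b (a' n x)) - f (a n (b' x)) + f (a n (a' n x)) := by
      rw [sub_apply, sub_apply, map_sub, map_sub, map_sub, map_sub, map_sub]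
      ring
    rw [e1, h5] at h4
    have h6 := hc n
    simp only [Complex.add_re, Complex.sub_re, Complex.conj_re] at h4
    linarith
  have h4 : Tendsto (fun n => 2 * (f (b (a' n x))).re) om (𝓝 (2 * (f (b (b' x))).re)) :=
    ((Complex.continuous_re.tendsto _).comp (h2 x (f.comp b))).const_mul 2
  have h5 := le_of_tendsto h4 (Filter.Eventually.of_forall h3)
  linarith

theorem PS.kb_compact [CompleteSpace U] (h : PS W) (hU : WL U) (hV : WL V)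
    (w : ℕ → (V →L[ℂ] U) × (U →L[ℂ] V)) (hw : ∀ n, w n ∈ Kb W) :
    ∃ z ∈ Kb W, WLim (fun n => (w n).1) z.1 ∧ WLim (fun n => (w n).2) z.2 := by
  obtain ⟨b, hb⟩ := exists_wlim hU (fun n => (w n).1) (fun n => (h.kb_bound (hw n)).1)
  obtain ⟨b', hb'⟩ := exists_wlim hV (fun n => (w n).2) (fun n => (h.kb_bound (hw n)).2)
  have hW : W b b' := h.lim _ _ 16 b b' (fun n => (hw n).1) (fun n => (h.kb_bound (hw n)).1)
    (fun n => (h.kb_bound (hw n)).2) hb hb'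
  exact ⟨(b, b'), ⟨hW, fun x f hf => h.lsc hW (fun n => (hw n).1) hb hb' hf
    (fun n => (hw n).2 x f hf)⟩, hb, hb'⟩

/-- scaling into the ball -/
theorem PS.kb_scale (h : PS W) {a a'} (ha : W a a') :
    ∃ t : ℝ, 0 < t ∧ ((t : ℂ) • a, (t : ℂ) • a') ∈ Kb W := by
  set M : ℝ := ‖a‖ * ‖a'‖ + 1 with hM
  have hM1 : 1 ≤ M := by
    have := mul_nonneg (norm_nonneg a) (norm_nonneg a')
    linarith
  have hM0 : 0 < M := by linarith
  refine ⟨M⁻¹, by positivity, h.smul _ ha, fun x f hf => ?_⟩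
  show (f ((((M⁻¹ : ℝ) : ℂ) • a) ((((M⁻¹ : ℝ) : ℂ) • a') x))).re ≤ ‖x‖
  rw [smul_apply, smul_apply, map_smul a, map_smul, map_smul, smul_eq_mul, smul_eq_mul,
    Complex.re_ofReal_mul, Complex.re_ofReal_mul]
  have h1 : (f (a (a' x))).re ≤ M * ‖x‖ := by
    refine (hf.re_le _).trans ((a.le_opNorm _).trans ?_)
    have h2 := a'.le_opNorm x
    have h3 := norm_nonneg x
    have h4 : ‖a‖ * ‖a' x‖ ≤ ‖a‖ * (‖a'‖ * ‖x‖) := by gcongr
    nlinarith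
  have h2 : 0 ≤ M⁻¹ := by positivity
  have h3 : M⁻¹ ≤ 1 := inv_le_one_of_one_le₀ hM1
  have h4 : M⁻¹ * (f (a (a' x))).re ≤ ‖x‖ := by
    rw [inv_mul_le_iff₀ hM0]
    exact h1
  have h5 := h.p1 ha hf
  have h6 : 0 ≤ M⁻¹ * (f (a (a' x))).re := by positivity
  nlinarith

end Pool.Q193.HP
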