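import Mathlib
import Pool.Agent.Q193.HP.PS

/-!
# Ternary systems and their algebras
-/

set_option autoImplicit false

namespace Pool.Q193.HP

open Filter Topology Polynomial

section lamk

variable {E : Type*} [NormedAddCommGroup E] [NormedSpace ℂ E]

/-- the functional `p ↦ Re k (p(T) z)` -/
noncomputable def lamk (T : E →L[ℂ] E) (k : E →L[ℂ] ℂ) (z : E) : ℝ[X] →ₗ[ℝ] ℝ where
  toFun p := (k (pv T p z)).re
  map_add' p q := by rw [pv_add, add_apply, map_add, Complex.add_re]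
  map_smul' c p := by
    rw [pv_smul, smul_apply, map_smul, smul_eq_mul, Complex.re_ofReal_mul, RingHom.id_apply,
      smul_eq_mul]

theorem lamk_apply (T : E →L[ℂ] E) (k : E →L[ℂ] ℂ) (z : E) (p : ℝ[X]) :
    lamk T k z p = (k (pv T p z)).re := rfl

theorem lamk_bound (T : E →L[ℂ] E) (k : E →L[ℂ] ℂ) (z : E) (p : ℝ[X]) :
    |lamk T k z p| ≤ ‖k‖ * ‖z‖ * ‖pv T p‖ := by
  rw [lamk_apply]
  refine (Complex.abs_re_le_norm _).trans ((k.le_opNorm _).trans ?_)
  have h1 := (pv T p).le_opNorm z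
  have h2 := norm_nonneg k
  have h3 : ‖k‖ * ‖pv T p z‖ ≤ ‖k‖ * (‖pv T p‖ * ‖z‖) := by gcongr
  nlinarith

theorem pv_mul_apply (T : E →L[ℂ] E) (p q : ℝ[X]) (z : E) :
    pv T (p * q) z = pv T p (pv T q z) := by
  rw [pv_mul]; rfl

end lamk

variable {U V : Type*} [NormedAddCommGroup U] [NormedSpace ℂ U] [NormedAddCommGroup V]
  [NormedSpace ℂ V]

/-- ternary systems -/
structure TS (W : (V →L[ℂ] U) → (U →L[ℂ] V) → Prop) : Prop extends PS W where
  tri : ∀ {a a' b b' d d'}, W a a' → W b b' → W d d' →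
    W (a.comp (b'.comp d)) (d'.comp (b.comp a'))
  i1 : ∀ y : V, y ≠ 0 → ∀ (x : U) (δ : ℝ), 0 < δ → ∃ a a', W a a' ∧ ‖a y - x‖ ≤ δ
  i2 : ∀ x : U, x ≠ 0 → ∀ (y : V) (δ : ℝ), 0 < δ → ∃ a a', W a a' ∧ ‖a' x - y‖ ≤ δ

variable {W : (V →L[ℂ] U) → (U →L[ℂ] V) → Prop}

theorem TS.swap (h : TS W) : TS (fun (a' : U →L[ℂ] V) (a : V →L[ℂ] U) => W a a') :=
  { h.toPS.swap with
    tri := fun ha hb hd => h.tri hd hb ha
    i1 := fun x hx y δ hδ => by
      obtain ⟨a, a', h1, h2⟩ := h.i2 x hx y δ hδ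
      exact ⟨a', a, h1, h2⟩
    i2 := fun y hy x δ hδ => by
      obtain ⟨a, a', h1, h2⟩ := h.i1 y hy x δ hδ
      exact ⟨a', a, h1, h2⟩ }

/-- the algebra of a ternary system (pairs of an operator and its adjoint) -/
inductive Cl (W : (V →L[ℂ] U) → (U →L[ℂ] V) → Prop) : (U →L[ℂ] U) → (U →L[ℂ] U) → Prop
  | gen {a a' b b'} : W a a' → W b b' → Cl W (a.comp b') (b.comp a')
  | one : Cl W 1 1
  | add {m m' n n'} : Cl W m m' → Cl W n n' → Cl W (m + n) (m' + n')
  | smul (c : ℝ) {m m'} : Cl W m m' → Cl W ((c : ℂ) • m) ((c : ℂ) • m')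
  | J {m m'} : Cl W m m' → Cl W (Complex.I • m) (-(Complex.I • m'))
  | lim (m m' : ℕ → (U →L[ℂ] U)) (M : ℝ) (b b' : U →L[ℂ] U) : (∀ n, Cl W (m n) (m' n)) →
      (∀ n, ‖m n‖ ≤ M) → (∀ n, ‖m' n‖ ≤ M) → WLim m b → WLim m' b' → Cl W b b'

theorem Cl.neg {m m'} (h : Cl W m m') : Cl W (-m) (-m') := by
  have := h.smul (-1)
  simpa using this

theorem Cl.sub {m m' n n'} (h : Cl W m m') (h' : Cl W n n') : Cl W (m - n) (m' - n') := by
  rw [sub_eq_add_neg, sub_eq_add_neg]
  exact h.add h'.neg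

theorem Cl.zero : Cl W 0 0 := by
  have := (Cl.one (W := W)).smul 0
  simpa using this

theorem Cl.star {m m'} (h : Cl W m m') : Cl W m' m := by
  induction h with
  | gen ha hb => exact Cl.gen hb ha
  | one => exact Cl.one
  | add _ _ h1 h2 => exact h1.add h2
  | smul c _ h1 => exact h1.smul c
  | J _ h1 =>
    have h2 := h1.J.neg
    rwa [neg_neg] at h2
  | lim m m' M b b' _ hM hM' hb hb' h1 => exact Cl.lim m' m M b' b h1 hM' hM hb' hb

theorem Cl.herm (hW : PS W) {m m'} (h : Cl W m m') {x : U} {f : U →L[ℂ] ℂ} (hf : Sp x f) :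
    f (m x) = (starRingEnd ℂ) (f (m' x)) := by
  induction h with
  | gen ha hb => exact hW.h1 ha hb hf
  | one =>
    show f x = (starRingEnd ℂ) (f x)
    rw [hf.2, Complex.conj_ofReal]
  | add _ _ h1 h2 => rw [add_apply, add_apply, map_add, map_add, map_add, h1, h2]
  | smul c _ h1 =>
    rw [smul_apply, smul_apply, map_smul, map_smul, smul_eq_mul, smul_eq_mul, map_mul, h1,
      Complex.conj_ofReal]
  | J _ h1 =>
    rw [neg_apply, smul_apply, smul_apply, map_smul, map_neg, map_smul, smul_eq_mul, smul_eq_mul,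
      map_neg, map_mul, h1, Complex.conj_I]
    ring
  | lim m m' M b b' _ hM hM' hb hb' h1 =>
    refine tendsto_nhds_unique (hb x f) ?_
    refine ((Complex.continuous_conj.tendsto _).comp (hb' x f)).congr (fun n => ?_)
    exact (h1 n).symm

theorem Cl.mulW (hW : TS W) {m m'} (h : Cl W m m') {a a'} (ha : W a a') :
    W (m.comp a) (a'.comp m') := by
  induction h with
  | gen hb hd => exact hW.tri hb hd ha
  | one => exact ha
  | add _ _ h1 h2 =>
    rw [ContinuousLinearMap.add_comp, ContinuousLinearMap.comp_add]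
    exact hW.add h1 h2
  | smul c _ h1 =>
    rw [ContinuousLinearMap.smul_comp, ContinuousLinearMap.comp_smul]
    exact hW.smul c h1
  | J _ h1 =>
    rw [ContinuousLinearMap.smul_comp, ContinuousLinearMap.comp_neg, ContinuousLinearMap.comp_smul]
    exact hW.J h1
  | lim m m' M b b' _ hM hM' hb hb' h1 =>
    refine hW.lim (fun n => (m n).comp a) (fun n => a'.comp (m' n)) (M * ‖a‖ + ‖a'‖ * M) _ _ h1
      (fun n => ?_) (fun n => ?_) (hb.comp_right a) (hb'.comp_left a')
    · have h2 := (m n).opNorm_comp_le a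
      have h3 := hM n
      have h4 := norm_nonneg a
      have h5 := norm_nonneg (m n)
      have h6 := norm_nonneg a'
      nlinarith
    · have h2 := a'.opNorm_comp_le (m' n)
      have h3 := hM' n
      have h4 := norm_nonneg a
      have h5 := norm_nonneg (m' n)
      have h6 := norm_nonneg a'
      nlinarith

theorem Cl.mul (hW : TS W) {m m'} (h : Cl W m m') {n n'} (hn : Cl W n n') :
    Cl W (m * n) (n' * m') := by
  induction h with
  | gen ha hb =>
    have h1 := (hn.star).mulW hW hb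
    exact Cl.gen ha h1
  | one => rw [one_mul, mul_one]; exact hn
  | add _ _ h1 h2 => rw [add_mul, mul_add]; exact h1.add h2
  | smul c _ h1 => rw [smul_mul_assoc, mul_smul_comm]; exact h1.smul c
  | J _ h1 => rw [smul_mul_assoc, mul_neg, mul_smul_comm]; exact h1.J
  | lim m m' M b b' _ hM hM' hb hb' h1 =>
    refine Cl.lim (fun k => m k * n) (fun k => n' * m' k) (M * ‖n‖ + ‖n'‖ * M) _ _ h1
      (fun k => ?_) (fun k => ?_) (hb.comp_right n) (hb'.comp_left n')
    · have h2 := norm_mul_le (m k) n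
      have h3 := hM k
      have h4 := norm_nonneg n
      have h5 := norm_nonneg (m k)
      have h6 := norm_nonneg n'
      nlinarith
    · have h2 := norm_mul_le n' (m' k)
      have h3 := hM' k
      have h4 := norm_nonneg n
      have h5 := norm_nonneg (m' k)
      have h6 := norm_nonneg n'
      nlinarith

theorem Cl.pow (hW : TS W) {m m'} (h : Cl W m m') (k : ℕ) : Cl W (m ^ k) (m' ^ k) := by
  induction k with
  | zero => rw [pow_zero, pow_zero]; exact Cl.one
  | succ k ih =>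
    rw [pow_succ, pow_succ']
    exact ih.mul hW h

theorem Cl.norm_lim {m m' : ℕ → (U →L[ℂ] U)} {b b' : U →L[ℂ] U} (h : ∀ n, Cl W (m n) (m' n))
    (hb : Tendsto m atTop (𝓝 b)) (hb' : Tendsto m' atTop (𝓝 b')) : Cl W b b' := by
  obtain ⟨M, hM⟩ := hb.norm.bddAbove_range
  obtain ⟨M', hM'⟩ := hb'.norm.bddAbove_range
  exact Cl.lim m m' (max M M') b b' h
    (fun n => (hM ⟨n, rfl⟩).trans (le_max_left _ _))
    (fun n => (hM' ⟨n, rfl⟩).trans (le_max_right _ _)) (WLim.of_tendsto hb) (WLim.of_tendsto hb')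

theorem Cl.exp [CompleteSpace U] (hW : TS W) {m m'} (h : Cl W m m') :
    Cl W (NormedSpace.exp m) (NormedSpace.exp m') := by
  have h1 : ∀ m : U →L[ℂ] U, Tendsto (fun n : ℕ => ∑ k ∈ Finset.range n,
      (((Nat.factorial k : ℝ)⁻¹ : ℝ) : ℂ) • m ^ k) atTop (𝓝 (NormedSpace.exp m)) := by
    intro m
    have h2 := (NormedSpace.exp_series_hasSum_exp' (𝕂 := ℂ) m).tendsto_sum_nat
    refine h2.congr (fun n => Finset.sum_congr rfl fun k _ => ?_)
    push_cast
    rfl
  refine Cl.norm_lim (fun n => ?_) (h1 m) (h1 m')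
  induction n with
  | zero => simpa using Cl.zero
  | succ n ih =>
    rw [Finset.sum_range_succ, Finset.sum_range_succ]
    exact ih.add ((h.pow hW n).smul _)

theorem Cl.pv (hW : TS W) {T : U →L[ℂ] U} (h : Cl W T T) (p : ℝ[X]) :
    Cl W (Pool.Q193.HP.pv T p) (Pool.Q193.HP.pv T p) := by
  induction p using Polynomial.induction_on' with
  | add p q hp hq => rw [pv_add]; exact hp.add hq
  | monomial n a =>
    rw [← C_mul_X_pow_eq_monomial, pv_mul, pv_pow, pv_X, pv_C, smul_mul_assoc, one_mul]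
    exact (h.pow hW n).smul a

theorem Cl.hm (hW : PS W) {T : U →L[ℂ] U} (h : Cl W T T) : Hm T := fun _ _ hf =>
  Complex.conj_eq_iff_im.1 (h.herm hW hf).symm

theorem Cl.hmP (hW : TS W) {T : U →L[ℂ] U} (h : Cl W T T) : HmP T := fun n =>
  (h.pow hW n).hm hW.toPS

theorem TS.clT (_ : TS W) {a a'} (ha : W a a') : Cl W (a.comp a') (a.comp a') := Cl.gen ha ha

end Pool.Q193.HP
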