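import Mathlib
import Pool.Agent.Q193.HP.TS

/-!
# Positivity in the algebra of a ternary system
-/

set_option autoImplicit false

namespace Pool.Q193.HP

open Filter Topology Polynomial

variable {U V : Type*} [NormedAddCommGroup U] [NormedSpace ℂ U] [NormedAddCommGroup V]
  [NormedSpace ℂ V]

theorem pow_inter (a : V →L[ℂ] U) (a' : U →L[ℂ] V) (n : ℕ) (y : V) :
    ((a.comp a') ^ n) (a y) = a (((a'.comp a) ^ n) y) := by
  induction n with
  | zero => simp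
  | succ n ih =>
    rw [pow_succ', pow_succ']
    show (a.comp a') (((a.comp a') ^ n) (a y)) = _
    rw [ih]
    rfl

theorem pv_inter (a : V →L[ℂ] U) (a' : U →L[ℂ] V) (p : ℝ[X]) (y : V) :
    pv (a.comp a') p (a y) = a (pv (a'.comp a) p y) := by
  induction p using Polynomial.induction_on' with
  | add p q hp hq => rw [pv_add, pv_add, add_apply, add_apply, map_add, hp, hq]
  | monomial n c =>
    rw [← C_mul_X_pow_eq_monomial, pv_mul, pv_pow, pv_X, pv_C, pv_mul, pv_pow, pv_X, pv_C,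
      smul_mul_assoc, one_mul, smul_mul_assoc, one_mul, smul_apply, smul_apply, map_smul,
      pow_inter]

/-- the polynomial `1 - t / R` -/
noncomputable def xR (R : ℝ) : ℝ[X] := 1 - C R⁻¹ * X

theorem xR_eval (R t : ℝ) : (xR R).eval t = 1 - R⁻¹ * t := by
  simp [xR]

theorem xR_mem {R t : ℝ} (hR : 0 < R) (h0 : 0 ≤ t) (h1 : t ≤ R) :
    0 ≤ (xR R).eval t ∧ (xR R).eval t ≤ 1 := by
  rw [xR_eval]
  have h2 : 0 ≤ R⁻¹ * t := by positivity
  have h3 : R⁻¹ * t ≤ 1 := by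
    rw [inv_mul_le_iff₀ hR, mul_one]
    exact h1
  constructor <;> linarith

theorem xR_geom (R : ℝ) (n : ℕ) :
    X * (C R⁻¹ * ∑ i ∈ Finset.range n, xR R ^ i) = 1 - xR R ^ n := by
  have h1 := mul_neg_geom_sum (xR R) n
  rw [← h1, xR]
  ring

theorem xR_bound {R t : ℝ} (hR : 0 < R) (h0 : 0 ≤ t) (h1 : t ≤ R) (N : ℕ) :
    t * (xR R).eval t ^ N ≤ R / (N + 1) := by
  set u : ℝ := (xR R).eval t with hu
  obtain ⟨hu0, hu1⟩ := xR_mem hR h0 h1
  have e1 : t = R * (1 - u) := by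
    rw [hu, xR_eval]
    field_simp
    ring
  have h2 : (1 - u) * ((N + 1 : ℕ) • u ^ N) ≤ 1 := by
    have h3 : (N + 1 : ℕ) • u ^ N ≤ ∑ i ∈ Finset.range (N + 1), u ^ i := by
      have h4 : ∑ _i ∈ Finset.range (N + 1), u ^ N ≤ ∑ i ∈ Finset.range (N + 1), u ^ i := by
        refine Finset.sum_le_sum fun i hi => ?_
        exact pow_le_pow_of_le_one hu0 hu1 (Nat.lt_succ_iff.1 (Finset.mem_range.1 hi))
      rwa [Finset.sum_const, Finset.card_range] at h4
    have h4 : 0 ≤ 1 - u := by linarith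
    have h5 := mul_le_mul_of_nonneg_left h3 h4
    have h6 := mul_neg_geom_sum u (N + 1)
    rw [h6] at h5
    have h7 : 0 ≤ u ^ (N + 1) := by positivity
    linarith
  rw [nsmul_eq_mul] at h2
  push_cast at h2
  have hN : (0 : ℝ) < (N : ℝ) + 1 := by positivity
  rw [le_div_iff₀ hN]
  calc t * u ^ N * ((N : ℝ) + 1) = R * ((1 - u) * (((N : ℝ) + 1) * u ^ N)) := by rw [e1]; ring
    _ ≤ R * 1 := by gcongr
    _ = R := mul_one R

variable {W : (V →L[ℂ] U) → (U →L[ℂ] V) → Prop}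

theorem exp_le_three : Real.exp 1 ≤ 3 := by
  have := Real.exp_one_lt_d9
  linarith

theorem PS.num_T (hW : PS W) {a a'} (ha : W a a') {R : ℝ} (hR : ‖a‖ * ‖a'‖ ≤ R) {x : U}
    {f : U →L[ℂ] ℂ} (hf : Sp x f) :
    0 * ‖x‖ ≤ (f ((a.comp a') x)).re ∧ (f ((a.comp a') x)).re ≤ R * ‖x‖ := by
  refine ⟨by rw [zero_mul]; exact hW.p1 ha hf, ?_⟩
  refine (hf.re_le _).trans (((a.comp a').le_opNorm x).trans ?_)
  have h1 := a.opNorm_comp_le a'
  have h2 := norm_nonneg x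
  have h3 : ‖a.comp a'‖ ≤ R := h1.trans hR
  gcongr

/-- vectors in the range of `a` are killed by powers of `1 - T / R` -/
theorem TS.decay [CompleteSpace U] [CompleteSpace V] [Nontrivial V] (hW : TS W) {a a'}
    (ha : W a a') {R : ℝ} (hR0 : 0 < R) (hR : ‖a‖ * ‖a'‖ ≤ R) (y : V) {δ : ℝ} (hδ : 0 < δ) :
    ∃ n : ℕ, ‖pv (a.comp a') (xR R ^ n) (a y)‖ ≤ δ := by
  set T : U →L[ℂ] U := a.comp a' with hT
  set S : V →L[ℂ] V := a'.comp a with hS
  have hclT : Cl W T T := hW.clT ha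
  have hS1 : HmP S := Cl.hmP hW.swap (hW.swap.clT ha)
  have hSn : ∀ (y : V) (g : V →L[ℂ] ℂ), Sp y g → 0 * ‖y‖ ≤ (g (S y)).re ∧ (g (S y)).re ≤ R * ‖y‖ :=
    fun y g hg => hW.toPS.swap.num_T ha (by rw [mul_comm]; exact hR) hg
  have key : ∀ n : ℕ, ‖pv T (xR R ^ n) (a y)‖ ^ 2 ≤ 12 * R * ‖y‖ ^ 2 / (2 * (n : ℝ) + 1) := by
    intro n
    have hWn := (hclT.pv hW (xR R ^ n)).mulW hW ha
    have h1 := hW.l1 hWn y
    have e1 : (a'.comp (pv T (xR R ^ n))) (((pv T (xR R ^ n)).comp a) y) =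
        pv S (X * xR R ^ (2 * n)) y := by
      show a' (pv T (xR R ^ n) (pv T (xR R ^ n) (a y))) = _
      rw [← pv_mul_apply, ← pow_add, ← two_mul, pv_inter, pv_mul_apply, pv_X]
      rfl
    rw [e1] at h1
    have h2 : ‖pv S (X * xR R ^ (2 * n))‖ ≤ Real.exp 1 * (R / (((2 * n : ℕ) : ℝ) + 1)) := by
      refine hS1.norm_pv_le hSn (by positivity) (fun t h0 h1 => ?_)
      rw [eval_mul, eval_X, eval_pow, abs_of_nonneg]
      · exact xR_bound hR0 h0 h1 (2 * n)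
      · have := (xR_mem hR0 h0 h1).1
        positivity
    have h3 := (pv S (X * xR R ^ (2 * n))).le_opNorm y
    have h4 := norm_nonneg y
    have h5 : ‖pv S (X * xR R ^ (2 * n)) y‖ ≤ 3 * (R / (2 * (n : ℝ) + 1)) * ‖y‖ := by
      refine h3.trans ?_
      push_cast at h2
      have h6 : 0 ≤ R / (2 * (n : ℝ) + 1) := by positivity
      have h7 := mul_le_mul_of_nonneg_right exp_le_three h6
      gcongr
      linarith
    have h6 : (pv T (xR R ^ n)).comp a y = pv T (xR R ^ n) (a y) := rfl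
    rw [h6] at h1
    have h7 : 4 * ‖y‖ * ‖pv S (X * xR R ^ (2 * n)) y‖ ≤
        4 * ‖y‖ * (3 * (R / (2 * (n : ℝ) + 1)) * ‖y‖) := by gcongr
    have h8 : 4 * ‖y‖ * (3 * (R / (2 * (n : ℝ) + 1)) * ‖y‖) =
        12 * R * ‖y‖ ^ 2 / (2 * (n : ℝ) + 1) := by ring
    linarith
  obtain ⟨n, hn⟩ := exists_nat_gt (12 * R * ‖y‖ ^ 2 / δ ^ 2)
  refine ⟨n, ?_⟩
  have h1 := key n
  have h2 : 12 * R * ‖y‖ ^ 2 / (2 * (n : ℝ) + 1) ≤ δ ^ 2 := by
    rw [div_le_iff₀ (by positivity)]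
    rw [div_lt_iff₀ (by positivity)] at hn
    have h3 : (n : ℝ) * δ ^ 2 ≤ δ ^ 2 * (2 * n + 1) := by
      have h4 : 0 < δ ^ 2 := by positivity
      have h5 : (0 : ℝ) ≤ n := Nat.cast_nonneg n
      nlinarith
    linarith
  exact abs_le_of_sq_le_sq' (h1.trans h2) hδ.le |>.2

/-- positivity of `m m'` -/
theorem TS.P1 [CompleteSpace U] [CompleteSpace V] [Nontrivial U] [Nontrivial V] (hW : TS W)
    {m m'} (h : Cl W m m') {x : U} {f : U →L[ℂ] ℂ} (hf : Sp x f) : 0 ≤ (f (m (m' x))).re := by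
  by_contra hneg
  push Not at hneg
  set z : U := m' x with hz
  set c : ℝ := -(f (m z)).re with hc
  have hc0 : 0 < c := by linarith
  set δ : ℝ := c / (4 * ‖m‖ + 1) with hδ
  have hm0 := norm_nonneg m
  have hδ0 : 0 < δ := by positivity
  obtain ⟨y, hy⟩ := exists_ne (0 : V)
  obtain ⟨a, a', ha, hay⟩ := hW.i1 y hy z δ hδ0
  set R : ℝ := ‖a‖ * ‖a'‖ + 1 with hR
  have hR0 : 0 < R := by positivity
  have hRa : ‖a‖ * ‖a'‖ ≤ R := by linarith
  obtain ⟨n, hn⟩ := hW.decay ha hR0 hRa y hδ0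
  set T : U →L[ℂ] U := a.comp a' with hT
  have hclT : Cl W T T := hW.clT ha
  have hTP : HmP T := hclT.hmP hW
  have hTn : ∀ (x : U) (f : U →L[ℂ] ℂ), Sp x f → 0 * ‖x‖ ≤ (f (T x)).re ∧ (f (T x)).re ≤ R * ‖x‖ :=
    fun x f hf => hW.toPS.num_T ha hRa hf
  -- the functional
  have h1 := kap T (fun z hz => spec_num (by simpa using hTP 1) hTn hz)
    (lamk T ((f.comp m).comp T) z)
    (fun q => by
      rw [lamk_apply]
      have e1 : ((f.comp m).comp T) (pv T (q * q) z) = f (m (pv T q (a (a' (pv T q (m' x)))))) := by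
        show f (m (T (pv T (q * q) z))) = _
        congr 2
        have e2 : T (pv T (q * q) z) = pv T (X * (q * q)) z := by
          rw [pv_mul_apply T X, pv_X]
        have e3 : (X * (q * q) : ℝ[X]) = q * (X * q) := by ring
        rw [e2, e3, pv_mul_apply, pv_mul_apply, pv_X]
        rfl
      rw [e1]
      have h2 : W ((m * pv T q).comp a) (a'.comp (pv T q * m')) :=
        (h.mul hW (hclT.pv hW q)).mulW hW ha
      exact hW.p1 h2 hf) _ (lamk_bound _ _ _)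
    (C R⁻¹ * ∑ i ∈ Finset.range n, xR R ^ i) (fun t h0 h1 => by
      rw [eval_mul, eval_C, eval_finsetSum]
      have h2 := (xR_mem hR0 h0 h1).1
      refine mul_nonneg (by positivity) (Finset.sum_nonneg fun i _ => ?_)
      rw [eval_pow]
      positivity)
  rw [lamk_apply] at h1
  have e1 : ((f.comp m).comp T) (pv T (C R⁻¹ * ∑ i ∈ Finset.range n, xR R ^ i) z) =
      f (m z) - f (m (pv T (xR R ^ n) z)) := by
    show f (m (T _)) = _
    have e2 : T (pv T (C R⁻¹ * ∑ i ∈ Finset.range n, xR R ^ i) z) =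
        z - pv T (xR R ^ n) z := by
      have e3 : T (pv T (C R⁻¹ * ∑ i ∈ Finset.range n, xR R ^ i) z) =
          pv T (X * (C R⁻¹ * ∑ i ∈ Finset.range n, xR R ^ i)) z := by
        rw [pv_mul_apply T X, pv_X]
      rw [e3, xR_geom, pv_sub, pv_one]
      rfl
    rw [e2, map_sub, map_sub]
  rw [e1, Complex.sub_re] at h1
  have h2 : ‖pv T (xR R ^ n)‖ ≤ Real.exp 1 * 1 := by
    refine hTP.norm_pv_le hTn one_pos (fun t h0 h1 => ?_)
    obtain ⟨h3, h4⟩ := xR_mem hR0 h0 h1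
    rw [eval_pow, abs_of_nonneg (by positivity)]
    exact pow_le_one₀ h3 h4
  have h3 : ‖pv T (xR R ^ n) z‖ ≤ 4 * δ := by
    have e2 : pv T (xR R ^ n) z = pv T (xR R ^ n) (a y) - pv T (xR R ^ n) (a y - z) := by
      rw [map_sub]; abel
    rw [e2]
    refine (norm_sub_le _ _).trans ?_
    have h4 := (pv T (xR R ^ n)).le_opNorm (a y - z)
    have h5 : ‖pv T (xR R ^ n)‖ * ‖a y - z‖ ≤ 3 * δ := by
      have := exp_le_three
      have := norm_nonneg (a y - z)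
      gcongr
      linarith
    linarith
  have h4 : |(f (m (pv T (xR R ^ n) z))).re| ≤ ‖m‖ * (4 * δ) := by
    refine (Complex.abs_re_le_norm _).trans ((hf.norm_le _).trans ((m.le_opNorm _).trans ?_))
    gcongr
  have h5 := (abs_le.1 h4).1
  have h6 : (4 * ‖m‖ + 1) * δ = c := by
    rw [hδ]; field_simp
  nlinarith

/-- functional calculus between `m` and `m'` -/
theorem TS.kapA [CompleteSpace U] [CompleteSpace V] [Nontrivial U] [Nontrivial V] (hW : TS W)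
    {m m'} (h : Cl W m m') {T : U →L[ℂ] U} (hT : Cl W T T) {α β : ℝ}
    (hn : ∀ (x : U) (f : U →L[ℂ] ℂ), Sp x f → α * ‖x‖ ≤ (f (T x)).re ∧ (f (T x)).re ≤ β * ‖x‖)
    (r : ℝ[X]) (hr : ∀ t : ℝ, α ≤ t → t ≤ β → 0 ≤ r.eval t) {x : U} {f : U →L[ℂ] ℂ}
    (hf : Sp x f) : 0 ≤ (f (m (pv T r (m' x)))).re := by
  have h1 := kap T (fun z hz => spec_num (hT.hm hW.toPS) hn hz) (lamk T (f.comp m) (m' x))
    (fun q => by
      rw [lamk_apply, pv_mul_apply]
      exact hW.P1 (h.mul hW (hT.pv hW q)) hf) _ (lamk_bound _ _ _) r hr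
  exact h1

end Pool.Q193.HP
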