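import Mathlib
import Pool.Agent.Q193.HP.Pp

/-!
# Definiteness of hermitian vector functionals
-/

set_option autoImplicit false

namespace Pool.Q193.HP

open Filter Topology Polynomial

section conj

variable {E : Type*} [NormedAddCommGroup E] [NormedSpace ℂ E]

theorem conj_deriv [CompleteSpace E] (A B : E →L[ℂ] E) (L : (E →L[ℂ] E) →L[ℝ] ℝ) :
    HasDerivAt (fun s : ℝ => L (NormedSpace.exp ((s : ℂ) • A) * B *
      NormedSpace.exp (((-s : ℝ) : ℂ) • A))) (L (A * B - B * A)) 0 := by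
  have h3 : HasDerivAt (fun s : ℝ => (s : ℂ)) 1 0 := Complex.ofRealCLM.hasDerivAt (x := 0)
  have h3' : HasDerivAt (fun s : ℝ => ((-s : ℝ) : ℂ)) (-1) 0 := by
    have := h3.neg
    refine this.congr_of_eventuallyEq (Filter.Eventually.of_forall fun s => ?_)
    simp
  have h1 : HasDerivAt (fun s : ℝ => NormedSpace.exp ((s : ℂ) • A)) A 0 := by
    have h2 := hasDerivAt_exp_smul_const (𝕂 := ℂ) A (0 : ℂ)
    rw [zero_smul, NormedSpace.exp_zero, one_mul] at h2
    have h4 := HasDerivAt.scomp (0 : ℝ) (g₁ := fun u : ℂ => NormedSpace.exp (u • A))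
      (by simpa using h2) h3
    rwa [one_smul] at h4
  have h1' : HasDerivAt (fun s : ℝ => NormedSpace.exp (((-s : ℝ) : ℂ) • A)) (-A) 0 := by
    have h2 := hasDerivAt_exp_smul_const (𝕂 := ℂ) A (0 : ℂ)
    rw [zero_smul, NormedSpace.exp_zero, one_mul] at h2
    have h4 := HasDerivAt.scomp (0 : ℝ) (g₁ := fun u : ℂ => NormedSpace.exp (u • A))
      (by simpa using h2) h3'
    rwa [neg_one_smul] at h4
  have h5 := (h1.mul_const B).mul h1'
  have h8 := L.hasFDerivAt.comp_hasDerivAt (0 : ℝ) h5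
  have e0 : NormedSpace.exp (((-0 : ℝ) : ℂ) • A) = 1 := by
    rw [neg_zero, Complex.ofReal_zero, zero_smul, NormedSpace.exp_zero]
  have e0' : NormedSpace.exp (((0 : ℝ) : ℂ) • A) = 1 := by
    rw [Complex.ofReal_zero, zero_smul, NormedSpace.exp_zero]
  rw [e0, e0', mul_one, one_mul, mul_neg, ← sub_eq_add_neg] at h8
  exact h8

end conj

variable {U V : Type*} [NormedAddCommGroup U] [NormedSpace ℂ U] [NormedAddCommGroup V]
  [NormedSpace ℂ V] {W : (V →L[ℂ] U) → (U →L[ℂ] V) → Prop}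

theorem TS.ex2 [Nontrivial V] (hW : TS W) {z : U} (hz : z ≠ 0) : ∃ b b', W b b' ∧ b' z ≠ 0 := by
  obtain ⟨y, hy⟩ := exists_ne (0 : V)
  have hy0 : 0 < ‖y‖ := norm_pos_iff.2 hy
  obtain ⟨b, b', hb, h1⟩ := hW.i2 z hz y (‖y‖ / 2) (by positivity)
  refine ⟨b, b', hb, fun h0 => ?_⟩
  rw [h0, zero_sub, norm_neg] at h1
  linarith

theorem dense_zero {k : U →L[ℂ] ℂ} (h : ∀ (u : U) (δ : ℝ), 0 < δ → ∃ v, k v = 0 ∧ ‖v - u‖ ≤ δ) :
    k = 0 := by
  ext u
  rw [zero_apply]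
  by_contra hne
  have h1 : 0 < ‖k u‖ := norm_pos_iff.2 hne
  obtain ⟨v, hv, h2⟩ := h u (‖k u‖ / (2 * (‖k‖ + 1))) (by positivity)
  have h3 : ‖k (v - u)‖ ≤ ‖k‖ * ‖v - u‖ := k.le_opNorm _
  rw [map_sub, hv, zero_sub, norm_neg] at h3
  have h4 : ‖k‖ * ‖v - u‖ ≤ (‖k‖ + 1) * (‖k u‖ / (2 * (‖k‖ + 1))) := by
    have := norm_nonneg k
    have := norm_nonneg (v - u)
    gcongr
    linarith
  have h5 : (‖k‖ + 1) * (‖k u‖ / (2 * (‖k‖ + 1))) = ‖k u‖ / 2 := by
    have : 0 < ‖k‖ + 1 := by positivity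
    field_simp
  linarith

theorem TS.kill0 [Nontrivial V] (hW : TS W) {k : U →L[ℂ] ℂ} {z : U}
    (h : ∀ {a a' b b'}, W a a' → W b b' → k (a (b' z)) = 0) : k = 0 ∨ z = 0 := by
  by_cases hz : z = 0
  · exact Or.inr hz
  left
  obtain ⟨b, b', hb, hbz⟩ := hW.ex2 hz
  refine dense_zero fun u δ hδ => ?_
  obtain ⟨a, a', ha, h1⟩ := hW.i1 (b' z) hbz u δ hδ
  exact ⟨a (b' z), h ha hb, h1⟩

theorem TS.kill [Nontrivial V] (hW : TS W) {k : U →L[ℂ] ℂ} {z : U}
    (hh : ∀ {a a' b b'}, W a a' → W b b' → k (a (b' z)) = (starRingEnd ℂ) (k (b (a' z))))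
    (h0 : ∀ {a a'}, W a a' → (k (a (a' z))).re = 0) : k = 0 ∨ z = 0 := by
  have key : ∀ {a a' b b'}, W a a' → W b b' → (k (a (b' z))).re = 0 := by
    intro a a' b b' ha hb
    have h1 := h0 (hW.add ha hb)
    have h2 := h0 ha
    have h3 := h0 hb
    have h4 := congrArg Complex.re (hh ha hb)
    rw [Complex.conj_re] at h4
    have e1 : k ((a + b) ((a' + b') z)) = k (a (a' z)) + k (a (b' z)) + k (b (a' z)) +
        k (b (b' z)) := by
      rw [add_apply, add_apply, map_add, map_add, map_add, map_add, map_add]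
      ring
    rw [e1] at h1
    simp only [Complex.add_re] at h1
    linarith
  refine hW.kill0 (fun {a a' b b'} ha hb => ?_)
  have h1 := key ha hb
  have h2 := key (hW.J ha) hb
  rw [smul_apply, map_smul, smul_eq_mul] at h2
  refine Complex.ext h1 ?_
  simpa using h2

/-- the hermitian operators between `0` and `1` -/
def Kh (W : (V →L[ℂ] U) → (U →L[ℂ] V) → Prop) : Set (U →L[ℂ] U) :=
  {s | Cl W s s ∧ ∀ (x : U) (f : U →L[ℂ] ℂ), Sp x f → 0 ≤ (f (s x)).re ∧ (f (s x)).re ≤ ‖x‖}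

theorem kh_norm [CompleteSpace U] (hW : TS W) {s : U →L[ℂ] U} (hs : s ∈ Kh W) : ‖s‖ ≤ 3 := by
  refine (norm_le_num one_pos (fun x f hf => ?_)).trans ((mul_one _).le.trans exp_le_three)
  have h1 := hs.1.hm hW.toPS x f hf
  have h2 := hs.2 x f hf
  have h3 : f (s x) = (((f (s x)).re : ℝ) : ℂ) := Complex.ext (by simp) (by simp [h1])
  rw [h3, Complex.norm_real, Real.norm_of_nonneg h2.1, one_mul]
  exact h2.2

theorem kh_max [CompleteSpace U] (hW : TS W) (hU : WL U) (h : U →L[ℂ] ℂ) (x : U) :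
    ∃ s ∈ Kh W, ∀ v ∈ Kh W, (h (v x)).re ≤ (h (s x)).re := by
  refine exists_max (K := Kh W) ⟨0, Cl.zero, fun x f _ => ?_⟩ (fun s => (h (s x)).re)
    (B := ‖h‖ * (3 * ‖x‖)) (fun v hv => ?_) (fun w hw => ?_)
  · rw [zero_apply, map_zero, Complex.zero_re]
    exact ⟨le_rfl, norm_nonneg x⟩
  · refine (Complex.re_le_norm _).trans ((h.le_opNorm _).trans ?_)
    have h1 := v.le_opNorm x
    have h2 := kh_norm hW hv
    have h3 := norm_nonneg h
    have h4 := norm_nonneg x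
    have h5 : ‖v‖ * ‖x‖ ≤ 3 * ‖x‖ := by gcongr
    gcongr
    linarith
  · obtain ⟨b, hb⟩ := exists_wlim hU w (fun n => kh_norm hW (hw n))
    refine ⟨b, ⟨Cl.lim w w 3 b b (fun n => (hw n).1) (fun n => kh_norm hW (hw n))
      (fun n => kh_norm hW (hw n)) hb hb, fun y f hf => ?_⟩,
      (Complex.continuous_re.tendsto _).comp (hb x h)⟩
    have h1 := (Complex.continuous_re.tendsto _).comp (hb y f)
    exact ⟨ge_of_tendsto h1 (Filter.Eventually.of_forall fun n => ((hw n).2 y f hf).1),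
      le_of_tendsto h1 (Filter.Eventually.of_forall fun n => ((hw n).2 y f hf).2)⟩

variable [CompleteSpace U]

omit [CompleteSpace U] in
theorem Cl.skew (hW : PS W) {m m'} (h : Cl W m m') : SkC (m - m') := by
  intro x f hf
  have h1 := h.herm hW hf
  rw [sub_apply, map_sub, h1, Complex.sub_re, Complex.conj_re, sub_self]

theorem Cl.exp_skew (hW : TS W) {m m'} (h : Cl W m m') (t : ℝ) :
    Cl W (NormedSpace.exp ((t : ℂ) • (m - m'))) (NormedSpace.exp (((-t : ℝ) : ℂ) • (m - m'))) := by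
  have h1 : Cl W ((t : ℂ) • (m - m')) ((t : ℂ) • (m' - m)) := (h.sub h.star).smul t
  have h2 := h1.exp hW
  have e1 : (t : ℂ) • (m' - m) = ((-t : ℝ) : ℂ) • (m - m') := by
    rw [← neg_sub, smul_neg, Complex.ofReal_neg, neg_smul]
  rwa [e1] at h2

theorem kh_conj (hW : TS W) {s : U →L[ℂ] U} (hs : s ∈ Kh W) {m m'} (h : Cl W m m') (t : ℝ) :
    NormedSpace.exp ((t : ℂ) • (m - m')) * s * NormedSpace.exp (((-t : ℝ) : ℂ) • (m - m')) ∈
      Kh W := by
  have h1 := h.exp_skew hW t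
  have h2 := h.exp_skew hW (-t)
  rw [neg_neg] at h2
  refine ⟨?_, fun x f hf => ?_⟩
  · have h3 := (h1.mul hW hs.1).mul hW h2
    rw [← mul_assoc] at h3
    exact h3
  · have hsk := h.skew hW.toPS
    have h3 : Sp (NormedSpace.exp (((-t : ℝ) : ℂ) • (m - m')) x)
        (f.comp (NormedSpace.exp ((t : ℂ) • (m - m')))) :=
      hf.comp_isom _ _ (fun y => (hsk.exp_norm t y).le) (hsk.exp_norm (-t) x)
        (exp_neg_apply' _ _ _)
    have h4 := hs.2 _ _ h3
    rw [hsk.exp_norm (-t) x] at h4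
    exact h4

theorem kh_pert [CompleteSpace V] [Nontrivial U] [Nontrivial V] (hW : TS W) {s : U →L[ℂ] U}
    (hs : s ∈ Kh W) {a a'} (ha : W a a') (q : ℝ[X]) {β : ℝ} (hβ : ‖a‖ * ‖a'‖ ≤ β)
    {x : U} {f : U →L[ℂ] ℂ} (hf : Sp x f) :
    0 ≤ (f (pv s q (a (a' (pv s q x))))).re ∧
      (f (pv s q (a (a' (pv s q x))))).re ≤ β * (f (pv s (q * q) x)).re := by
  have hq := hs.1.pv hW q
  constructor
  · have h1 := hq.mulW hW ha
    exact hW.p1 h1 hf
  · have h1 := hW.kapA hq (hW.clT ha) (fun x f hf => hW.toPS.num_T ha hβ hf) (C β - X)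
      (fun t _ h2 => by rw [eval_sub, eval_C, eval_X]; linarith) hf
    rw [pv_sub, pv_C, pv_X, sub_apply, map_sub, map_sub, smul_apply, one_apply_eq_self, map_smul, map_smul,
      smul_eq_mul, Complex.sub_re, Complex.re_ofReal_mul, ← pv_mul_apply] at h1
    have e1 : (a.comp a') (pv s q x) = a (a' (pv s q x)) := rfl
    rw [e1] at h1
    linarith

end Pool.Q193.HP
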