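import Mathlib
import Pool.Agent.Q193.HP.Def

/-!
# Definiteness of hermitian vector functionals, main theorem
-/

set_option autoImplicit false

namespace Pool.Q193.HP

open Filter Topology Polynomial

variable {U V : Type*} [NormedAddCommGroup U] [NormedSpace ℂ U] [NormedAddCommGroup V]
  [NormedSpace ℂ V] {W : (V →L[ℂ] U) → (U →L[ℂ] V) → Prop} [CompleteSpace U]

theorem TS.max_comm (hW : TS W) {h : U →L[ℂ] ℂ} {x : U} {s : U →L[ℂ] U} (hs : s ∈ Kh W)
    (hmax : ∀ v ∈ Kh W, (h (v x)).re ≤ (h (s x)).re)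
    (hh : ∀ {m m'}, Cl W m m' → h (m x) = (starRingEnd ℂ) (h (m' x)))
    {m m'} (hm : Cl W m m') : h (m (s x)) = h (s (m x)) := by
  have key : ∀ {m m'}, Cl W m m' → (h (m (s x)) - h (s (m x))).re = 0 := by
    intro m m' hm
    set L : (U →L[ℂ] U) →L[ℝ] ℝ :=
      Complex.reCLM.comp ((h.comp (ContinuousLinearMap.apply ℂ U x)).restrictScalars ℝ) with hL
    have hLa : ∀ S : U →L[ℂ] U, L S = (h (S x)).re := fun S => rfl
    have h1 := conj_deriv (m - m') s L
    have h5 : IsLocalMax (fun t : ℝ => L (NormedSpace.exp ((t : ℂ) • (m - m')) * s *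
        NormedSpace.exp (((-t : ℝ) : ℂ) • (m - m')))) 0 := by
      refine Filter.Eventually.of_forall (fun t => ?_)
      show L _ ≤ L _
      have h6 := hmax _ (kh_conj hW hs hm t)
      have e0 : NormedSpace.exp (((-0 : ℝ) : ℂ) • (m - m')) = 1 := by
        rw [neg_zero, Complex.ofReal_zero, zero_smul, NormedSpace.exp_zero]
      have e0' : NormedSpace.exp (((0 : ℝ) : ℂ) • (m - m')) = 1 := by
        rw [Complex.ofReal_zero, zero_smul, NormedSpace.exp_zero]
      rw [e0, e0', one_mul, mul_one]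
      exact h6
    have h6 := h5.hasDerivAt_eq_zero h1
    rw [hLa] at h6
    have e1 : ((m - m') * s - s * (m - m')) x = m (s x) - m' (s x) - (s (m x) - s (m' x)) := by
      show (m - m') (s x) - s ((m - m') x) = _
      rw [sub_apply, sub_apply, map_sub]
    have e2 : h (m' (s x)) = (starRingEnd ℂ) (h (s (m x))) := hh (hm.star.mul hW hs.1)
    have e3 : h (s (m' x)) = (starRingEnd ℂ) (h (m (s x))) := hh (hs.1.mul hW hm.star)
    rw [e1, map_sub, map_sub, map_sub, e2, e3] at h6
    simp only [Complex.sub_re, Complex.conj_re] at h6 ⊢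
    linarith
  have h1 := key hm
  have h2 := key hm.J
  rw [smul_apply, smul_apply, map_smul, map_smul, map_smul, ← smul_sub, smul_eq_mul] at h2
  have h3 : h (m (s x)) - h (s (m x)) = 0 := by
    refine Complex.ext h1 ?_
    simp only [Complex.mul_re, Complex.I_re, Complex.I_im, zero_mul, one_mul, zero_sub,
      neg_eq_zero] at h2
    rw [h2, Complex.zero_im]
  exact sub_eq_zero.1 h3

theorem TS.max_poly (hW : TS W) {h : U →L[ℂ] ℂ} {x : U} {s : U →L[ℂ] U} (hs : s ∈ Kh W)
    (hmax : ∀ v ∈ Kh W, (h (v x)).re ≤ (h (s x)).re)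
    (hh : ∀ {m m'}, Cl W m m' → h (m x) = (starRingEnd ℂ) (h (m' x)))
    {m m'} (hm : Cl W m m') (q : ℝ[X]) : h (pv s q (m x)) = h (m (pv s q x)) := by
  have hpow : ∀ (k : ℕ) {m m'}, Cl W m m' → h ((s ^ k) (m x)) = h (m ((s ^ k) x)) := by
    intro k
    induction k with
    | zero => intro m m' _; simp
    | succ k ih =>
      intro m m' hm
      have h1 := hW.max_comm hs hmax hh ((hs.1.pow hW k).mul hW hm)
      have h2 := ih (hm.mul hW hs.1)
      have e1 : h ((s ^ (k + 1)) (m x)) = h (s ((s ^ k * m) x)) := by rw [pow_succ']; rfl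
      have e2 : h ((s ^ k * m) (s x)) = h ((s ^ k) ((m * s) x)) := rfl
      have e3 : h ((m * s) ((s ^ k) x)) = h (m ((s ^ (k + 1)) x)) := by rw [pow_succ']; rfl
      rw [e1, ← h1, e2, h2, e3]
  induction q using Polynomial.induction_on' with
  | add p q hp hq => rw [pv_add, add_apply, add_apply, map_add, map_add, map_add, hp, hq]
  | monomial n c =>
    rw [← C_mul_X_pow_eq_monomial, pv_mul, pv_pow, pv_X, pv_C, smul_mul_assoc, one_mul,
      smul_apply, smul_apply, map_smul, map_smul, map_smul, hpow n hm]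

omit [CompleteSpace U] in
theorem kh_hmP (hW : TS W) {s : U →L[ℂ] U} (hs : s ∈ Kh W) : HmP s := hs.1.hmP hW

variable [CompleteSpace V] [Nontrivial U] [Nontrivial V]

theorem TS.max_up (hW : TS W) {h : U →L[ℂ] ℂ} {x : U} {s : U →L[ℂ] U} (hs : s ∈ Kh W)
    (hmax : ∀ v ∈ Kh W, (h (v x)).re ≤ (h (s x)).re) (q : ℝ[X])
    (hq : ∀ t : ℝ, 0 ≤ t → t ≤ 1 → q.eval t ^ 2 ≤ 1 - t) {a a'} (ha : W a a') :
    (h (pv s q (a (a' (pv s q x))))).re ≤ 0 := by
  set β : ℝ := ‖a‖ * ‖a'‖ + 1 with hβ
  have hβ0 : 0 < β := by positivity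
  set ε : ℝ := β⁻¹ with hε
  have hε0 : 0 < ε := by positivity
  set v : U →L[ℂ] U := s + (ε : ℂ) • (pv s q * (a.comp a') * pv s q) with hv
  have hva : ∀ (y : U) (k : U →L[ℂ] ℂ), (k (v y)).re =
      (k (s y)).re + ε * (k (pv s q (a (a' (pv s q y))))).re := by
    intro y k
    rw [hv, add_apply, map_add, smul_apply, map_smul, smul_eq_mul, Complex.add_re,
      Complex.re_ofReal_mul]
    rfl
  have hvK : v ∈ Kh W := by
    refine ⟨?_, fun y f hf => ?_⟩
    · have h1 := hs.1.pv hW q
      have h2 := (h1.mul hW (hW.clT ha)).mul hW h1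
      rw [← mul_assoc] at h2
      exact hs.1.add (h2.smul ε)
    · obtain ⟨h1, h2⟩ := kh_pert hW hs ha q (show ‖a‖ * ‖a'‖ ≤ β by linarith) hf
      have h3 := (hs.2 y f hf).1
      rw [hva]
      refine ⟨by positivity, ?_⟩
      have h4 := (kh_hmP hW hs).nonneg (α := 0) (β := 1) (fun y f hf => by
        rw [zero_mul, one_mul]; exact hs.2 y f hf) (1 - X - q * q) (fun t ht0 ht1 => by
        rw [eval_sub, eval_sub, eval_one, eval_X, eval_mul]
        have := hq t ht0 ht1
        nlinarith) hf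
      rw [pv_sub, pv_sub, pv_one, pv_X, sub_apply, sub_apply, map_sub, map_sub, Complex.sub_re,
        Complex.sub_re, one_apply_eq_self, hf.re_self] at h4
      have h5 : ε * (f (pv s q (a (a' (pv s q y))))).re ≤ (f (pv s (q * q) y)).re := by
        rw [hε, inv_mul_le_iff₀ hβ0]
        exact h2
      linarith
  have h1 := hmax v hvK
  rw [hva] at h1
  have h2 : ε * (h (pv s q (a (a' (pv s q x))))).re ≤ 0 := by linarith
  by_contra hcon
  push Not at hcon
  have := mul_pos hε0 hcon
  linarith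

theorem TS.max_down (hW : TS W) {h : U →L[ℂ] ℂ} {x : U} {s : U →L[ℂ] U} (hs : s ∈ Kh W)
    (hmax : ∀ v ∈ Kh W, (h (v x)).re ≤ (h (s x)).re) (q : ℝ[X])
    (hq : ∀ t : ℝ, 0 ≤ t → t ≤ 1 → q.eval t ^ 2 ≤ t) {a a'} (ha : W a a') :
    0 ≤ (h (pv s q (a (a' (pv s q x))))).re := by
  set β : ℝ := ‖a‖ * ‖a'‖ + 1 with hβ
  have hβ0 : 0 < β := by positivity
  set ε : ℝ := β⁻¹ with hε
  have hε0 : 0 < ε := by positivity
  set v : U →L[ℂ] U := s - (ε : ℂ) • (pv s q * (a.comp a') * pv s q) with hv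
  have hva : ∀ (y : U) (k : U →L[ℂ] ℂ), (k (v y)).re =
      (k (s y)).re - ε * (k (pv s q (a (a' (pv s q y))))).re := by
    intro y k
    rw [hv, sub_apply, map_sub, smul_apply, map_smul, smul_eq_mul, Complex.sub_re,
      Complex.re_ofReal_mul]
    rfl
  have hvK : v ∈ Kh W := by
    refine ⟨?_, fun y f hf => ?_⟩
    · have h1 := hs.1.pv hW q
      have h2 := (h1.mul hW (hW.clT ha)).mul hW h1
      rw [← mul_assoc] at h2
      exact hs.1.sub (h2.smul ε)
    · obtain ⟨h1, h2⟩ := kh_pert hW hs ha q (show ‖a‖ * ‖a'‖ ≤ β by linarith) hf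
      have h3 := (hs.2 y f hf).2
      rw [hva]
      have h6 : 0 ≤ ε * (f (pv s q (a (a' (pv s q y))))).re := by positivity
      refine ⟨?_, by linarith⟩
      have h4 := (kh_hmP hW hs).nonneg (α := 0) (β := 1) (fun y f hf => by
        rw [zero_mul, one_mul]; exact hs.2 y f hf) (X - q * q) (fun t ht0 ht1 => by
        rw [eval_sub, eval_X, eval_mul]
        have := hq t ht0 ht1
        nlinarith) hf
      rw [pv_sub, pv_X, sub_apply, map_sub, Complex.sub_re] at h4
      have h5 : ε * (f (pv s q (a (a' (pv s q y))))).re ≤ (f (pv s (q * q) y)).re := by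
        rw [hε, inv_mul_le_iff₀ hβ0]
        exact h2
      linarith
  have h1 := hmax v hvK
  rw [hva] at h1
  by_contra hcon
  push Not at hcon
  have := mul_pos hε0 (neg_pos.2 hcon)
  linarith

/-- a hermitian functional `b ↦ h (b x)` is definite -/
theorem TS.definite (hW : TS W) (hU : WL U) (h : U →L[ℂ] ℂ) (x : U)
    (hh : ∀ {m m'}, Cl W m m' → h (m x) = (starRingEnd ℂ) (h (m' x))) :
    (∀ a a', W a a' → 0 ≤ (h (a (a' x))).re) ∨ (∀ a a', W a a' → (h (a (a' x))).re ≤ 0) := by
  by_cases hh0 : h = 0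
  · left
    intro a a' _
    rw [hh0, zero_apply, Complex.zero_re]
  obtain ⟨s, hs, hmax⟩ := kh_max hW hU h x
  have hcomm : ∀ {m m'}, Cl W m m' → h (m (s x)) = h (s (m x)) := fun hm =>
    hW.max_comm hs hmax hh hm
  have hpoly : ∀ {m m'}, Cl W m m' → ∀ q : ℝ[X], h (pv s q (m x)) = h (m (pv s q x)) :=
    fun hm q => hW.max_poly hs hmax hh hm q
  -- moving the polynomial to the right
  have hmove : ∀ {a a' b b'}, W a a' → W b b' → ∀ q : ℝ[X],
      h (pv s q (a (b' (pv s q x)))) = h (a (b' (pv s (q * q) x))) := by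
    intro a a' b b' ha hb q
    have h1 := hpoly ((Cl.gen ha hb).mul hW (hs.1.pv hW q)) q
    rw [pv_mul_apply]
    exact h1
  -- `s (1 - s) x = 0`
  set r : ℝ[X] := X * (1 - X) with hr
  have hr0 : pv s (r * r) x = 0 := by
    have h1 := hW.kill (k := h) (z := pv s (r * r) x) (fun {a a' b b'} ha hb => by
      rw [← hmove ha hb, ← hmove hb ha]
      exact hh (((hs.1.pv hW r).mul hW (Cl.gen ha hb)).mul hW (hs.1.pv hW r)))
      (fun {a a'} ha => by
        rw [← hmove ha ha]
        refine le_antisymm (hW.max_up hs hmax r (fun t h0 h1 => ?_) ha)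
          (hW.max_down hs hmax r (fun t h0 h1 => ?_) ha)
        · rw [hr, eval_mul, eval_sub, eval_X, eval_one]
          have h2 : 0 ≤ 1 - t := by linarith
          have h3 : t ^ 2 * (1 - t) ≤ 1 := by nlinarith [mul_nonneg h0 h2, mul_nonneg h0 h0]
          nlinarith [mul_nonneg h2 (sub_nonneg.2 h3)]
        · rw [hr, eval_mul, eval_sub, eval_X, eval_one]
          have h2 : 0 ≤ 1 - t := by linarith
          have h3 : t * (1 - t) ^ 2 ≤ 1 := by nlinarith [mul_nonneg h0 h2, mul_nonneg h2 h2]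
          nlinarith [mul_nonneg h0 (sub_nonneg.2 h3)])
    rcases h1 with h1 | h1
    · exact absurd h1 hh0
    · exact h1
  have hr1 : pv s r x = 0 := by
    have h1 : Hm (pv s r) := (kh_hmP hW hs).hm_pv r
    have h2 := h1.sk.landau x
    have h3 : (Complex.I • pv s r) ((Complex.I • pv s r) x) = 0 := by
      rw [smul_apply, smul_apply, map_smul, smul_smul, ← pv_mul_apply, hr0, smul_zero]
    rw [h3, norm_zero, mul_zero, smul_apply, norm_smul, Complex.norm_I, one_mul] at h2
    have h4 : ‖pv s r x‖ = 0 := by nlinarith [norm_nonneg (pv s r x)]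
    exact norm_eq_zero.1 h4
  have hss : s (s x) = s x := by
    have h1 : pv s r x = s x - s (s x) := by
      rw [hr, pv_mul_apply, pv_X, pv_sub, pv_one, pv_X, sub_apply, map_sub]
      rfl
    rw [h1] at hr1
    exact (sub_eq_zero.1 hr1).symm
  have hq1 : pv s (X * X) x = s x := by
    rw [pv_mul_apply, pv_X]; exact hss
  have hq0 : pv s ((1 - X) * (1 - X)) x = x - s x := by
    rw [pv_mul_apply, pv_sub, pv_one, pv_X]
    show (x - s x) - s (x - s x) = _
    rw [map_sub, hss, sub_self, sub_zero]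
  have hpos : ∀ a a', W a a' → 0 ≤ (h (a (a' (s x)))).re := by
    intro a a' ha
    have h1 := hW.max_down hs hmax X (fun t h0 h1 => by rw [eval_X]; nlinarith) ha
    rwa [hmove ha ha, hq1] at h1
  have hnegv : ∀ a a', W a a' → (h (a (a' (x - s x)))).re ≤ 0 := by
    intro a a' ha
    have h1 := hW.max_up hs hmax (1 - X) (fun t h0 h1 => by
      rw [eval_sub, eval_one, eval_X]; nlinarith) ha
    rwa [hmove ha ha, hq0] at h1
  -- the alternative
  have h1 := hW.kill0 (k := h.comp s) (z := x - s x) (fun {a a' b b'} ha hb => by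
    have h2 := hcomm ((Cl.gen ha hb).mul hW (Cl.one.sub hs.1))
    have e1 : ((a.comp b') * (1 - s)) (s x) = 0 := by
      show a (b' (s x - s (s x))) = 0
      rw [hss, sub_self, map_zero, map_zero]
    rw [e1, map_zero] at h2
    exact h2.symm)
  rcases h1 with h1 | h1
  · right
    have h2 := hW.kill0 (k := h) (z := s x) (fun {a a' b b'} ha hb => by
      have h3 := hcomm (Cl.gen ha hb)
      have h4 : h (s ((a.comp b') x)) = (h.comp s) ((a.comp b') x) := rfl
      rw [h4, h1, zero_apply] at h3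
      exact h3)
    rcases h2 with h2 | h2
    · exact absurd h2 hh0
    · intro a a' ha
      have := hnegv a a' ha
      rwa [h2, sub_zero] at this
  · left
    intro a a' ha
    have := hpos a a' ha
    rwa [← sub_eq_zero.1 h1] at this

end Pool.Q193.HP
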