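import Mathlib
import Pool.Agent.Q193.HP.Def2

/-!
# Uniqueness of hermitian functionals and rotations in a ternary system
-/

set_option autoImplicit false

namespace Pool.Q193.HP

open Filter Topology Polynomial

theorem prop_aux {ι : Type*} (φ ψ : ι → ℝ)
    (hdef : ∀ l : ℝ, (∀ i, 0 ≤ φ i - l * ψ i) ∨ (∀ i, φ i - l * ψ i ≤ 0)) (hψ : ∀ i, 0 ≤ ψ i)
    {i₀ : ι} (h0 : 0 < ψ i₀) : ∃ l : ℝ, ∀ i, φ i = l * ψ i := by
  set l₀ : ℝ := φ i₀ / ψ i₀ with hl
  have hl0 : φ i₀ = l₀ * ψ i₀ := by rw [hl]; field_simp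
  have h1 : ∀ l, l < l₀ → ∀ i, l * ψ i ≤ φ i := by
    intro l hlt i
    rcases hdef l with h | h
    · have := h i; linarith
    · have := h i₀
      rw [hl0] at this
      nlinarith
  have h2 : ∀ l, l₀ < l → ∀ i, φ i ≤ l * ψ i := by
    intro l hlt i
    rcases hdef l with h | h
    · have := h i₀
      rw [hl0] at this
      nlinarith
    · have := h i; linarith
  refine ⟨l₀, fun i => ?_⟩
  rcases (hψ i).eq_or_lt with h3 | h3
  · have h4 := h1 (l₀ - 1) (by linarith) i
    have h5 := h2 (l₀ + 1) (by linarith) i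
    rw [← h3, mul_zero] at h4 h5 ⊢
    linarith
  · refine le_antisymm ?_ ?_
    · by_contra hcon
      push Not at hcon
      have h4 : l₀ < φ i / ψ i := by rwa [lt_div_iff₀ h3]
      have h5 := h2 ((l₀ + φ i / ψ i) / 2) (by linarith) i
      have h6 : φ i = φ i / ψ i * ψ i := by field_simp
      nlinarith
    · by_contra hcon
      push Not at hcon
      have h4 : φ i / ψ i < l₀ := by rwa [div_lt_iff₀ h3]
      have h5 := h1 ((l₀ + φ i / ψ i) / 2) (by linarith) i
      have h6 : φ i = φ i / ψ i * ψ i := by field_simp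
      nlinarith

variable {U V : Type*} [NormedAddCommGroup U] [NormedSpace ℂ U] [NormedAddCommGroup V]
  [NormedSpace ℂ V] {W : (V →L[ℂ] U) → (U →L[ℂ] V) → Prop} [CompleteSpace U]
  [CompleteSpace V] [Nontrivial U] [Nontrivial V]

omit [CompleteSpace U] [CompleteSpace V] [Nontrivial U] in
theorem TS.pos_ex (hW : TS W) {x : U} (hx : x ≠ 0) {f : U →L[ℂ] ℂ} (hf : Sp x f) :
    ∃ a a', W a a' ∧ 0 < (f (a (a' x))).re := by
  by_contra hcon
  push Not at hcon
  have h1 := hW.kill (k := f) (z := x) (fun ha hb => hW.h1 ha hb hf)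
    (fun {a a'} ha => le_antisymm (hcon a a' ha) (hW.p1 ha hf))
  rcases h1 with h1 | h1
  · have h2 := hf.2
    rw [h1, zero_apply] at h2
    have h3 : ‖x‖ = 0 := by exact_mod_cast h2.symm
    exact hx (norm_eq_zero.1 h3)
  · exact hx h1

/-- the support functional is determined by its hermitian property -/
theorem TS.uniq_fun (hW : TS W) (hU : WL U) {x : U} (hx : x ≠ 0) {f : U →L[ℂ] ℂ} (hf : Sp x f)
    {h : U →L[ℂ] ℂ} (hh : ∀ {m m'}, Cl W m m' → h (m x) = (starRingEnd ℂ) (h (m' x))) :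
    ∃ l : ℝ, h = (l : ℂ) • f := by
  obtain ⟨a₀, a₀', ha₀, hpos⟩ := hW.pos_ex hx hf
  have hherm : ∀ l : ℝ, ∀ {m m'}, Cl W m m' →
      (h - (l : ℂ) • f) (m x) = (starRingEnd ℂ) ((h - (l : ℂ) • f) (m' x)) := by
    intro l m m' hm
    rw [sub_apply, sub_apply, smul_apply, smul_apply, hh hm, hm.herm hW.toPS hf, map_sub,
      smul_eq_mul, smul_eq_mul, map_mul, Complex.conj_ofReal]
  obtain ⟨l, hl⟩ := prop_aux
    (fun i : {p : (V →L[ℂ] U) × (U →L[ℂ] V) // W p.1 p.2} => (h (i.1.1 (i.1.2 x))).re)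
    (fun i => (f (i.1.1 (i.1.2 x))).re) (fun l => by
      have e1 : ∀ z : U, ((h - (l : ℂ) • f) z).re = (h z).re - l * (f z).re := by
        intro z
        rw [sub_apply, smul_apply, Complex.sub_re, smul_eq_mul, Complex.re_ofReal_mul]
      rcases hW.definite hU (h - (l : ℂ) • f) x (hherm l) with h1 | h1
      · left
        intro i
        have := h1 _ _ i.2
        rwa [e1] at this
      · right
        intro i
        have := h1 _ _ i.2
        rwa [e1] at this) (fun i => hW.p1 i.2 hf) (i₀ := ⟨(a₀, a₀'), ha₀⟩) hpos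
  refine ⟨l, ?_⟩
  have h1 := hW.kill (k := h - (l : ℂ) • f) (z := x)
    (fun ha hb => hherm l (Cl.gen ha hb)) (fun {a a'} ha => by
      have h2 := hl ⟨(a, a'), ha⟩
      rw [sub_apply, smul_apply, Complex.sub_re, smul_eq_mul, Complex.re_ofReal_mul]
      simp only at h2
      rw [h2, sub_self])
  rcases h1 with h1 | h1
  · exact sub_eq_zero.1 h1
  · exact absurd h1 hx

/-- a vector is determined by the hermitian property of its support functional -/
theorem TS.uniq_vec (hW : TS W) (hU : WL U) {x : U} (hx : x ≠ 0) {f : U →L[ℂ] ℂ} (hf : Sp x f)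
    {z : U} (hh : ∀ {m m'}, Cl W m m' → f (m z) = (starRingEnd ℂ) (f (m' z))) :
    ∃ l : ℝ, z = (l : ℂ) • x := by
  obtain ⟨a₀, a₀', ha₀, hpos⟩ := hW.pos_ex hx hf
  have hf0 : f ≠ 0 := by
    intro h1
    have h2 := hf.2
    rw [h1, zero_apply] at h2
    have h3 : ‖x‖ = 0 := by exact_mod_cast h2.symm
    exact hx (norm_eq_zero.1 h3)
  have e0 : ∀ (l : ℝ) (m : U →L[ℂ] U), f (m (z - (l : ℂ) • x)) = f (m z) - l * f (m x) := by
    intro l m
    rw [map_sub, map_sub, map_smul, map_smul, smul_eq_mul]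
  have hherm : ∀ l : ℝ, ∀ {m m'}, Cl W m m' →
      f (m (z - (l : ℂ) • x)) = (starRingEnd ℂ) (f (m' (z - (l : ℂ) • x))) := by
    intro l m m' hm
    rw [e0, e0, hh hm, hm.herm hW.toPS hf, map_sub, map_mul, Complex.conj_ofReal]
  have e1 : ∀ (l : ℝ) (a : V →L[ℂ] U) (a' : U →L[ℂ] V),
      (f (a (a' (z - (l : ℂ) • x)))).re = (f (a (a' z))).re - l * (f (a (a' x))).re := by
    intro l a a'
    have := e0 l (a.comp a')
    rw [ContinuousLinearMap.comp_apply, ContinuousLinearMap.comp_apply,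
      ContinuousLinearMap.comp_apply] at this
    rw [this, Complex.sub_re, Complex.re_ofReal_mul]
  obtain ⟨l, hl⟩ := prop_aux
    (fun i : {p : (V →L[ℂ] U) × (U →L[ℂ] V) // W p.1 p.2} => (f (i.1.1 (i.1.2 z))).re)
    (fun i => (f (i.1.1 (i.1.2 x))).re) (fun l => by
      rcases hW.definite hU f (z - (l : ℂ) • x) (hherm l) with h1 | h1
      · left
        intro i
        have := h1 _ _ i.2
        rwa [e1] at this
      · right
        intro i
        have := h1 _ _ i.2
        rwa [e1] at this) (fun i => hW.p1 i.2 hf) (i₀ := ⟨(a₀, a₀'), ha₀⟩) hpos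
  refine ⟨l, ?_⟩
  have h1 := hW.kill (k := f) (z := z - (l : ℂ) • x)
    (fun ha hb => hherm l (Cl.gen ha hb)) (fun {a a'} ha => by
      have h2 := hl ⟨(a, a'), ha⟩
      rw [e1]
      simp only at h2
      rw [h2, sub_self])
  rcases h1 with h1 | h1
  · exact absurd h1 hf0
  · exact sub_eq_zero.1 h1

omit [CompleteSpace U] [CompleteSpace V] [Nontrivial U] [Nontrivial V] in
theorem herm_of_re {E : Type*} [NormedAddCommGroup E] [NormedSpace ℂ E]
    {C : (E →L[ℂ] E) → (E →L[ℂ] E) → Prop} {k : E →L[ℂ] ℂ} {z : E}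
    (hJ : ∀ {m m'}, C m m' → C (Complex.I • m) (-(Complex.I • m')))
    (h : ∀ {m m'}, C m m' → (k ((m - m') z)).re = 0) {m m'} (hm : C m m') :
    k (m z) = (starRingEnd ℂ) (k (m' z)) := by
  have h1 := h hm
  have h2 := h (hJ hm)
  rw [sub_apply, map_sub, Complex.sub_re] at h1
  rw [sub_neg_eq_add, add_apply, smul_apply, smul_apply, map_add, map_smul, map_smul,
    smul_eq_mul, smul_eq_mul] at h2
  simp only [Complex.add_re, Complex.mul_re, Complex.I_re, Complex.I_im, zero_mul, one_mul,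
    zero_sub] at h2
  refine Complex.ext ?_ ?_
  · rw [Complex.conj_re]; linarith
  · rw [Complex.conj_im]; linarith

/-- **Rotations**: the unit vectors of `U` and `V` are joined by elements of the system. -/
theorem TS.rot (hW : TS W) (hU : WL U) (hV : WL V) {x : U} {y : V} (hx : ‖x‖ = 1)
    (hy : ‖y‖ = 1) : ∃ u u', ∃ l r : ℝ, W u u' ∧ 0 < l ∧ 0 < r ∧ u y = (l : ℂ) • x ∧
      u' x = (r : ℂ) • y := by
  have hx0 : x ≠ 0 := by
    intro h; rw [h, norm_zero] at hx; exact zero_ne_one hx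
  have hy0 : y ≠ 0 := by
    intro h; rw [h, norm_zero] at hy; exact zero_ne_one hy
  obtain ⟨f, hf⟩ := exists_sp x
  obtain ⟨g, hg⟩ := exists_sp y
  have hfx : f x = 1 := by rw [hf.2, hx, Complex.ofReal_one]
  have hgy : g y = 1 := by rw [hg.2, hy, Complex.ofReal_one]
  -- the maximum
  obtain ⟨⟨u, u'⟩, hu, hmax⟩ := exists_max (K := Kb W)
    ⟨(0, 0), hW.zero, fun x f _ => by
      show (f ((0 : V →L[ℂ] U) ((0 : U →L[ℂ] V) x))).re ≤ ‖x‖
      rw [zero_apply, map_zero, Complex.zero_re]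
      exact norm_nonneg x⟩ (fun p => (f (p.1 y)).re) (B := 16)
    (fun p hp => by
      refine (hf.re_le _).trans ((p.1.le_opNorm y).trans ?_)
      rw [hy, mul_one]
      exact (hW.toPS.kb_bound hp).1)
    (fun w hw => by
      obtain ⟨z, hz, h1, _⟩ := hW.toPS.kb_compact hU hV w hw
      exact ⟨z, hz, (Complex.continuous_re.tendsto _).comp (h1 y f)⟩)
  have huW : W u u' := hu.1
  have hun : ∀ (x : U) (f : U →L[ℂ] ℂ), Sp x f → (f (u (u' x))).re ≤ ‖x‖ := hu.2
  simp only at hmax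
  have hpos : 0 < (f (u y)).re := by
    obtain ⟨a, a', ha, h1⟩ := hW.i1 y hy0 x (1 / 2) (by norm_num)
    obtain ⟨t, ht, h2⟩ := hW.toPS.kb_scale ha
    have h3 := hmax _ h2
    have h4 : (f (a y)).re ≥ 1 / 2 := by
      have h5 := hf.norm_le (a y - x)
      rw [map_sub, hfx] at h5
      have h6 := (abs_le.1 ((Complex.abs_re_le_norm _).trans (h5.trans h1))).1
      rw [Complex.sub_re, Complex.one_re] at h6
      linarith
    have h5 : (f (((t : ℂ) • a) y)).re = t * (f (a y)).re := by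
      rw [smul_apply, map_smul, smul_eq_mul, Complex.re_ofReal_mul]
    rw [h5] at h3
    have h6 : 0 < t * (f (a y)).re := mul_pos ht (by linarith)
    linarith
  -- left perturbation
  have hleft : ∀ {m m'}, Cl W m m' → f (m (u y)) = (starRingEnd ℂ) (f (m' (u y))) := by
    refine fun hm => herm_of_re (C := Cl W) (fun h => h.J) (fun {m m'} hm => ?_) hm
    have hsk := hm.skew hW.toPS
    have h1 := ex_deriv (m - m') (u y) 0
    have h2 := (f.restrictScalars ℝ).hasFDerivAt.comp_hasDerivAt (0 : ℝ) h1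
    have h3 := Complex.reCLM.hasFDerivAt.comp_hasDerivAt (0 : ℝ) h2
    have h5 : IsLocalMax (fun t : ℝ => (f (NormedSpace.exp ((t : ℂ) • (m - m')) (u y))).re) 0 := by
      refine Filter.Eventually.of_forall (fun t => ?_)
      show (f (NormedSpace.exp ((t : ℂ) • (m - m')) (u y))).re ≤
        (f (NormedSpace.exp (((0 : ℝ) : ℂ) • (m - m')) (u y))).re
      rw [exp0]
      refine hmax (((NormedSpace.exp ((t : ℂ) • (m - m'))).comp u),
        (u'.comp (NormedSpace.exp (((-t : ℝ) : ℂ) • (m - m'))))) ⟨?_, fun z k hk => ?_⟩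
      · exact (hm.exp_skew hW t).mulW hW huW
      · have h3 : Sp (NormedSpace.exp (((-t : ℝ) : ℂ) • (m - m')) z)
            (k.comp (NormedSpace.exp ((t : ℂ) • (m - m')))) :=
          hk.comp_isom _ _ (fun y => (hsk.exp_norm t y).le) (hsk.exp_norm (-t) z)
            (exp_neg_apply' _ _ _)
        have h4 := hun _ _ h3
        rw [hsk.exp_norm (-t) z] at h4
        exact h4
    have h6 := h5.hasDerivAt_eq_zero h3
    rw [exp0] at h6
    exact h6
  obtain ⟨l, hl⟩ := hW.uniq_vec hU hx0 hf hleft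
  have hl0 : 0 < l := by
    rw [hl, map_smul, hfx, smul_eq_mul, mul_one, Complex.ofReal_re] at hpos
    exact hpos
  -- right perturbation
  have hright : ∀ {n n'}, Cl (fun (a' : U →L[ℂ] V) (a : V →L[ℂ] U) => W a a') n n' →
      (f.comp u) (n y) = (starRingEnd ℂ) ((f.comp u) (n' y)) := by
    refine fun hm => herm_of_re (C := Cl (fun (a' : U →L[ℂ] V) (a : V →L[ℂ] U) => W a a'))
      (fun h => h.J) (fun {n n'} hn => ?_) hm
    have hsk := hn.skew hW.toPS.swap
    have h1 := ex_deriv (n - n') y 0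
    have h2 := ((f.comp u).restrictScalars ℝ).hasFDerivAt.comp_hasDerivAt (0 : ℝ) h1
    have h3 := Complex.reCLM.hasFDerivAt.comp_hasDerivAt (0 : ℝ) h2
    have h5 : IsLocalMax (fun t : ℝ =>
        ((f.comp u) (NormedSpace.exp ((t : ℂ) • (n - n')) y)).re) 0 := by
      refine Filter.Eventually.of_forall (fun t => ?_)
      show ((f.comp u) (NormedSpace.exp ((t : ℂ) • (n - n')) y)).re ≤
        ((f.comp u) (NormedSpace.exp (((0 : ℝ) : ℂ) • (n - n')) y)).re
      rw [exp0]
      refine hmax ((u.comp (NormedSpace.exp ((t : ℂ) • (n - n')))),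
        ((NormedSpace.exp (((-t : ℝ) : ℂ) • (n - n'))).comp u')) ⟨?_, fun z k hk => ?_⟩
      · have h6 := hn.exp_skew hW.swap (-t)
        rw [neg_neg] at h6
        exact h6.mulW hW.swap huW
      · show (k (u (NormedSpace.exp ((t : ℂ) • (n - n'))
          (NormedSpace.exp (((-t : ℝ) : ℂ) • (n - n')) (u' z))))).re ≤ ‖z‖
        rw [exp_neg_apply']
        exact hun z k hk
    have h6 := h5.hasDerivAt_eq_zero h3
    rw [exp0] at h6
    exact h6
  obtain ⟨l', hl'⟩ := hW.swap.uniq_fun hV hy0 hg hright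
  have hll : l' = l := by
    have h1 : (f.comp u) y = l := by
      rw [ContinuousLinearMap.comp_apply, hl, map_smul, hfx, smul_eq_mul, mul_one]
    rw [hl', smul_apply, hgy, smul_eq_mul, mul_one] at h1
    exact_mod_cast h1
  rw [hll] at hl'
  have hfu : ∀ v, f (u v) = l * g v := by
    intro v
    have : (f.comp u) v = l * g v := by rw [hl']; rfl
    exact this
  have hlc : (l : ℂ) ≠ 0 := by exact_mod_cast hl0.ne'
  -- the vector `u' x`
  have hv : ∀ {n n'}, Cl (fun (a' : U →L[ℂ] V) (a : V →L[ℂ] U) => W a a') n n' →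
      g (n (u' x)) = (starRingEnd ℂ) (g (n' (u' x))) := by
    intro n n' hn
    have h1 : W (u.comp n) (n'.comp u') := hn.star.mulW hW.swap huW
    have h2 := (Cl.gen h1 huW).herm hW.toPS hf
    have h3 : f (((u.comp n).comp u') x) = l * g (n (u' x)) := hfu _
    have h4 : f ((u.comp (n'.comp u')) x) = l * g (n' (u' x)) := hfu _
    rw [h3, h4, map_mul, Complex.conj_ofReal] at h2
    exact mul_left_cancel₀ hlc h2
  obtain ⟨r, hr⟩ := hW.swap.uniq_vec hV hy0 hg hv
  have hr0 : 0 ≤ r := by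
    have h1 := hW.p1 huW hf
    rw [hr, map_smul, map_smul, hl, map_smul, hfx] at h1
    simp only [smul_eq_mul, mul_one, Complex.re_ofReal_mul, Complex.ofReal_re] at h1
    exact nonneg_of_mul_nonneg_left h1 hl0
  have hr1 : r ≠ 0 := by
    intro h0
    rw [h0, Complex.ofReal_zero, zero_smul] at hr
    have h1 : ∀ {b b'}, W b b' → g (b' x) = 0 := by
      intro b b' hb
      have h2 := hW.h1 huW hb hf
      rw [hfu, hr, map_zero, map_zero, map_zero] at h2
      rcases mul_eq_zero.1 h2 with h3 | h3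
      · exact absurd h3 hlc
      · exact h3
    have h2 : g = 0 := dense_zero fun v δ hδ => by
      obtain ⟨a, a', ha, h3⟩ := hW.i2 x hx0 v δ hδ
      exact ⟨a' x, h1 ha, h3⟩
    rw [h2, zero_apply] at hgy
    exact zero_ne_one hgy
  exact ⟨u, u', l, r, huW, hl0, lt_of_le_of_ne hr0 hr1.symm, hl, hr⟩

end Pool.Q193.HP
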