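import Mathlib
import Pool.Agent.Q193.HP.Uniq

/-!
# Off-diagonal parts of skew operators
-/

set_option autoImplicit false

namespace Pool.Q193.HP

open Filter Topology

/-- norm one complemented subspaces -/
structure Inc (U X : Type*) [NormedAddCommGroup U] [NormedSpace ℂ U] [NormedAddCommGroup X]
    [NormedSpace ℂ X] where
  /-- the inclusion -/
  i : U →L[ℂ] X
  /-- the projection -/
  p : X →L[ℂ] U
  pi : ∀ u, p (i u) = u
  ni : ∀ u, ‖i u‖ = ‖u‖
  np : ∀ x, ‖p x‖ ≤ ‖x‖

variable {U V X : Type*} [NormedAddCommGroup U] [NormedSpace ℂ U] [NormedAddCommGroup V]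
  [NormedSpace ℂ V] [NormedAddCommGroup X] [NormedSpace ℂ X]

theorem Inc.sp (j : Inc U X) {u : U} {f : U →L[ℂ] ℂ} (h : Sp u f) : Sp (j.i u) (f.comp j.p) := by
  refine ⟨?_, ?_⟩
  · refine ContinuousLinearMap.opNorm_le_bound _ zero_le_one (fun y => ?_)
    rw [ContinuousLinearMap.comp_apply, one_mul]
    exact (h.norm_le _).trans (j.np y)
  · rw [ContinuousLinearMap.comp_apply, j.pi, j.ni, h.2]

theorem Inc.wl (j : Inc U X) (hX : WL X) : WL U := by
  intro x M hM
  obtain ⟨z, hz⟩ := hX (fun n => j.i (x n)) M (fun n => by rw [j.ni]; exact hM n)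
  refine ⟨j.p z, fun f => ?_⟩
  refine (hz (f.comp j.p)).congr (fun n => ?_)
  rw [ContinuousLinearMap.comp_apply, j.pi]

/-- the operator `a - a'` on the big space -/
noncomputable def od (j : Inc U X) (k : Inc V X) (a : V →L[ℂ] U) (a' : U →L[ℂ] V) : X →L[ℂ] X :=
  j.i.comp (a.comp k.p) - k.i.comp (a'.comp j.p)

theorem od_apply (j : Inc U X) (k : Inc V X) (a : V →L[ℂ] U) (a' : U →L[ℂ] V) (x : X) :
    od j k a a' x = j.i (a (k.p x)) - k.i (a' (j.p x)) := rfl

/-- the pairs `(a, a')` with `a - a'` skew -/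
def Wp (j : Inc U X) (k : Inc V X) (a : V →L[ℂ] U) (a' : U →L[ℂ] V) : Prop := SkC (od j k a a')

theorem Wp.symm {j : Inc U X} {k : Inc V X} {a a'} (h : Wp j k a a') : Wp k j a' a := by
  have h1 := SkC.neg h
  have e1 : od k j a' a = - od j k a a' := by
    ext x
    rw [neg_apply, od_apply, od_apply]
    abel
  rw [Wp, e1]
  exact h1

/-- orthogonality -/
structure Orth (j : Inc U X) (k : Inc V X) : Prop where
  l : ∀ v, j.p (k.i v) = 0
  r : ∀ u, k.p (j.i u) = 0

theorem Orth.symm {j : Inc U X} {k : Inc V X} (h : Orth j k) : Orth k j := ⟨h.r, h.l⟩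

theorem od_l {j : Inc U X} {k : Inc V X} (h : Orth j k) (a : V →L[ℂ] U) (a' : U →L[ℂ] V) (x : U) :
    od j k a a' (j.i x) = - k.i (a' x) := by
  rw [od_apply, h.r, j.pi, map_zero, map_zero, zero_sub]

theorem od_r {j : Inc U X} {k : Inc V X} (h : Orth j k) (a : V →L[ℂ] U) (a' : U →L[ℂ] V) (y : V) :
    od j k a a' (k.i y) = j.i (a y) := by
  rw [od_apply, h.l, k.pi, map_zero, map_zero, sub_zero]

theorem Wp.zero (j : Inc U X) (k : Inc V X) : Wp j k 0 0 := by
  intro x f _
  have e1 : od j k 0 0 x = 0 := by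
    rw [od_apply]
    simp
  rw [e1, map_zero, Complex.zero_re]

theorem Wp.add {j : Inc U X} {k : Inc V X} {a a' b b'} (ha : Wp j k a a') (hb : Wp j k b b') :
    Wp j k (a + b) (a' + b') := by
  have e1 : od j k (a + b) (a' + b') = od j k a a' + od j k b b' := by
    ext x
    rw [add_apply, od_apply, od_apply, od_apply, add_apply, add_apply, map_add, map_add]
    abel
  rw [Wp, e1]
  exact SkC.add ha hb

theorem Wp.smul {j : Inc U X} {k : Inc V X} (c : ℝ) {a a'} (ha : Wp j k a a') :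
    Wp j k ((c : ℂ) • a) ((c : ℂ) • a') := by
  have e1 : od j k ((c : ℂ) • a) ((c : ℂ) • a') = (c : ℂ) • od j k a a' := by
    ext x
    rw [smul_apply, od_apply, od_apply, smul_apply, smul_apply, map_smul, map_smul, smul_sub]
  rw [Wp, e1]
  exact SkC.smul ha c

theorem Wp.J [CompleteSpace X] {j : Inc U X} {k : Inc V X} (hjk : Orth j k)
    (hj : Hm (j.i.comp j.p)) {a a'} (h : Wp j k a a') :
    Wp j k (Complex.I • a) (-(Complex.I • a')) := by
  have h1 := hj.sk.comm h
  have e1 : od j k (Complex.I • a) (-(Complex.I • a')) =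
      (Complex.I • (j.i.comp j.p)) * od j k a a' - od j k a a' * (Complex.I • (j.i.comp j.p)) := by
    ext x
    rw [sub_apply]
    show _ = (Complex.I • (j.i.comp j.p)) (od j k a a' x) -
      od j k a a' ((Complex.I • (j.i.comp j.p)) x)
    rw [smul_apply, smul_apply, map_smul, ContinuousLinearMap.comp_apply,
      ContinuousLinearMap.comp_apply, od_l hjk, od_apply, od_apply, map_sub, j.pi, hjk.l,
      neg_apply, smul_apply, smul_apply, map_smul, map_neg, map_smul, sub_zero, smul_neg]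
  rw [Wp, e1]
  exact h1

theorem Wp.lim {j : Inc U X} {k : Inc V X} {a : ℕ → (V →L[ℂ] U)} {a' : ℕ → (U →L[ℂ] V)}
    {b : V →L[ℂ] U} {b' : U →L[ℂ] V} (h : ∀ n, Wp j k (a n) (a' n)) (hb : WLim a b)
    (hb' : WLim a' b') : Wp j k b b' := by
  intro x f hf
  have h1 := (hb (k.p x) (f.comp j.i)).sub (hb' (j.p x) (f.comp k.i))
  have h2 := (Complex.continuous_re.tendsto _).comp h1
  have h3 : (fun n => ((f.comp j.i) (a n (k.p x)) - (f.comp k.i) (a' n (j.p x))).re) =
      fun _ => (0 : ℝ) := by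
    funext n
    have h4 := h n x f hf
    rw [od_apply, map_sub] at h4
    exact h4
  have h5 : Tendsto (fun _ : ℕ => (0 : ℝ)) om
      (𝓝 ((f.comp j.i) (b (k.p x)) - (f.comp k.i) (b' (j.p x))).re) := by
    rw [← h3]
    exact h2
  have h6 := tendsto_nhds_unique h5 tendsto_const_nhds
  rw [od_apply, map_sub]
  exact h6

theorem Wp.h1 [CompleteSpace X] {j : Inc U X} {k : Inc V X} (hjk : Orth j k)
    (hj : Hm (j.i.comp j.p)) {a a' b b'} (ha : Wp j k a a') (hb : Wp j k b b') {x : U}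
    {f : U →L[ℂ] ℂ} (hf : Sp x f) : f (a (b' x)) = (starRingEnd ℂ) (f (b (a' x))) := by
  have key : ∀ {a a' b b'}, Wp j k a a' → Wp j k b b' →
      (f (a (b' x))).re = (f (b (a' x))).re := by
    intro a a' b b' ha hb
    have h1 := SkC.comm ha hb _ _ (j.sp hf)
    have e1 : (od j k a a' * od j k b b' - od j k b b' * od j k a a') (j.i x) =
        j.i (b (a' x)) - j.i (a (b' x)) := by
      rw [sub_apply]
      show od j k a a' (od j k b b' (j.i x)) - od j k b b' (od j k a a' (j.i x)) = _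
      rw [od_l hjk, od_l hjk, map_neg, map_neg, od_r hjk, od_r hjk]
      abel
    rw [e1, ContinuousLinearMap.comp_apply, map_sub, j.pi, j.pi, map_sub, Complex.sub_re] at h1
    linarith
  have h1 := key ha hb
  have h2 := key (ha.J hjk hj) hb
  rw [smul_apply, map_smul, neg_apply, smul_apply, map_neg, map_neg, map_smul, map_smul,
    smul_eq_mul, smul_eq_mul] at h2
  simp only [Complex.neg_re, Complex.mul_re, Complex.I_re, Complex.I_im, zero_mul, one_mul,
    zero_sub, neg_neg] at h2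
  refine Complex.ext ?_ ?_
  · rw [Complex.conj_re]; exact h1
  · rw [Complex.conj_im]; linarith

theorem Wp.p1 [CompleteSpace X] {j : Inc U X} {k : Inc V X} (hjk : Orth j k) {a a'}
    (ha : Wp j k a a') {x : U} {f : U →L[ℂ] ℂ} (hf : Sp x f) : 0 ≤ (f (a (a' x))).re := by
  have h1 := SkC.sq_nonpos ha (j.sp hf)
  rw [od_l hjk, map_neg, od_r hjk, ContinuousLinearMap.comp_apply, map_neg, map_neg, j.pi,
    Complex.neg_re] at h1
  linarith

theorem Wp.l1 [CompleteSpace X] {j : Inc U X} {k : Inc V X} (hjk : Orth j k) {a a'}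
    (ha : Wp j k a a') (y : V) : ‖a y‖ ^ 2 ≤ 4 * ‖y‖ * ‖a' (a y)‖ := by
  have h1 := SkC.landau ha (k.i y)
  rwa [od_r hjk, od_l hjk, norm_neg, k.ni, k.ni, j.ni] at h1

/-- the pair structure -/
theorem Wp.ps [CompleteSpace X] {j : Inc U X} {k : Inc V X} (hjk : Orth j k)
    (hj : Hm (j.i.comp j.p)) (hk : Hm (k.i.comp k.p)) : PS (Wp j k) where
  zero := Wp.zero j k
  add := fun ha hb => ha.add hb
  smul := fun c _ _ ha => ha.smul c
  J := fun ha => ha.J hjk hj
  lim := fun _ _ _ _ _ h _ _ hb hb' => Wp.lim h hb hb'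
  h1 := fun ha hb _ _ hs => Wp.h1 hjk hj ha hb hs
  h2 := fun ha hb _ _ hs => Wp.h1 hjk.symm hk ha.symm hb.symm hs
  p1 := fun ha _ _ hs => Wp.p1 hjk ha hs
  p2 := fun ha _ _ hs => Wp.p1 hjk.symm ha.symm hs
  l1 := fun ha y => Wp.l1 hjk ha y
  l2 := fun ha x => Wp.l1 hjk.symm ha.symm x

/-- parts of skew operators -/
theorem Wp.part [CompleteSpace X] {j : Inc U X} {k : Inc V X} (hjk : Orth j k)
    (hj : Hm (j.i.comp j.p)) (hk : Hm (k.i.comp k.p)) {C : X →L[ℂ] X} (hC : SkC C) :
    Wp j k (j.p.comp (C.comp k.i)) (-(k.p.comp (C.comp j.i))) := by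
  have h1 := hj.sk.comm (hk.sk.comm hC)
  have e1 : od j k (j.p.comp (C.comp k.i)) (-(k.p.comp (C.comp j.i))) =
      (Complex.I • (j.i.comp j.p)) * ((Complex.I • (k.i.comp k.p)) * C -
        C * (Complex.I • (k.i.comp k.p))) - ((Complex.I • (k.i.comp k.p)) * C -
        C * (Complex.I • (k.i.comp k.p))) * (Complex.I • (j.i.comp j.p)) := by
    ext x
    rw [sub_apply]
    show _ = (Complex.I • (j.i.comp j.p)) ((Complex.I • (k.i.comp k.p)) (C x) -
      C ((Complex.I • (k.i.comp k.p)) x)) - ((Complex.I • (k.i.comp k.p))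
      (C ((Complex.I • (j.i.comp j.p)) x)) - C ((Complex.I • (k.i.comp k.p))
      ((Complex.I • (j.i.comp j.p)) x)))
    simp only [smul_apply, ContinuousLinearMap.comp_apply, map_smul, map_sub, hjk.l, hjk.r,
      map_zero, smul_zero, sub_zero, smul_smul, Complex.I_mul_I, neg_one_smul, od_apply,
      neg_apply, map_neg, sub_neg_eq_add, zero_add]
  rw [Wp, e1]
  exact h1

variable {Y : Type*} [NormedAddCommGroup Y] [NormedSpace ℂ Y]

/-- products -/
theorem Wp.comp [CompleteSpace X] {j : Inc U X} {k : Inc V X} {l : Inc Y X} (hjk : Orth j k)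
    (hkl : Orth k l) (hjl : Orth j l) {a a' b b'} (ha : Wp j k a a') (hb : Wp k l b b') :
    Wp j l (a.comp b) (b'.comp a') := by
  have h1 := SkC.comm ha hb
  have e1 : od j l (a.comp b) (b'.comp a') =
      od j k a a' * od k l b b' - od k l b b' * od j k a a' := by
    ext x
    rw [sub_apply]
    show _ = od j k a a' (od k l b b' x) - od k l b b' (od j k a a' x)
    simp only [od_apply, map_sub, k.pi, hjk.l, hjk.r, hkl.l, hkl.r, hjl.l, hjl.r, map_zero,
      sub_zero, zero_sub, ContinuousLinearMap.comp_apply, sub_neg_eq_add]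
    abel
  rw [Wp, e1]
  exact h1

end Pool.Q193.HP
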