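import Mathlib
import Pool.Agent.Q193.HP.Wp

/-!
# Three orthogonal hermitian projections
-/

set_option autoImplicit false

namespace Pool.Q193.HP

open Filter Topology

variable {U V Y X : Type*} [NormedAddCommGroup U] [NormedSpace ℂ U] [NormedAddCommGroup V]
  [NormedSpace ℂ V] [NormedAddCommGroup Y] [NormedSpace ℂ Y] [NormedAddCommGroup X]
  [NormedSpace ℂ X]

/-- density of the skew operators -/
def Dn (j : Inc U X) (k : Inc V X) : Prop :=
  ∀ x : U, x ≠ 0 → ∀ (z : V) (δ : ℝ), 0 < δ → ∃ C : X →L[ℂ] X, SkC C ∧ ‖C (j.i x) - k.i z‖ ≤ δ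

/-- three hermitian projections with irreducibility -/
structure Trp (j : Inc U X) (k : Inc V X) (l : Inc Y X) : Prop where
  jk : Orth j k
  kl : Orth k l
  jl : Orth j l
  hj : Hm (j.i.comp j.p)
  hk : Hm (k.i.comp k.p)
  hl : Hm (l.i.comp l.p)
  djk : Dn j k
  dkj : Dn k j
  dkl : Dn k l
  dlk : Dn l k
  djl : Dn j l
  dlj : Dn l j

theorem Trp.swap {j : Inc U X} {k : Inc V X} {l : Inc Y X} (h : Trp j k l) : Trp k j l :=
  ⟨h.jk.symm, h.jl, h.kl, h.hk, h.hj, h.hl, h.dkj, h.djk, h.djl, h.dlj, h.dkl, h.dlk⟩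

theorem Trp.swap' {j : Inc U X} {k : Inc V X} {l : Inc Y X} (h : Trp j k l) : Trp j l k :=
  ⟨h.jl, h.kl.symm, h.jk, h.hj, h.hl, h.hk, h.djl, h.dlj, h.dlk, h.dkl, h.djk, h.dkj⟩

/-- the ternary system generated by the products -/
inductive Gn (j : Inc U X) (k : Inc V X) (l : Inc Y X) :
    (V →L[ℂ] U) → (U →L[ℂ] V) → Prop
  | base {p p' q q'} : Wp j l p p' → Wp l k q q' → Gn j k l (p.comp q) (q'.comp p')
  | add {a a' b b'} : Gn j k l a a' → Gn j k l b b' → Gn j k l (a + b) (a' + b')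
  | smul (c : ℝ) {a a'} : Gn j k l a a' → Gn j k l ((c : ℂ) • a) ((c : ℂ) • a')
  | J {a a'} : Gn j k l a a' → Gn j k l (Complex.I • a) (-(Complex.I • a'))
  | lim (a : ℕ → (V →L[ℂ] U)) (a' : ℕ → (U →L[ℂ] V)) (M : ℝ) (b : V →L[ℂ] U) (b' : U →L[ℂ] V) :
      (∀ n, Gn j k l (a n) (a' n)) → (∀ n, ‖a n‖ ≤ M) → (∀ n, ‖a' n‖ ≤ M) → WLim a b →
      WLim a' b' → Gn j k l b b'

theorem Gn.wp [CompleteSpace X] {j : Inc U X} {k : Inc V X} {l : Inc Y X} (h : Trp j k l)
    {a a'} (ha : Gn j k l a a') : Wp j k a a' := by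
  induction ha with
  | base hp hq => exact hp.comp h.jl h.kl.symm h.jk hq
  | add _ _ h1 h2 => exact h1.add h2
  | smul c _ h1 => exact h1.smul c
  | J _ h1 => exact h1.J h.jk h.hj
  | lim a a' M b b' _ _ _ hb hb' h1 => exact Wp.lim h1 hb hb'

theorem Gn.tri [CompleteSpace X] {j : Inc U X} {k : Inc V X} {l : Inc Y X} (h : Trp j k l)
    {a a'} (ha : Gn j k l a a') {b b' d d'} (hb : Wp j k b b') (hd : Wp j k d d') :
    Gn j k l (a.comp (b'.comp d)) (d'.comp (b.comp a')) := by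
  induction ha with
  | base hp hq =>
    have h1 := hq.comp h.kl.symm h.jk.symm h.jl.symm hb.symm
    have h2 := h1.comp h.jl.symm h.jk h.kl.symm hd
    exact Gn.base hp h2
  | add _ _ h1 h2 =>
    rw [ContinuousLinearMap.add_comp, ContinuousLinearMap.comp_add, ContinuousLinearMap.comp_add]
    exact h1.add h2
  | smul c _ h1 =>
    rw [ContinuousLinearMap.smul_comp, ContinuousLinearMap.comp_smul,
      ContinuousLinearMap.comp_smul]
    exact h1.smul c
  | J _ h1 =>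
    rw [ContinuousLinearMap.smul_comp, ContinuousLinearMap.comp_neg, ContinuousLinearMap.comp_neg,
      ContinuousLinearMap.comp_smul, ContinuousLinearMap.comp_smul]
    exact h1.J
  | lim a a' M e e' _ hM hM' he he' h1 =>
    refine Gn.lim (fun n => (a n).comp (b'.comp d)) (fun n => d'.comp (b.comp (a' n)))
      (M * ‖b'.comp d‖ + ‖d'.comp b‖ * M) _ _ h1 (fun n => ?_) (fun n => ?_)
      (he.comp_right _) (he'.comp_left (d'.comp b))
    · have h2 := (a n).opNorm_comp_le (b'.comp d)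
      have h3 := hM n
      have h4 := norm_nonneg (b'.comp d)
      have h5 := norm_nonneg (a n)
      have h6 := norm_nonneg (d'.comp b)
      have h7 : ‖a n‖ * ‖b'.comp d‖ ≤ M * ‖b'.comp d‖ := by gcongr
      have h8 : 0 ≤ ‖d'.comp b‖ * M := mul_nonneg h6 (h5.trans h3)
      linarith
    · have h2 : ‖(d'.comp b).comp (a' n)‖ ≤ ‖d'.comp b‖ * ‖a' n‖ :=
        (d'.comp b).opNorm_comp_le (a' n)
      have h3 := hM' n
      have h4 := norm_nonneg (b'.comp d)
      have h5 := norm_nonneg (a' n)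
      have h6 := norm_nonneg (d'.comp b)
      have h7 : ‖d'.comp b‖ * ‖a' n‖ ≤ ‖d'.comp b‖ * M := by gcongr
      have h8 : 0 ≤ M * ‖b'.comp d‖ := mul_nonneg (h5.trans h3) h4
      exact h2.trans (by linarith)

theorem Dn.wp [CompleteSpace X] {j : Inc U X} {k : Inc V X} (h : Dn k j) (hjk : Orth j k)
    (hj : Hm (j.i.comp j.p)) (hk : Hm (k.i.comp k.p)) {y : V} (hy : y ≠ 0) (x : U) {δ : ℝ}
    (hδ : 0 < δ) : ∃ a a', Wp j k a a' ∧ ‖a y - x‖ ≤ δ := by
  obtain ⟨C, hC, h1⟩ := h y hy x δ hδ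
  refine ⟨_, _, Wp.part hjk hj hk hC, ?_⟩
  have h2 : (j.p.comp (C.comp k.i)) y - x = j.p (C (k.i y) - j.i x) := by
    rw [map_sub, j.pi]; rfl
  rw [h2]
  exact (j.np _).trans h1

theorem Dn.wp_ne [CompleteSpace X] {j : Inc U X} {k : Inc V X} (h : Dn k j) (hjk : Orth j k)
    (hj : Hm (j.i.comp j.p)) (hk : Hm (k.i.comp k.p)) [Nontrivial U] {y : V} (hy : y ≠ 0) :
    ∃ a a', Wp j k a a' ∧ a y ≠ 0 := by
  obtain ⟨x, hx⟩ := exists_ne (0 : U)
  have hx0 : 0 < ‖x‖ := norm_pos_iff.2 hx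
  obtain ⟨a, a', ha, h1⟩ := h.wp hjk hj hk hy x (show 0 < ‖x‖ / 2 by positivity)
  refine ⟨a, a', ha, fun h0 => ?_⟩
  rw [h0, zero_sub, norm_neg] at h1
  linarith

theorem Gn.ts [CompleteSpace X] [Nontrivial Y] {j : Inc U X} {k : Inc V X} {l : Inc Y X}
    (h : Trp j k l) : TS (Gn j k l) := by
  have hps := Wp.ps h.jk h.hj h.hk
  exact
  { zero := by
      have h1 := Gn.base (Wp.zero j l) (Wp.zero l k)
      simpa using h1
    add := fun ha hb => ha.add hb
    smul := fun c _ _ ha => ha.smul c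
    J := fun ha => ha.J
    lim := fun a a' M b b' h1 h2 h3 h4 h5 => Gn.lim a a' M b b' h1 h2 h3 h4 h5
    h1 := fun ha hb _ _ hs => hps.h1 (ha.wp h) (hb.wp h) hs
    h2 := fun ha hb _ _ hs => hps.h2 (ha.wp h) (hb.wp h) hs
    p1 := fun ha _ _ hs => hps.p1 (ha.wp h) hs
    p2 := fun ha _ _ hs => hps.p2 (ha.wp h) hs
    l1 := fun ha y => hps.l1 (ha.wp h) y
    l2 := fun ha x => hps.l2 (ha.wp h) x
    tri := fun ha hb hd => ha.tri h (hb.wp h) (hd.wp h)
    i1 := fun y hy x δ hδ => by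
      obtain ⟨q, q', hq, hqy⟩ := h.dkl.wp_ne h.kl.symm h.hl h.hk hy
      obtain ⟨p, p', hp, h1⟩ := h.dlj.wp h.jl h.hj h.hl hqy x hδ
      exact ⟨_, _, Gn.base hp hq, h1⟩
    i2 := fun x hx y δ hδ => by
      obtain ⟨p', p, hp, hpx⟩ := h.djl.wp_ne h.jl.symm h.hl h.hj hx
      obtain ⟨q', q, hq, h1⟩ := h.dlk.wp h.kl h.hk h.hl hpx y hδ
      exact ⟨_, _, Gn.base hp.symm hq.symm, h1⟩ }

/-- solutions of `z' = A z` have constant norm -/
theorem ode_norm [CompleteSpace X] {A : X →L[ℂ] X} (hA : SkC A) {z : ℝ → X}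
    (hz : ∀ t, HasDerivAt z (A (z t)) t) (t : ℝ) : ‖z t‖ = ‖z 0‖ := by
  have h1 : z = fun s : ℝ => NormedSpace.exp ((s : ℂ) • A) (z 0) := by
    refine ODE_solution_unique_univ (v := fun _ x => A x) (s := fun _ => Set.univ) (K := ‖A‖₊)
      (fun _ => A.lipschitz.lipschitzOnWith) (fun s => ⟨hz s, trivial⟩)
      (fun s => ⟨ex_deriv A (z 0) s, trivial⟩) (t₀ := 0) ?_
    rw [exp0]
  rw [h1]
  simp only [exp0]
  rw [hA.exp_norm]

/-- rotation in the plane of `x` and `y` -/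
theorem rot_norm [CompleteSpace X] {j : Inc U X} {k : Inc V X} (hjk : Orth j k) {u u'}
    (hu : Wp j k u u') {x : U} {y : V} (hx : ‖x‖ = 1) (hy : ‖y‖ = 1) {l r : ℝ} (hl : 0 < l)
    (hr : 0 < r) (h1 : u y = (l : ℂ) • x) (h2 : u' x = (r : ℂ) • y) :
    l = r ∧ ∀ (w : X), j.p w = 0 → k.p w = 0 → ∀ t : ℝ,
      ‖((Real.cos t : ℝ) : ℂ) • k.i y + ((Real.sin t : ℝ) : ℂ) • j.i x + w‖ = ‖k.i y + w‖ := by
  set ω : ℝ := Real.sqrt (l * r) with hω
  have hω0 : 0 < ω := Real.sqrt_pos.2 (mul_pos hl hr)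
  have hωω : ω * ω = l * r := Real.mul_self_sqrt (mul_pos hl hr).le
  have key : ∀ (w : X), j.p w = 0 → k.p w = 0 → ∀ t : ℝ,
      ‖((Real.cos (ω * t) : ℝ) : ℂ) • k.i y + ((l / ω * Real.sin (ω * t) : ℝ) : ℂ) • j.i x + w‖ =
        ‖k.i y + w‖ := by
    intro w hjw hkw t
    have hd : ∀ s : ℝ, HasDerivAt (fun s : ℝ => ((Real.cos (ω * s) : ℝ) : ℂ) • k.i y +
        ((l / ω * Real.sin (ω * s) : ℝ) : ℂ) • j.i x + w)
        (od j k u u' (((Real.cos (ω * s) : ℝ) : ℂ) • k.i y +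
        ((l / ω * Real.sin (ω * s) : ℝ) : ℂ) • j.i x + w)) s := by
      intro s
      have h3 : HasDerivAt (fun s : ℝ => ω * s) ω s := by
        simpa using (hasDerivAt_id s).const_mul ω
      have h4 : HasDerivAt (fun s : ℝ => Real.cos (ω * s)) (-Real.sin (ω * s) * ω) s :=
        (Real.hasDerivAt_cos (ω * s)).comp s h3
      have h5 : HasDerivAt (fun s : ℝ => l / ω * Real.sin (ω * s))
          (l / ω * (Real.cos (ω * s) * ω)) s :=
        ((Real.hasDerivAt_sin (ω * s)).comp s h3).const_mul _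
      have h6 := (h4.ofReal_comp.smul_const (k.i y)).add (h5.ofReal_comp.smul_const (j.i x))
      have h7 := h6.add_const w
      refine h7.congr_deriv ?_
      have e1 : od j k u u' w = 0 := by
        rw [od_apply, hjw, hkw, map_zero, map_zero, map_zero, map_zero, sub_zero]
      rw [map_add, map_add, map_smul, map_smul, e1, add_zero, od_r hjk, od_l hjk, h1, h2,
        map_smul, map_smul, smul_neg, smul_smul, smul_smul]
      have e2 : l / ω * (Real.cos (ω * s) * ω) = Real.cos (ω * s) * l := by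
        field_simp
      have e3 : -Real.sin (ω * s) * ω = -(l / ω * Real.sin (ω * s) * r) := by
        have : l / ω * Real.sin (ω * s) * r = Real.sin (ω * s) * (l * r) / ω := by
          field_simp
        rw [this, ← hωω]
        field_simp
      rw [e2, e3]
      push_cast
      rw [neg_smul, add_comm]
    have h3 := ode_norm hu hd t
    rw [h3]
    simp
  have hlr : l = ω := by
    have h3 := key 0 (map_zero _) (map_zero _) (Real.pi / 2 / ω)
    have e1 : ω * (Real.pi / 2 / ω) = Real.pi / 2 := by field_simp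
    rw [e1, Real.cos_pi_div_two, Real.sin_pi_div_two, Complex.ofReal_zero, zero_smul, zero_add,
      add_zero, add_zero, mul_one, norm_smul, Complex.norm_real, j.ni, k.ni, hx, hy, mul_one,
      Real.norm_of_nonneg (by positivity)] at h3
    rw [div_eq_one_iff_eq hω0.ne'] at h3
    exact h3
  refine ⟨?_, fun w hjw hkw t => ?_⟩
  · have h3 : l * l = l * r := by
      rw [← hωω, hlr]
    exact mul_left_cancel₀ hl.ne' h3
  · have h3 := key w hjw hkw (t / ω)
    have e1 : ω * (t / ω) = t := by field_simp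
    rw [e1, hlr, div_self hω0.ne', one_mul] at h3
    exact h3

end Pool.Q193.HP
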