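import Mathlib
import Pool.Agent.Q193.HP.Three

/-!
# A space with three irreducible hermitian projections is a Hilbert space
-/

set_option autoImplicit false

namespace Pool.Q193.HP

open Filter Topology

variable {U V Y X : Type*} [NormedAddCommGroup U] [NormedSpace ℂ U] [NormedAddCommGroup V]
  [NormedSpace ℂ V] [NormedAddCommGroup Y] [NormedSpace ℂ Y] [NormedAddCommGroup X]
  [NormedSpace ℂ X]

theorem unit_rep [Nontrivial V] (y : V) : ∃ v : V, ‖v‖ = 1 ∧ y = (‖y‖ : ℂ) • v := by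
  by_cases hy : y = 0
  · obtain ⟨v, hv⟩ := exists_ne (0 : V)
    have hv0 : ‖v‖ ≠ 0 := norm_ne_zero_iff.2 hv
    refine ⟨((‖v‖⁻¹ : ℝ) : ℂ) • v, ?_, ?_⟩
    · rw [norm_smul, Complex.norm_real, norm_inv, norm_norm, inv_mul_cancel₀ hv0]
    · rw [hy, norm_zero, Complex.ofReal_zero, zero_smul]
  · have hv0 : ‖y‖ ≠ 0 := norm_ne_zero_iff.2 hy
    refine ⟨((‖y‖⁻¹ : ℝ) : ℂ) • y, ?_, ?_⟩
    · rw [norm_smul, Complex.norm_real, norm_inv, norm_norm, inv_mul_cancel₀ hv0]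
    · rw [smul_smul, ← Complex.ofReal_mul, mul_inv_cancel₀ hv0, Complex.ofReal_one, one_smul]

theorem Inc.complete [CompleteSpace X] (j : Inc U X) : CompleteSpace U := by
  have h1 : Isometry j.i := AddMonoidHomClass.isometry_of_norm j.i j.ni
  have h2 : IsClosed (Set.range j.i) := by
    have h3 : Set.range j.i = {x | j.i (j.p x) = x} := by
      ext x
      constructor
      · rintro ⟨u, rfl⟩
        show j.i (j.p (j.i u)) = j.i u
        rw [j.pi]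
      · intro hx
        exact ⟨j.p x, hx⟩
    rw [h3]
    exact isClosed_eq (j.i.continuous.comp j.p.continuous) continuous_id
  exact (completeSpace_iff_isComplete_range h1.isUniformInducing).2 h2.isComplete

/-- rotations in a triple -/
theorem Trp.pair [CompleteSpace X] [Nontrivial U] [Nontrivial V] [Nontrivial Y] (hX : WL X)
    {j : Inc U X} {k : Inc V X} {l : Inc Y X} (h : Trp j k l) {x : U} {y : V} (hx : ‖x‖ = 1)
    (hy : ‖y‖ = 1) : ∃ u u', ∃ c : ℝ, Wp j k u u' ∧ 0 < c ∧ u y = (c : ℂ) • x ∧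
      u' x = (c : ℂ) • y ∧ ∀ (w : X), j.p w = 0 → k.p w = 0 → ∀ t : ℝ,
      ‖((Real.cos t : ℝ) : ℂ) • k.i y + ((Real.sin t : ℝ) : ℂ) • j.i x + w‖ = ‖k.i y + w‖ := by
  have := j.complete
  have := k.complete
  obtain ⟨u, u', c, r, hu, hc, hr, h1, h2⟩ := (Gn.ts h).rot (j.wl hX) (k.wl hX) hx hy
  obtain ⟨h3, h4⟩ := rot_norm h.jk (hu.wp h) hx hy hc hr h1 h2
  exact ⟨u, u', c, hu.wp h, hc, h1, by rw [h2, ← h3], h4⟩

/-- the norm and rotations -/
theorem Trp.norm_rot [CompleteSpace X] [Nontrivial U] [Nontrivial V] [Nontrivial Y] (hX : WL X)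
    {j : Inc U X} {k : Inc V X} {l : Inc Y X} (h : Trp j k l) {y₀ : V} (hy₀ : ‖y₀‖ = 1) (x : U)
    (y : V) (w : X) (hjw : j.p w = 0) (hkw : k.p w = 0) :
    ‖j.i x + k.i y + w‖ = ‖((Real.sqrt (‖x‖ ^ 2 + ‖y‖ ^ 2) : ℝ) : ℂ) • k.i y₀ + w‖ := by
  obtain ⟨x₁, hx₁, hx⟩ := unit_rep x
  obtain ⟨y₁, hy₁, hy⟩ := unit_rep y
  set R : ℝ := Real.sqrt (‖x‖ ^ 2 + ‖y‖ ^ 2) with hR
  have hR0 : 0 ≤ R := Real.sqrt_nonneg _
  have hRR : R ^ 2 = ‖x‖ ^ 2 + ‖y‖ ^ 2 := Real.sq_sqrt (by positivity)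
  rcases hR0.eq_or_lt with h0 | h0
  · have h1 : ‖x‖ = 0 := by nlinarith [norm_nonneg x, norm_nonneg y, sq_nonneg ‖y‖]
    have h2 : ‖y‖ = 0 := by nlinarith [norm_nonneg x, norm_nonneg y, sq_nonneg ‖x‖]
    rw [← h0, norm_eq_zero.1 h1, norm_eq_zero.1 h2]
    simp
  · have hscale : ∀ a b : X, ‖(R : ℂ) • a + b‖ = R * ‖a + ((R⁻¹ : ℝ) : ℂ) • b‖ := by
      intro a b
      have e1 : (R : ℂ) • a + b = (R : ℂ) • (a + ((R⁻¹ : ℝ) : ℂ) • b) := by
        rw [smul_add, smul_smul, ← Complex.ofReal_mul, mul_inv_cancel₀ h0.ne', Complex.ofReal_one,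
          one_smul]
      rw [e1, norm_smul, Complex.norm_real, Real.norm_of_nonneg h0.le]
    have hjw' : j.p (((R⁻¹ : ℝ) : ℂ) • w) = 0 := by rw [map_smul, hjw, smul_zero]
    have hkw' : k.p (((R⁻¹ : ℝ) : ℂ) • w) = 0 := by rw [map_smul, hkw, smul_zero]
    -- from `x₁` to any unit vector of `V`
    have hgen : ∀ y₂ : V, ‖y₂‖ = 1 → ∀ t : ℝ,
        ‖((Real.cos t : ℝ) : ℂ) • k.i y₂ + ((Real.sin t : ℝ) : ℂ) • j.i x₁ +
          ((R⁻¹ : ℝ) : ℂ) • w‖ = ‖j.i x₁ + ((R⁻¹ : ℝ) : ℂ) • w‖ := by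
      intro y₂ hy₂ t
      obtain ⟨u, u', c, _, _, _, _, hrot⟩ := h.pair hX hx₁ hy₂
      have h1 := hrot _ hjw' hkw' t
      have h2 := hrot _ hjw' hkw' (Real.pi / 2)
      rw [Real.cos_pi_div_two, Real.sin_pi_div_two, Complex.ofReal_zero, zero_smul, zero_add,
        Complex.ofReal_one, one_smul] at h2
      rw [h1, h2]
    have hcos : (‖y‖ / R) ^ 2 + (‖x‖ / R) ^ 2 = 1 := by
      rw [div_pow, div_pow, ← add_div, add_comm, ← hRR, div_self (by positivity)]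
    set t : ℝ := Real.arccos (‖y‖ / R) with ht
    have h1 : Real.cos t = ‖y‖ / R := by
      refine Real.cos_arccos ?_ ?_
      · have : 0 ≤ ‖y‖ / R := by positivity
        linarith
      · rw [div_le_one h0]
        exact abs_le_of_sq_le_sq' (by nlinarith [sq_nonneg ‖x‖]) h0.le |>.2
    have h2 : Real.sin t = ‖x‖ / R := by
      rw [ht, Real.sin_arccos]
      have e1 : 1 - (‖y‖ / R) ^ 2 = (‖x‖ / R) ^ 2 := by linarith
      rw [e1, Real.sqrt_sq (by positivity)]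
    have h3 := hgen y₁ hy₁ t
    have h4 := hgen y₀ hy₀ 0
    rw [Real.cos_zero, Real.sin_zero, Complex.ofReal_one, one_smul, Complex.ofReal_zero, zero_smul,
      add_zero] at h4
    rw [hscale, h4, ← h3, ← hscale]
    congr 2
    rw [h1, h2]
    conv_lhs => rw [hx, hy, map_smul, map_smul]
    rw [smul_add, smul_smul, smul_smul, ← Complex.ofReal_mul, ← Complex.ofReal_mul,
      mul_div_cancel₀ _ h0.ne', mul_div_cancel₀ _ h0.ne', add_comm]

/-- the norm of a triple is the `ℓ₂` sum -/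
theorem Trp.norm_sq [CompleteSpace X] [Nontrivial U] [Nontrivial V] [Nontrivial Y] (hX : WL X)
    {j : Inc U X} {k : Inc V X} {l : Inc Y X} (h : Trp j k l) (x : U) (y : V) (z : Y) :
    ‖j.i x + k.i y + l.i z‖ ^ 2 = ‖x‖ ^ 2 + ‖y‖ ^ 2 + ‖z‖ ^ 2 := by
  obtain ⟨y₁, hy₁, _⟩ := unit_rep y
  obtain ⟨z₁, hz₁, _⟩ := unit_rep z
  rw [h.norm_rot hX hy₁ x y (l.i z) (h.jl.l z) (h.kl.l z)]
  set R : ℝ := Real.sqrt (‖x‖ ^ 2 + ‖y‖ ^ 2) with hR
  have hRR : R ^ 2 = ‖x‖ ^ 2 + ‖y‖ ^ 2 := Real.sq_sqrt (by positivity)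
  have h2 := (h.swap.swap').norm_rot hX hz₁ ((R : ℂ) • y₁) z 0 (map_zero _) (map_zero _)
  rw [add_zero, add_zero, map_smul, norm_smul, norm_smul, l.ni, hz₁, mul_one, Complex.norm_real,
    Complex.norm_real, hy₁, mul_one, Real.norm_of_nonneg (Real.sqrt_nonneg _)] at h2
  rw [h2, Real.sq_sqrt (by positivity), Real.norm_eq_abs, sq_abs, hRR]

/-- the support functionals of `V` depend linearly on the vector -/
theorem Trp.lin [CompleteSpace X] [Nontrivial U] [Nontrivial V] [Nontrivial Y] (hX : WL X)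
    {j : Inc U X} {k : Inc V X} {l : Inc Y X} (h : Trp j k l)
    (hsum : ∀ z : X, j.i (j.p z) + k.i (k.p z) + l.i (l.p z) = z) (y : V) :
    ∃ L : V → ℝ, (∀ g h, L (g + h) = L g + L h) ∧ (∀ g, L (-g) = - L g) ∧
      ∀ (g : V) (κ : V →L[ℂ] ℂ), Sp g κ → ‖g‖ * (κ y).re = L g := by
  obtain ⟨x₁, hx₁, _⟩ := unit_rep (0 : U)
  obtain ⟨y₁, hy₁, hy⟩ := unit_rep y
  obtain ⟨u, u', c, hu, hc, h1, h2, _⟩ := h.pair hX hx₁ hy₁
  obtain ⟨f, hf⟩ := exists_sp x₁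
  refine ⟨fun g => ‖y‖ * (c⁻¹ * (f (u g)).re), fun g h => ?_, fun g => ?_, fun g κ hκ => ?_⟩
  · simp only [map_add, Complex.add_re]
    ring
  · simp only [map_neg, Complex.neg_re]
    ring
  · -- the support functional at `x₁ + g`
    set N : ℝ := Real.sqrt (1 + ‖g‖ ^ 2) with hN
    have hN0 : 0 < N := Real.sqrt_pos.2 (by positivity)
    have hNN : N ^ 2 = 1 + ‖g‖ ^ 2 := Real.sq_sqrt (by positivity)
    set F : X →L[ℂ] ℂ := f.comp j.p + (‖g‖ : ℂ) • κ.comp k.p with hF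
    have hFa : ∀ z, F z = f (j.p z) + ‖g‖ * κ (k.p z) := fun z => rfl
    have hS : Sp (j.i x₁ + k.i g) (((N⁻¹ : ℝ) : ℂ) • F) := by
      refine ⟨?_, ?_⟩
      · refine ContinuousLinearMap.opNorm_le_bound _ zero_le_one (fun z => ?_)
        rw [smul_apply, smul_eq_mul, norm_mul, Complex.norm_real, norm_inv,
          Real.norm_of_nonneg hN0.le, one_mul, inv_mul_le_iff₀ hN0, hFa]
        have h3 : ‖f (j.p z) + ‖g‖ * κ (k.p z)‖ ≤ ‖j.p z‖ + ‖g‖ * ‖k.p z‖ := by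
          refine (norm_add_le _ _).trans ?_
          rw [norm_mul, Complex.norm_real, norm_norm]
          have h4 := hf.norm_le (j.p z)
          have h5 := hκ.norm_le (k.p z)
          have h6 := norm_nonneg g
          gcongr
        have h4 := h.norm_sq hX (j.p z) (k.p z) (l.p z)
        rw [hsum] at h4
        have h5 := norm_nonneg (j.p z)
        have h6 := norm_nonneg (k.p z)
        have h7 := norm_nonneg (l.p z)
        have h8 : (‖j.p z‖ + ‖g‖ * ‖k.p z‖) ^ 2 ≤ (N * ‖z‖) ^ 2 := by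
          rw [mul_pow, hNN, h4]
          nlinarith [sq_nonneg (‖k.p z‖ - ‖g‖ * ‖j.p z‖), sq_nonneg ‖l.p z‖,
            mul_nonneg (sq_nonneg ‖g‖) (sq_nonneg ‖l.p z‖)]
        exact h3.trans (abs_le_of_sq_le_sq' h8 (by positivity)).2
      · have ej : j.p (j.i x₁ + k.i g) = x₁ := by rw [map_add, j.pi, h.jk.l, add_zero]
        have ek : k.p (j.i x₁ + k.i g) = g := by rw [map_add, k.pi, h.jk.r, zero_add]
        rw [smul_apply, hFa, ej, ek, hf.2, hκ.2, hx₁]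
        have h3 := h.norm_sq hX x₁ g 0
        rw [map_zero, add_zero, norm_zero, hx₁] at h3
        have h4 : ‖j.i x₁ + k.i g‖ = N := by
          have h5 : ‖j.i x₁ + k.i g‖ ^ 2 = N ^ 2 := by rw [h3, hNN]; ring
          exact (pow_left_inj₀ (norm_nonneg _) hN0.le two_ne_zero).1 h5
        rw [h4, smul_eq_mul, ← Complex.ofReal_mul, ← Complex.ofReal_add, ← Complex.ofReal_mul]
        congr 1
        rw [show (1 : ℝ) + ‖g‖ * ‖g‖ = N * N by nlinarith]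
        field_simp
    have h3 := hu _ _ hS
    have h4 : od j k u u' (j.i x₁ + k.i g) = j.i (u g) - (c : ℂ) • k.i y₁ := by
      rw [map_add, od_l h.jk, od_r h.jk, h2, map_smul]
      abel
    have ej : j.p (j.i (u g) - (c : ℂ) • k.i y₁) = u g := by
      rw [map_sub, j.pi, map_smul, h.jk.l, smul_zero, sub_zero]
    have ek : k.p (j.i (u g) - (c : ℂ) • k.i y₁) = - ((c : ℂ) • y₁) := by
      rw [map_sub, map_smul, k.pi, h.jk.r, zero_sub]
    rw [h4, smul_apply, hFa, ej, ek, map_neg, map_smul, smul_eq_mul, smul_eq_mul,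
      Complex.re_ofReal_mul] at h3
    have h5 : (f (u g) + ‖g‖ * -(c * κ y₁)).re = 0 := by
      rcases mul_eq_zero.1 h3 with h6 | h6
      · exact absurd h6 (inv_ne_zero hN0.ne')
      · exact h6
    have h6 : (f (u g)).re = ‖g‖ * (c * (κ y₁).re) := by
      rw [Complex.add_re, Complex.re_ofReal_mul, Complex.neg_re, Complex.re_ofReal_mul] at h5
      linarith
    have h7 : (κ y).re = ‖y‖ * (κ y₁).re := by
      conv_lhs => rw [hy]
      rw [map_smul, smul_eq_mul, Complex.re_ofReal_mul]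
    show ‖g‖ * (κ y).re = ‖y‖ * (c⁻¹ * (f (u g)).re)
    rw [h6, h7]
    field_simp

/-- the parallelogram law in `V` -/
theorem Trp.par [CompleteSpace X] [Nontrivial U] [Nontrivial V] [Nontrivial Y] (hX : WL X)
    {j : Inc U X} {k : Inc V X} {l : Inc Y X} (h : Trp j k l)
    (hsum : ∀ z : X, j.i (j.p z) + k.i (k.p z) + l.i (l.p z) = z) (y z : V) :
    ‖y + z‖ ^ 2 + ‖y - z‖ ^ 2 = 2 * (‖y‖ ^ 2 + ‖z‖ ^ 2) := by
  obtain ⟨L, hL1, hL2, hL⟩ := h.lin hX hsum y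
  obtain ⟨M, hM1, hM2, hM⟩ := h.lin hX hsum z
  have key : ∀ g : V, ∃ κ : V →L[ℂ] ℂ, Sp g κ := fun g => exists_sp g
  obtain ⟨κ₁, h1⟩ := key (y + z)
  obtain ⟨κ₂, h2⟩ := key (y - z)
  obtain ⟨κ₃, h3⟩ := key y
  obtain ⟨κ₄, h4⟩ := key z
  have e1 : ‖y + z‖ ^ 2 = L (y + z) + M (y + z) := by
    rw [← hL _ κ₁ h1, ← hM _ κ₁ h1, ← mul_add, ← Complex.add_re, ← map_add, h1.re_self]
    ring
  have e2 : ‖y - z‖ ^ 2 = L (y - z) - M (y - z) := by
    rw [← hL _ κ₂ h2, ← hM _ κ₂ h2, ← mul_sub, ← Complex.sub_re, ← map_sub, h2.re_self]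
    ring
  have e3 : ‖y‖ ^ 2 = L y := by
    rw [← hL _ κ₃ h3, h3.re_self]
    ring
  have e4 : ‖z‖ ^ 2 = M z := by
    rw [← hM _ κ₄ h4, h4.re_self]
    ring
  rw [e1, e2, e3, e4, sub_eq_add_neg y z, hL1, hM1, hL1, hM1, hL2, hM2]
  ring

/-- **Theorem on three hermitian projections** -/
theorem Trp.hilbert [CompleteSpace X] [Nontrivial U] [Nontrivial V] [Nontrivial Y] (hX : WL X)
    {j : Inc U X} {k : Inc V X} {l : Inc Y X} (h : Trp j k l)
    (hsum : ∀ z : X, j.i (j.p z) + k.i (k.p z) + l.i (l.p z) = z) (z w : X) :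
    ‖z + w‖ ^ 2 + ‖z - w‖ ^ 2 = 2 * (‖z‖ ^ 2 + ‖w‖ ^ 2) := by
  have hn : ∀ z : X, ‖z‖ ^ 2 = ‖j.p z‖ ^ 2 + ‖k.p z‖ ^ 2 + ‖l.p z‖ ^ 2 := by
    intro z
    have h1 := h.norm_sq hX (j.p z) (k.p z) (l.p z)
    rwa [hsum] at h1
  have h1 := h.par hX hsum (k.p z) (k.p w)
  have h2 := h.swap.par hX (fun z => by rw [add_comm (k.i (k.p z))]; exact hsum z) (j.p z) (j.p w)
  have h3 := h.swap'.par hX (fun z => by rw [add_right_comm]; exact hsum z) (l.p z) (l.p w)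
  rw [hn (z + w), hn (z - w), hn z, hn w]
  simp only [map_add, map_sub]
  linarith

end Pool.Q193.HP
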