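import Mathlib

/-!
# Baire category for complex linear isometries (as in `H305R3/Rot/Near.lean`)
-/

set_option autoImplicit false
set_option linter.unusedSectionVars false

namespace Pool.Q193.HP

open TopologicalSpace Metric

variable {E : Type*} [NormedAddCommGroup E] [NormedSpace ℂ E]

/-- Baire category: if the linear isometries act transitively on the unit sphere of a separable
Banach space, then the orbit maps are nearly open. -/
theorem near_openC [CompleteSpace E] [SeparableSpace E]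
    (htr : ∀ x y : E, ‖x‖ = 1 → ‖y‖ = 1 → ∃ T : E ≃ₗᵢ[ℂ] E, T x = y)
    {ι : Type} [Finite ι] (e : ι → E) (x : E) (hx : ‖x‖ = 1) {κ : ℝ} (hκ : 0 < κ) :
    ∃ t : ℝ, 0 < t ∧ ∀ y : E, ‖y‖ = 1 → ‖y - x‖ ≤ t → ∀ η : ℝ, 0 < η →
      ∃ T : E ≃ₗᵢ[ℂ] E, ‖T x - y‖ ≤ η ∧ ∀ i, ‖T (e i) - e i‖ ≤ κ := by
  have := Fintype.ofFinite ι
  have : SecondCountableTopology E := UniformSpace.secondCountable_of_separable E
  -- countable cover
  set F : (E ≃ₗᵢ[ℂ] E) → (ι → E) := fun T i => T (e i) with hF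
  obtain ⟨D, hDc, hD⟩ := TopologicalSpace.isOpen_iUnion_countable
    (fun T : E ≃ₗᵢ[ℂ] E => ball (F T) (κ / 2)) (fun T => isOpen_ball)
  have : Countable D := hDc.to_subtype
  have hcov : ∀ T : E ≃ₗᵢ[ℂ] E, ∃ g : D, ∀ i, ‖T (e i) - (g : E ≃ₗᵢ[ℂ] E) (e i)‖ ≤ κ / 2 := by
    intro T
    have h1 : F T ∈ ⋃ i ∈ D, ball (F i) (κ / 2) := by
      rw [hD]
      exact Set.mem_iUnion.2 ⟨T, mem_ball_self (by positivity)⟩
    obtain ⟨g, hg, h2⟩ := Set.mem_iUnion₂.1 h1
    refine ⟨⟨g, hg⟩, fun i => ?_⟩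
    rw [mem_ball, dist_pi_lt_iff (by positivity)] at h2
    have := h2 i
    rw [dist_eq_norm] at this
    exact this.le
  -- the orbit of x under the neighbourhood
  set A : Set E := {z | ∃ T : E ≃ₗᵢ[ℂ] E, (∀ i, ‖T (e i) - e i‖ ≤ κ / 2) ∧ T x = z} with hA
  set S : Set E := sphere (0 : E) 1 with hS
  have : CompleteSpace S := (isClosed_sphere).completeSpace_coe
  have : Nonempty S := ⟨⟨x, by rw [hS, mem_sphere_zero_iff_norm]; exact hx⟩⟩
  set f : D → Set S := fun g => {y : S | (g : E ≃ₗᵢ[ℂ] E).symm (y : E) ∈ closure A} with hf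
  have hfc : ∀ g, IsClosed (f g) := by
    intro g
    exact isClosed_closure.preimage
      ((g : E ≃ₗᵢ[ℂ] E).symm.continuous.comp continuous_subtype_val)
  have hU : ⋃ g, f g = Set.univ := by
    rw [Set.eq_univ_iff_forall]
    rintro ⟨y, hy⟩
    rw [hS, mem_sphere_zero_iff_norm] at hy
    obtain ⟨T, hT⟩ := htr x y hx hy
    obtain ⟨g, hg⟩ := hcov T
    refine Set.mem_iUnion.2 ⟨g, ?_⟩
    show (g : E ≃ₗᵢ[ℂ] E).symm y ∈ closure A
    refine subset_closure ⟨T.trans (g : E ≃ₗᵢ[ℂ] E).symm, fun i => ?_, ?_⟩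
    · rw [LinearIsometryEquiv.trans_apply]
      have h1 : (g : E ≃ₗᵢ[ℂ] E).symm (T (e i)) - e i =
          (g : E ≃ₗᵢ[ℂ] E).symm (T (e i) - (g : E ≃ₗᵢ[ℂ] E) (e i)) := by
        rw [map_sub, LinearIsometryEquiv.symm_apply_apply]
      rw [h1, LinearIsometryEquiv.norm_map]
      exact hg i
    · rw [LinearIsometryEquiv.trans_apply, hT]
  obtain ⟨g, y0, hy0⟩ := nonempty_interior_of_iUnion_of_closed hfc hU
  rw [mem_interior_iff_mem_nhds, Metric.mem_nhds_iff] at hy0
  obtain ⟨r, hr0, hr⟩ := hy0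
  set G : E ≃ₗᵢ[ℂ] E := (g : E ≃ₗᵢ[ℂ] E) with hG
  have hr' : ∀ y : E, ‖y‖ = 1 → ‖y - y0‖ < r → G.symm y ∈ closure A := by
    intro y hy hyr
    have h1 : (⟨y, by rw [hS, mem_sphere_zero_iff_norm]; exact hy⟩ : S) ∈ ball y0 r := by
      rw [mem_ball, Subtype.dist_eq, dist_eq_norm]
      exact hyr
    exact hr h1
  have hy0n : ‖(y0 : E)‖ = 1 := mem_sphere_zero_iff_norm.1 y0.2
  have h0 : G.symm (y0 : E) ∈ closure A := hr' y0 hy0n (by simpa using hr0)
  obtain ⟨a, ⟨v, hv1, rfl⟩, hv2⟩ := Metric.mem_closure_iff.1 h0 (r / 2) (by positivity)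
  rw [dist_eq_norm] at hv2
  refine ⟨r / 4, by positivity, fun y hy hyx η hη => ?_⟩
  have h1 : v y ∈ closure A := by
    have h2 : G.symm (G (v y)) ∈ closure A := by
      refine hr' _ (by rw [G.norm_map, v.norm_map, hy]) ?_
      have h3 : G (v y) - (y0 : E) = G (v (y - x)) + G (v x - G.symm y0) := by
        rw [← map_add, map_sub v]
        have : v y - v x + (v x - G.symm (y0 : E)) = v y - G.symm (y0 : E) := by abel
        rw [this, map_sub G, G.apply_symm_apply]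
      rw [h3]
      refine (norm_add_le _ _).trans_lt ?_
      rw [G.norm_map, G.norm_map, v.norm_map, norm_sub_rev (v x)]
      linarith
    rwa [G.symm_apply_apply] at h2
  obtain ⟨a, ⟨T, hT1, rfl⟩, hT2⟩ := Metric.mem_closure_iff.1 h1 η hη
  rw [dist_eq_norm] at hT2
  refine ⟨T.trans v.symm, ?_, fun i => ?_⟩
  · rw [LinearIsometryEquiv.trans_apply]
    have h2 : v.symm (T x) - y = v.symm (T x - v y) := by
      rw [map_sub, v.symm_apply_apply]
    rw [h2, v.symm.norm_map, norm_sub_rev]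
    exact hT2.le
  · rw [LinearIsometryEquiv.trans_apply]
    have h2 : v.symm (T (e i)) - e i = v.symm ((T (e i) - e i) - (v (e i) - e i)) := by
      rw [sub_sub_sub_cancel_right, map_sub, v.symm_apply_apply]
    rw [h2, v.symm.norm_map]
    refine (norm_sub_le _ _).trans ?_
    have := hT1 i
    have := hv1 i
    linarith

end Pool.Q193.HP
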