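import Mathlib
import Pool.Agent.Q193.HP.Sk
import Pool.Agent.Q193.HP.Near

/-!
# Transitivity and ranges of skew operators (complex version of `BF/Skew.lean`)
-/

set_option autoImplicit false

namespace Pool.Q193.HP

open Filter Topology

variable {E : Type*} [NormedAddCommGroup E] [NormedSpace ℂ E]

/-- conjugation by an isometry -/
noncomputable def cj (T : E ≃ₗᵢ[ℂ] E) (A : E →L[ℂ] E) : E →L[ℂ] E :=
  ((T : E →L[ℂ] E).comp A).comp (T.symm : E →L[ℂ] E)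

theorem cj_apply (T : E ≃ₗᵢ[ℂ] E) (A : E →L[ℂ] E) (x : E) : cj T A x = T (A (T.symm x)) := rfl

theorem SkC.cj {A : E →L[ℂ] E} (hA : SkC A) (T : E ≃ₗᵢ[ℂ] E) : SkC (cj T A) := by
  have h1 := hA.conj (T : E →L[ℂ] E) (T.symm : E →L[ℂ] E) (fun y => (T.norm_map y).le)
    (fun y => T.symm.norm_map y) (fun y => T.apply_symm_apply y)
  exact h1

/-- Transitivity: if a skew operator `A` kills `x ≠ 0`, its range is contained in the closure of
the vectors `B x`, `B` skew. -/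
theorem range_subsetC [CompleteSpace E] [TopologicalSpace.SeparableSpace E]
    (htr : ∀ x y : E, ‖x‖ = 1 → ‖y‖ = 1 → ∃ T : E ≃ₗᵢ[ℂ] E, T x = y)
    {A : E →L[ℂ] E} (hA : SkC A) {x : E} (hx : ‖x‖ = 1) (hAx : A x = 0) (w : E) {δ : ℝ}
    (hδ : 0 < δ) : ∃ B : E →L[ℂ] E, SkC B ∧ ‖B x - A w‖ ≤ δ := by
  set κ : ℝ := δ / (2 * (‖A‖ + 1)) with hκ
  have hA0 : 0 ≤ ‖A‖ := norm_nonneg A
  have hκ0 : 0 < κ := by positivity
  obtain ⟨t, ht, hnear⟩ := near_openC htr (![w, A w]) x hx hκ0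
  -- a small step
  set M : ℝ := 6 * ‖A‖ + 2 * ‖w‖ + 2 / t * ‖w‖ + 1 + 2 * (6 * ‖A‖) / δ with hM
  have hM1 : 1 ≤ M := by
    have h1 : 0 ≤ 6 * ‖A‖ := by positivity
    have h2 : 0 ≤ 2 * ‖w‖ := by positivity
    have h3 : 0 ≤ 2 / t * ‖w‖ := by positivity
    have h4 : 0 ≤ 2 * (6 * ‖A‖) / δ := by positivity
    linarith
  have hM0 : 0 < M := by linarith
  set ε : ℝ := 1 / M with hε
  have hε0 : 0 < ε := by positivity
  have hε1 : ε ≤ 1 := by rw [hε, div_le_one hM0]; exact hM1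
  have hεw : ε * (2 * ‖w‖) ≤ 1 := by
    rw [hε, one_div, inv_mul_le_iff₀ hM0, mul_one]
    have h1 : 0 ≤ 6 * ‖A‖ := by positivity
    have h3 : 0 ≤ 2 / t * ‖w‖ := by positivity
    have h4 : 0 ≤ 2 * (6 * ‖A‖) / δ := by positivity
    linarith
  have hεt : ε * (2 * ‖w‖) ≤ t := by
    have h5 : 2 / t * ‖w‖ ≤ M := by
      have h1 : 0 ≤ 6 * ‖A‖ := by positivity
      have h2 : 0 ≤ 2 * ‖w‖ := by positivity
      have h4 : 0 ≤ 2 * (6 * ‖A‖) / δ := by positivity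
      linarith
    have h6 : 2 * ‖w‖ ≤ M * t := by
      have := mul_le_mul_of_nonneg_right h5 ht.le
      have h7 : 2 / t * ‖w‖ * t = 2 * ‖w‖ := by field_simp
      linarith
    rw [hε, one_div, inv_mul_le_iff₀ hM0]
    exact h6
  have hεA : ε * (6 * ‖A‖) ≤ δ / 2 := by
    have h5 : 2 * (6 * ‖A‖) / δ ≤ M := by
      have h1 : 0 ≤ 6 * ‖A‖ := by positivity
      have h2 : 0 ≤ 2 * ‖w‖ := by positivity
      have h3 : 0 ≤ 2 / t * ‖w‖ := by positivity
      linarith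
    have h6 : 2 * (6 * ‖A‖) ≤ M * δ := by
      rw [div_le_iff₀ hδ] at h5
      exact h5
    rw [hε, one_div, inv_mul_le_iff₀ hM0]
    linarith
  -- the vector `x + ε w`
  set lam : ℝ := ‖x + (ε : ℂ) • w‖ with hlam
  have hnw : ‖(ε : ℂ) • w‖ = ε * ‖w‖ := by
    rw [norm_smul, Complex.norm_real, Real.norm_of_nonneg hε0.le]
  have hl1 : lam ≤ 1 + ε * ‖w‖ := by
    have := norm_add_le x ((ε : ℂ) • w)
    rw [hx, hnw] at this
    exact this
  have hl2 : 1 - ε * ‖w‖ ≤ lam := by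
    have := norm_sub_norm_le x (-((ε : ℂ) • w))
    rw [sub_neg_eq_add, norm_neg, hx, hnw] at this
    exact this
  have hl3 : 1 / 2 ≤ lam := by linarith
  have hl4 : lam ≤ 3 / 2 := by linarith
  have hl0 : 0 < lam := by linarith
  have hlc : (lam : ℂ) * ((lam⁻¹ : ℝ) : ℂ) = 1 := by
    rw [← Complex.ofReal_mul, mul_inv_cancel₀ hl0.ne', Complex.ofReal_one]
  set y : E := ((lam⁻¹ : ℝ) : ℂ) • (x + (ε : ℂ) • w) with hy
  have hyn : ‖y‖ = 1 := by
    rw [hy, norm_smul, Complex.norm_real, norm_inv, Real.norm_of_nonneg hl0.le, ← hlam,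
      inv_mul_cancel₀ hl0.ne']
  have hyx : ‖y - x‖ ≤ t := by
    have h1 : y - x = (y - (lam : ℂ) • y) + ((lam : ℂ) • y - x) := by abel
    have h2 : (lam : ℂ) • y = x + (ε : ℂ) • w := by
      rw [hy, smul_smul, hlc, one_smul]
    have h3 : ‖y - (lam : ℂ) • y‖ ≤ ε * ‖w‖ := by
      have h4 : y - (lam : ℂ) • y = ((1 - lam : ℝ) : ℂ) • y := by
        rw [Complex.ofReal_sub, Complex.ofReal_one, sub_smul, one_smul]
      rw [h4, norm_smul, hyn, mul_one, Complex.norm_real, Real.norm_eq_abs, abs_le]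
      constructor <;> linarith
    have h5 : ‖(lam : ℂ) • y - x‖ = ε * ‖w‖ := by
      rw [h2, add_sub_cancel_left, hnw]
    rw [h1]
    have h6 := norm_add_le (y - (lam : ℂ) • y) ((lam : ℂ) • y - x)
    linarith
  obtain ⟨T, hT1, hT2⟩ := hnear y hyn hyx (ε ^ 2) (by positivity)
  have hTw : ‖T w - w‖ ≤ κ := hT2 0
  have hTAw : ‖T (A w) - A w‖ ≤ κ := hT2 1
  -- the operator
  set B : E →L[ℂ] E := cj T A - A with hB
  have hBsk : SkC B := (hA.cj T).sub hA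
  have hBn : ∀ z, ‖B z‖ ≤ 2 * ‖A‖ * ‖z‖ := by
    intro z
    have h1 : ‖cj T A z‖ ≤ ‖A‖ * ‖z‖ := by
      rw [cj_apply, T.norm_map]
      have := A.le_opNorm (T.symm z)
      rwa [T.symm.norm_map] at this
    have h2 := A.le_opNorm z
    have h3 : B z = cj T A z - A z := rfl
    rw [h3]
    have := norm_sub_le (cj T A z) (A z)
    linarith
  have hBw : ‖B w‖ ≤ (‖A‖ + 1) * κ := by
    have h3 : B w = T (A (T.symm w - w)) + (T (A w) - A w) := by
      show T (A (T.symm w)) - A w = _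
      rw [map_sub, map_sub]
      abel
    have h4 : ‖T.symm w - w‖ ≤ κ := by
      have : T.symm w - w = - T.symm (T w - w) := by
        rw [map_sub, T.symm_apply_apply]; abel
      rw [this, norm_neg, T.symm.norm_map]
      exact hTw
    have h5 : ‖T (A (T.symm w - w))‖ ≤ ‖A‖ * κ := by
      rw [T.norm_map]
      refine (A.le_opNorm _).trans ?_
      gcongr
    rw [h3]
    have := norm_add_le (T (A (T.symm w - w))) (T (A w) - A w)
    linarith
  -- the error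
  set r : E := T x - y with hr
  have hBT : B (T x) = - A (T x) := by
    show T (A (T.symm (T x))) - A (T x) = _
    rw [T.symm_apply_apply, hAx, map_zero, zero_sub]
  have hTx : T x = ((lam⁻¹ : ℝ) : ℂ) • (x + (ε : ℂ) • w) + r := by
    rw [hr, hy]; abel
  have hkey : B x = - ((ε : ℂ) • A w) - (ε : ℂ) • B w - (lam : ℂ) • (A r + B r) := by
    have h1 : (lam : ℂ) • B (T x) = B x + (ε : ℂ) • B w + (lam : ℂ) • B r := by
      rw [hTx, map_add, map_smul, map_add, map_smul, smul_add, smul_smul,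
        hlc, one_smul]
    have h2 : (lam : ℂ) • A (T x) = (ε : ℂ) • A w + (lam : ℂ) • A r := by
      rw [hTx, map_add, map_smul, map_add, map_smul, smul_add, smul_smul,
        hlc, one_smul, hAx, zero_add]
    have h3 : B x + (ε : ℂ) • B w + (lam : ℂ) • B r = - ((ε : ℂ) • A w + (lam : ℂ) • A r) := by
      rw [← h1, ← h2, hBT, smul_neg]
    have h4 : B x = - ((ε : ℂ) • A w + (lam : ℂ) • A r) - (ε : ℂ) • B w - (lam : ℂ) • B r := by
      rw [← h3]; abel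
    rw [h4, smul_add]
    abel
  refine ⟨((-ε⁻¹ : ℝ) : ℂ) • B, hBsk.smul _, ?_⟩
  have h1 : (((-ε⁻¹ : ℝ) : ℂ) • B) x - A w = B w + ((ε⁻¹ * lam : ℝ) : ℂ) • (A r + B r) := by
    rw [smul_apply, hkey, smul_sub, smul_sub, smul_neg, smul_smul, smul_smul, smul_smul,
      ← Complex.ofReal_mul, ← Complex.ofReal_mul]
    have e1 : -ε⁻¹ * ε = -1 := by field_simp
    rw [e1, Complex.ofReal_neg, Complex.ofReal_one, neg_mul, Complex.ofReal_neg]
    simp only [neg_smul, one_smul, neg_neg]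
    abel
  have hr2 : ‖A r + B r‖ ≤ 3 * ‖A‖ * ε ^ 2 := by
    have h2 := A.le_opNorm r
    have h3 := hBn r
    have h4 := norm_add_le (A r) (B r)
    have h5 : ‖r‖ ≤ ε ^ 2 := hT1
    have h6 : ‖A‖ * ‖r‖ ≤ ‖A‖ * ε ^ 2 := by gcongr
    nlinarith
  rw [h1]
  have h2 : ‖((ε⁻¹ * lam : ℝ) : ℂ) • (A r + B r)‖ ≤ 9 / 2 * (‖A‖ * ε) := by
    rw [norm_smul, Complex.norm_real, Real.norm_of_nonneg (by positivity)]
    have h3 : ε⁻¹ * lam * ‖A r + B r‖ ≤ ε⁻¹ * (3 / 2) * (3 * ‖A‖ * ε ^ 2) := by gcongr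
    have h4 : ε⁻¹ * (3 / 2) * (3 * ‖A‖ * ε ^ 2) = 9 / 2 * (‖A‖ * ε) := by
      field_simp
      ring
    linarith
  have h3 : (‖A‖ + 1) * κ = δ / 2 := by
    rw [hκ]; field_simp
  have h4 := norm_add_le (B w) (((ε⁻¹ * lam : ℝ) : ℂ) • (A r + B r))
  have h5 : 0 ≤ ‖A‖ * ε := by positivity
  linarith

end Pool.Q193.HP
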