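import Mathlib
import Pool.Agent.Q193.HP.Hilb
import Pool.Agent.Q193.HP.Rg

/-!
# Jordan pair structures
-/

set_option autoImplicit false

namespace Pool.Q193.HP

open Filter Topology Polynomial

variable {U V : Type*} [NormedAddCommGroup U] [NormedSpace ℂ U] [NormedAddCommGroup V]
  [NormedSpace ℂ V]

/-- Jordan pair structures -/
structure JS (W : (V →L[ℂ] U) → (U →L[ℂ] V) → Prop) : Prop extends PS W where
  jor : ∀ {a a' b b'}, W a a' → W b b' → W (a.comp (b'.comp a)) (a'.comp (b.comp a'))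
  i1 : ∀ y : V, y ≠ 0 → ∀ (x : U) (δ : ℝ), 0 < δ → ∃ a a', W a a' ∧ ‖a y - x‖ ≤ δ
  i2 : ∀ x : U, x ≠ 0 → ∀ (y : V) (δ : ℝ), 0 < δ → ∃ a a', W a a' ∧ ‖a' x - y‖ ≤ δ

variable {W : (V →L[ℂ] U) → (U →L[ℂ] V) → Prop}

/-- polarised triple product -/
theorem JS.jor2 (h : JS W) {a a' b b' d d'} (ha : W a a') (hb : W b b') (hd : W d d') :
    W (a.comp (b'.comp d) + d.comp (b'.comp a)) (d'.comp (b.comp a') + a'.comp (b.comp d')) := by
  have h1 := h.jor (h.add ha hd) hb
  have h2 := h.sub (h.sub h1 (h.jor ha hb)) (h.jor hd hb)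
  have e1 : (a + d).comp (b'.comp (a + d)) - a.comp (b'.comp a) - d.comp (b'.comp d) =
      a.comp (b'.comp d) + d.comp (b'.comp a) := by
    ext y
    simp only [sub_apply, add_apply, ContinuousLinearMap.comp_apply, map_add]
    abel
  have e2 : (a' + d').comp (b.comp (a' + d')) - a'.comp (b.comp a') - d'.comp (b.comp d') =
      d'.comp (b.comp a') + a'.comp (b.comp d') := by
    ext y
    simp only [sub_apply, add_apply, ContinuousLinearMap.comp_apply, map_add]
    abel
  rwa [e1, e2] at h2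

/-- general principle: polynomials in `β` with `β ^ k v ∈ W` -/
theorem PS.pv_mem (h : PS W) {β : U →L[ℂ] U} {v : V →L[ℂ] U}
    {v' : U →L[ℂ] V}
    (hk : ∀ k : ℕ, W ((β ^ k).comp v) (v'.comp (β ^ k))) (p : ℝ[X]) :
    W ((pv β p).comp v) (v'.comp (pv β p)) := by
  induction p using Polynomial.induction_on' with
  | add p q hp hq =>
    rw [pv_add, ContinuousLinearMap.add_comp, ContinuousLinearMap.comp_add]
    exact h.add hp hq
  | monomial n a =>
    rw [← C_mul_X_pow_eq_monomial, pv_mul, pv_pow, pv_X, pv_C, smul_mul_assoc, one_mul,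
      ContinuousLinearMap.smul_comp, ContinuousLinearMap.comp_smul]
    exact h.smul a (hk n)

theorem hm_one : Hm (1 : U →L[ℂ] U) := by
  intro x f hf
  show (f x).im = 0
  rw [hf.2, Complex.ofReal_im]

/-- the powers of `T = u u'` -/
theorem JS.pow_mem (h : JS W) {u : V →L[ℂ] U} {u' : U →L[ℂ] V} (hu : W u u') (k : ℕ) :
    W (((u.comp u') ^ k).comp u) (u'.comp ((u.comp u') ^ k)) := by
  induction k with
  | zero => exact hu
  | succ k ih =>
    have h1 := h.jor hu ih
    have e1 : ((u.comp u') ^ (k + 1)).comp u = u.comp ((u'.comp ((u.comp u') ^ k)).comp u) := by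
      rw [pow_succ']; rfl
    have e2 : u'.comp ((u.comp u') ^ (k + 1)) = u'.comp ((((u.comp u') ^ k).comp u).comp u') := by
      rw [pow_succ]; rfl
    rw [e1, e2]
    exact h1

theorem JS.hmP (h : JS W) {u : V →L[ℂ] U} {u' : U →L[ℂ] V} (hu : W u u') : HmP (u.comp u') := by
  intro n
  cases n with
  | zero => exact hm_one
  | succ n =>
    intro x f hf
    have h1 := h.h1 (h.pow_mem hu n) hu hf
    have e1 : (((u.comp u') ^ n).comp u) (u' x) = ((u.comp u') ^ (n + 1)) x := by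
      rw [pow_succ]; rfl
    have e2 : u ((u'.comp ((u.comp u') ^ n)) x) = ((u.comp u') ^ (n + 1)) x := by
      rw [pow_succ']; rfl
    rw [e1, e2] at h1
    exact Complex.conj_eq_iff_im.1 h1.symm

/-! ### weakly continuous functionals -/

/-- weakly continuous real functionals on operators -/
structure WF (φ : (V →L[ℂ] U) → ℝ) : Prop where
  add : ∀ a b, φ (a + b) = φ a + φ b
  smul : ∀ (c : ℝ) a, φ ((c : ℂ) • a) = c * φ a
  lim : ∀ {a : ℕ → (V →L[ℂ] U)} {b}, WLim a b → Tendsto (fun n => φ (a n)) om (𝓝 (φ b))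
  bd : ∃ C : ℝ, 0 ≤ C ∧ ∀ a, φ a ≤ C * ‖a‖

theorem WF.ev (g : U →L[ℂ] ℂ) (y : V) : WF (fun a : V →L[ℂ] U => (g (a y)).re) where
  add a b := by rw [add_apply, map_add, Complex.add_re]
  smul c a := by rw [smul_apply, map_smul, smul_eq_mul, Complex.re_ofReal_mul]
  lim h := (Complex.continuous_re.tendsto _).comp (h y g)
  bd := by
    refine ⟨‖g‖ * ‖y‖, by positivity, fun a => ?_⟩
    refine (Complex.re_le_norm _).trans ((g.le_opNorm _).trans ?_)
    have h1 := a.le_opNorm y
    have h2 := norm_nonneg g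
    calc ‖g‖ * ‖a y‖ ≤ ‖g‖ * (‖a‖ * ‖y‖) := by gcongr
      _ = ‖g‖ * ‖y‖ * ‖a‖ := by ring

theorem WF.neg {φ : (V →L[ℂ] U) → ℝ} (h : WF φ) (a) : φ (-a) = - φ a := by
  have := h.smul (-1) a
  simpa using this

theorem WF.sub {φ : (V →L[ℂ] U) → ℝ} (h : WF φ) (a b) : φ (a - b) = φ a - φ b := by
  rw [sub_eq_add_neg, h.add, h.neg, sub_eq_add_neg]

theorem WF.comb {φ ψ : (V →L[ℂ] U) → ℝ} (h : WF φ) (h' : WF ψ) (c d : ℝ) :
    WF (fun a => c * φ a + d * ψ a) where
  add a b := by rw [h.add, h'.add]; ring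
  smul r a := by rw [h.smul, h'.smul]; ring
  lim hl := ((h.lim hl).const_mul c).add ((h'.lim hl).const_mul d)
  bd := by
    obtain ⟨C, hC0, hC⟩ := h.bd
    obtain ⟨D, hD0, hD⟩ := h'.bd
    refine ⟨|c| * C + |d| * D, by positivity, fun a => ?_⟩
    have h1 : |φ a| ≤ C * ‖a‖ := by
      rw [abs_le]
      have h2 := hC (-a)
      rw [h.neg, norm_neg] at h2
      exact ⟨by linarith, hC a⟩
    have h2 : |ψ a| ≤ D * ‖a‖ := by
      rw [abs_le]
      have h2 := hD (-a)
      rw [h'.neg, norm_neg] at h2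
      exact ⟨by linarith, hD a⟩
    have h3 : c * φ a ≤ |c| * (C * ‖a‖) := by
      refine (le_abs_self _).trans ?_
      rw [abs_mul]
      gcongr
    have h4 : d * ψ a ≤ |d| * (D * ‖a‖) := by
      refine (le_abs_self _).trans ?_
      rw [abs_mul]
      gcongr
    calc c * φ a + d * ψ a ≤ |c| * (C * ‖a‖) + |d| * (D * ‖a‖) := add_le_add h3 h4
      _ = (|c| * C + |d| * D) * ‖a‖ := by ring

theorem op_zero {a : V →L[ℂ] U} (h : ∀ (g : U →L[ℂ] ℂ) (y : V), (g (a y)).re = 0) : a = 0 := by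
  ext y
  rw [zero_apply]
  obtain ⟨g, hg⟩ := exists_sp (a y)
  have h1 := h g y
  rw [hg.re_self] at h1
  exact norm_eq_zero.1 h1

/-- a countable separating family -/
theorem exists_sep [TopologicalSpace.SeparableSpace U] [TopologicalSpace.SeparableSpace V] :
    ∃ φ : ℕ → (V →L[ℂ] U) → ℝ, (∀ n, WF (φ n)) ∧ ∀ a, (∀ n, φ n a = 0) → a = 0 := by
  have h1 : ∀ n : ℕ, ∃ g : U →L[ℂ] ℂ, Sp (TopologicalSpace.denseSeq U n) g := fun n => exists_sp _
  choose g hg using h1
  obtain ⟨s, hs⟩ := exists_surjective_nat (ℕ × ℕ)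
  refine ⟨fun n a => (g (s n).1 (a (TopologicalSpace.denseSeq V (s n).2))).re,
    fun n => WF.ev _ _, fun a ha => ?_⟩
  have h2 : ∀ k l : ℕ, (g k (a (TopologicalSpace.denseSeq V l))).re = 0 := by
    intro k l
    obtain ⟨n, hn⟩ := hs (k, l)
    have := ha n
    simp only [hn] at this
    exact this
  have h3 : ∀ l : ℕ, a (TopologicalSpace.denseSeq V l) = 0 := by
    intro l
    by_contra hne
    have hpos : 0 < ‖a (TopologicalSpace.denseSeq V l)‖ := norm_pos_iff.2 hne
    obtain ⟨k, hk⟩ := (TopologicalSpace.denseRange_denseSeq U).exists_dist_lt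
      (a (TopologicalSpace.denseSeq V l)) (half_pos (half_pos hpos))
    rw [dist_eq_norm] at hk
    have h4 := h2 k l
    have h5 := (hg k).re_self
    have h6 := (hg k).norm_le (a (TopologicalSpace.denseSeq V l) - TopologicalSpace.denseSeq U k)
    have h7 := (abs_le.1 ((Complex.abs_re_le_norm _).trans h6)).1
    rw [map_sub, Complex.sub_re, h4, h5] at h7
    have h8 := norm_sub_norm_le (a (TopologicalSpace.denseSeq V l)) (TopologicalSpace.denseSeq U k)
    linarith
  have h4 : (a : V → U) = fun _ => 0 := by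
    refine (TopologicalSpace.denseRange_denseSeq V).equalizer a.continuous continuous_const ?_
    funext l
    exact h3 l
  ext y
  rw [zero_apply]
  exact congrFun h4 y

end Pool.Q193.HP
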