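import Mathlib
import Pool.Agent.Q193.HP.Js

/-!
# Tripotents
-/

set_option autoImplicit false

namespace Pool.Q193.HP

open Filter Topology Polynomial

variable {U V : Type*} [NormedAddCommGroup U] [NormedSpace ℂ U] [NormedAddCommGroup V]
  [NormedSpace ℂ V]

/-- tripotents -/
structure Tp (W : (V →L[ℂ] U) → (U →L[ℂ] V) → Prop) (e : V →L[ℂ] U) (e' : U →L[ℂ] V) : Prop where
  w : W e e'
  t : ∀ y, e (e' (e y)) = e y
  t' : ∀ x, e' (e (e' x)) = e' x

variable {W : (V →L[ℂ] U) → (U →L[ℂ] V) → Prop}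

theorem JS.exists_tp [CompleteSpace U] (h : JS W) (hU : WL U) (hV : WL V) [Nontrivial U]
    [Nontrivial V] [TopologicalSpace.SeparableSpace U] [TopologicalSpace.SeparableSpace V] :
    ∃ e e', Tp W e e' ∧ e ≠ 0 := by
  obtain ⟨φ, hφ, hsep⟩ := exists_sep (U := U) (V := V)
  obtain ⟨y₀, hy₀⟩ := exists_ne (0 : V)
  obtain ⟨x₀, hx₀⟩ := exists_ne (0 : U)
  have hx₀n : 0 < ‖x₀‖ := norm_pos_iff.2 hx₀
  obtain ⟨f, hf⟩ := exists_sp x₀
  set ψ : ℕ → (V →L[ℂ] U) → ℝ := fun n => Nat.casesOn n (fun a => (f (a y₀)).re) φ with hψ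
  have hψ0 : ∀ a, ψ 0 a = (f (a y₀)).re := fun a => rfl
  have hψs : ∀ n, ψ (n + 1) = φ n := fun n => rfl
  have hψF : ∀ n, WF (ψ n) := by
    intro n
    cases n with
    | zero => exact WF.ev f y₀
    | succ n => exact hφ n
  have hbd : ∀ n, ∃ B, ∀ p ∈ Kb W, ψ n p.1 ≤ B := by
    intro n
    obtain ⟨C, hC0, hC⟩ := (hψF n).bd
    refine ⟨C * 16, fun p hp => (hC _).trans ?_⟩
    have := (h.toPS.kb_bound hp).1
    gcongr
  choose B hB using hbd
  obtain ⟨⟨u, u'⟩, hu, hmax, hext⟩ := exists_lex (K := Kb W) ⟨(0, 0), h.zero, fun x f _ => by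
      show (f ((0 : V →L[ℂ] U) ((0 : U →L[ℂ] V) x))).re ≤ ‖x‖
      rw [zero_apply, map_zero, Complex.zero_re]
      exact norm_nonneg x⟩ (fun n p => ψ n p.1) B hB
    (fun w hw => by
      obtain ⟨z, hz, h1, _⟩ := h.toPS.kb_compact hU hV w hw
      exact ⟨z, hz, fun m => (hψF m).lim h1⟩)
  have huW : W u u' := hu.1
  have hun : ∀ (x : U) (f : U →L[ℂ] ℂ), Sp x f → (f (u (u' x))).re ≤ ‖x‖ := hu.2
  set T : U →L[ℂ] U := u.comp u' with hT
  have hTP : HmP T := h.hmP huW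
  have hTn : ∀ (x : U) (f : U →L[ℂ] ℂ), Sp x f → 0 * ‖x‖ ≤ (f (T x)).re ∧
      (f (T x)).re ≤ 1 * ‖x‖ := by
    intro x f hf
    rw [zero_mul, one_mul]
    exact ⟨h.p1 huW hf, hun x f hf⟩
  have hmem : ∀ p : ℝ[X], (∀ t : ℝ, 0 ≤ t → t ≤ 1 → (p * X * p).eval t ≤ 1 ∧
      0 ≤ (p * X * p).eval t) → (((pv T p).comp u), (u'.comp (pv T p))) ∈ Kb W := by
    intro p hp
    refine ⟨h.toPS.pv_mem (h.pow_mem huW) p, fun x f hf => ?_⟩
    have h1 := hTP.bounds hTn (r := p * X * p) (a := 0) (b := 1)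
      (fun t h0 h1 => ⟨(hp t h0 h1).2, (hp t h0 h1).1⟩) hf
    have e1 : pv T (p * X * p) x = pv T p (u (u' (pv T p x))) := by
      rw [pv_mul_apply, pv_mul_apply, pv_X]; rfl
    rw [e1, one_mul] at h1
    exact h1.2
  set d : V →L[ℂ] U := u - T.comp u with hd
  have e4 : ((1 / 4 : ℝ) : ℂ) • u - ((1 / 4 : ℝ) : ℂ) • T.comp u = ((1 / 4 : ℝ) : ℂ) • d := by
    rw [hd, smul_sub]
  have hv1 := hmem (1 + C (1 / 4) * (1 - X)) (fun t h0 h1 => by
    simp only [eval_mul, eval_add, eval_sub, eval_one, eval_C, eval_X]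
    constructor
    · nlinarith [mul_nonneg (sub_nonneg.2 h1) (show (0 : ℝ) ≤ 16 - 9 * t + t * t by nlinarith)]
    · have h2 : 0 ≤ 1 - t := by linarith
      positivity)
  have hv2 := hmem (1 - C (1 / 4) * (1 - X)) (fun t h0 h1 => by
    simp only [eval_mul, eval_sub, eval_one, eval_C, eval_X]
    constructor
    · nlinarith [mul_nonneg (sub_nonneg.2 h1) (show (0 : ℝ) ≤ 16 + 7 * t + t * t by nlinarith)]
    · have h2 : 0 ≤ 1 - 1 / 4 * (1 - t) := by linarith
      positivity)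
  have ev1 : (pv T (1 + C (1 / 4) * (1 - X))).comp u = u + ((1 / 4 : ℝ) : ℂ) • d := by
    ext y
    rw [← e4]
    simp only [pv_add, pv_one, pv_mul, pv_sub, pv_C, pv_X, smul_mul_assoc, one_mul,
      ContinuousLinearMap.comp_apply, add_apply, sub_apply, smul_apply, one_apply_eq_self,
      smul_sub]
  have ev2 : (pv T (1 - C (1 / 4) * (1 - X))).comp u = u - ((1 / 4 : ℝ) : ℂ) • d := by
    ext y
    rw [← e4]
    simp only [pv_one, pv_mul, pv_sub, pv_C, pv_X, smul_mul_assoc, one_mul,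
      ContinuousLinearMap.comp_apply, sub_apply, smul_apply, one_apply_eq_self,
      smul_sub]
  have hd0 : d = 0 := by
    have h1 := hext _ hv1 _ hv2 (fun n => by
      simp only [ev1, ev2]
      rw [(hψF n).add, (hψF n).sub]
      ring)
    refine hsep d (fun n => ?_)
    have h2 := h1 (n + 1)
    simp only [ev1, ev2, hψs] at h2
    rw [(hφ n).add, (hφ n).sub, (hφ n).smul] at h2
    linarith
  have ht : ∀ y, u (u' (u y)) = u y := by
    intro y
    have h1 : u y - u (u' (u y)) = d y := rfl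
    rw [hd0, zero_apply] at h1
    exact (sub_eq_zero.1 h1).symm
  have ht' : ∀ x, u' (u (u' x)) = u' x := by
    intro x
    have h1 := h.sub huW (h.pow_mem huW 1)
    rw [pow_one] at h1
    have h2 : u - (u.comp u').comp u = 0 := hd0
    rw [h2] at h1
    have h3 := h.right_zero h1
    have h4 := congrArg (fun a : U →L[ℂ] V => a x) h3
    exact (sub_eq_zero.1 h4).symm
  refine ⟨u, u', ⟨huW, ht, ht'⟩, fun hu0 => ?_⟩
  obtain ⟨a, a', ha, h1⟩ := h.i1 y₀ hy₀ x₀ (‖x₀‖ / 2) (by positivity)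
  obtain ⟨t, ht0, h2⟩ := h.toPS.kb_scale ha
  have h3 := hmax _ h2
  simp only [hψ0] at h3
  rw [hu0, zero_apply, map_zero, Complex.zero_re, smul_apply, map_smul, smul_eq_mul,
    Complex.re_ofReal_mul] at h3
  have h4 : 0 < (f (a y₀)).re := by
    have h5 := hf.norm_le (a y₀ - x₀)
    have h6 := (abs_le.1 ((Complex.abs_re_le_norm _).trans (h5.trans h1))).1
    rw [map_sub, Complex.sub_re, hf.re_self] at h6
    linarith
  have h5 := mul_pos ht0 h4
  linarith

end Pool.Q193.HP
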