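import Mathlib
import Pool.Agent.Q193.HP.Trip

/-!
# Splitting tripotents
-/

set_option autoImplicit false

namespace Pool.Q193.HP

open Filter Topology Polynomial

variable {U V : Type*} [NormedAddCommGroup U] [NormedSpace ℂ U] [NormedAddCommGroup V]
  [NormedSpace ℂ V] {W : (V →L[ℂ] U) → (U →L[ℂ] V) → Prop}

/-- orthogonal splittings of a tripotent -/
def Spl (W : (V →L[ℂ] U) → (U →L[ℂ] V) → Prop) (e : V →L[ℂ] U) (e' : U →L[ℂ] V) : Prop :=
  ∃ e₁ e₁' e₂ e₂', Tp W e₁ e₁' ∧ Tp W e₂ e₂' ∧ e₁ ≠ 0 ∧ e₂ ≠ 0 ∧ (∀ y, e₁' (e₂ y) = 0) ∧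
    (∀ y, e₂' (e₁ y) = 0) ∧ (∀ x, e₁ (e₂' x) = 0) ∧ (∀ x, e₂ (e₁' x) = 0) ∧ e = e₁ + e₂ ∧
    e' = e₁' + e₂'

/-- splitting by a projection -/
theorem Tp.spl (h : PS W) {e e'} (he : Tp W e e') {s : U →L[ℂ] U} (hs : ∀ x, s (s x) = s x)
    (hW : W (s.comp e) (e'.comp s)) (h1 : ∀ x, s (e (e' x)) = s x) (h2 : ∀ x, e (e' (s x)) = s x)
    (h3 : s.comp e ≠ 0) (h4 : e - s.comp e ≠ 0) : Spl W e e' := by
  refine ⟨s.comp e, e'.comp s, e - s.comp e, e' - e'.comp s, ⟨hW, fun y => ?_, fun x => ?_⟩,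
    ⟨h.sub he.w hW, fun y => ?_, fun x => ?_⟩, h3, h4, fun y => ?_, fun y => ?_, fun x => ?_,
    fun x => ?_, by abel, by abel⟩
  · simp only [ContinuousLinearMap.comp_apply, hs, h2]
  · simp only [ContinuousLinearMap.comp_apply, hs, h2]
  · simp only [ContinuousLinearMap.comp_apply, sub_apply, map_sub, hs, h2, he.t]
    abel
  · simp only [ContinuousLinearMap.comp_apply, sub_apply, map_sub, hs, h2, h1, he.t']
    abel
  · simp only [ContinuousLinearMap.comp_apply, sub_apply, map_sub, hs, sub_self]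
  · simp only [ContinuousLinearMap.comp_apply, sub_apply, hs, sub_self]
  · simp only [ContinuousLinearMap.comp_apply, sub_apply, map_sub, hs, h1, h2, sub_self]
  · simp only [ContinuousLinearMap.comp_apply, sub_apply, hs, h2, sub_self]

/-- self-adjoint elements of the Peirce space of a tripotent -/
structure Sa (W : (V →L[ℂ] U) → (U →L[ℂ] V) → Prop) (e : V →L[ℂ] U) (e' : U →L[ℂ] V)
    (v : V →L[ℂ] U) (v' : U →L[ℂ] V) : Prop where
  w : W v v'
  a : ∀ y, v y = e (v' (e y))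
  a' : ∀ x, v' x = e' (v (e' x))

section sa

variable {e : V →L[ℂ] U} {e' : U →L[ℂ] V} {v : V →L[ℂ] U} {v' : U →L[ℂ] V}

theorem Sa.f3 (he : Tp W e e') (h : Sa W e e' v v') (y : V) : e (e' (v y)) = v y := by
  rw [h.a, he.t]

theorem Sa.f1 (he : Tp W e e') (h : Sa W e e' v v') (x : U) : e (v' x) = v (e' x) := by
  rw [h.a', h.f3 he]

theorem Sa.f2 (he : Tp W e e') (h : Sa W e e' v v') (y : V) : v (e' (e y)) = v y := by
  rw [h.a, he.t, ← h.a]

theorem Sa.pow_mem (hJ : JS W) (he : Tp W e e') (h : Sa W e e' v v') (k : ℕ) :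
    W (((v.comp e') ^ k).comp v) (v'.comp ((v.comp e') ^ k)) := by
  set β : U →L[ℂ] U := v.comp e' with hβ
  have hβa : ∀ x, β x = v (e' x) := fun x => rfl
  induction k with
  | zero => exact h.w
  | succ k ih =>
    have h1 := hJ.smul (1 / 2) (hJ.jor2 h.w he.w ih)
    have e1 : ((1 / 2 : ℝ) : ℂ) • (v.comp (e'.comp ((β ^ k).comp v)) +
        ((β ^ k).comp v).comp (e'.comp v)) = (β ^ (k + 1)).comp v := by
      ext y
      have e2 : β ((β ^ k) (v y)) = (β ^ (k + 1)) (v y) := by rw [pow_succ']; rfl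
      have e3 : (β ^ k) (β (v y)) = (β ^ (k + 1)) (v y) := by rw [pow_succ]; rfl
      simp only [smul_apply, add_apply, ContinuousLinearMap.comp_apply]
      rw [← hβa, e2, ← hβa, e3, ← two_smul ℂ, smul_smul]
      norm_num
    have e2 : ((1 / 2 : ℝ) : ℂ) • ((v'.comp (β ^ k)).comp (e.comp v') +
        v'.comp (e.comp (v'.comp (β ^ k)))) = v'.comp (β ^ (k + 1)) := by
      ext x
      have e2 : β ((β ^ k) x) = (β ^ (k + 1)) x := by rw [pow_succ']; rfl
      have e3 : (β ^ k) (β x) = (β ^ (k + 1)) x := by rw [pow_succ]; rfl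
      simp only [smul_apply, add_apply, ContinuousLinearMap.comp_apply]
      rw [h.f1 he, h.f1 he, ← hβa, e3, ← hβa, e2, ← two_smul ℂ, smul_smul]
      norm_num
    rw [e1, e2] at h1
    exact h1

theorem Sa.hmP (hJ : JS W) (he : Tp W e e') (h : Sa W e e' v v') : HmP (v.comp e') := by
  intro n
  cases n with
  | zero => exact hm_one
  | succ n =>
    intro x f hf
    have h1 := hJ.h1 (h.pow_mem hJ he n) he.w hf
    have e1 : (((v.comp e') ^ n).comp v) (e' x) = ((v.comp e') ^ (n + 1)) x := by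
      rw [pow_succ]; rfl
    have e2 : e ((v'.comp ((v.comp e') ^ n)) x) = ((v.comp e') ^ (n + 1)) x := by
      rw [ContinuousLinearMap.comp_apply, h.f1 he, pow_succ']; rfl
    rw [e1, e2] at h1
    exact Complex.conj_eq_iff_im.1 h1.symm

/-- polynomials keep the self-adjoint elements -/
theorem Sa.pv (hJ : JS W) (he : Tp W e e') (h : Sa W e e' v v') (q : ℝ[X]) :
    Sa W e e' ((Pool.Q193.HP.pv (v.comp e') q).comp v) (v'.comp (Pool.Q193.HP.pv (v.comp e') q)) := by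
  set β : U →L[ℂ] U := v.comp e' with hβ
  have hβa : ∀ x, β x = v (e' x) := fun x => rfl
  have hcomm : ∀ x, Pool.Q193.HP.pv β q (β x) = β (Pool.Q193.HP.pv β q x) := by
    intro x
    have e1 : Pool.Q193.HP.pv β (q * X) x = Pool.Q193.HP.pv β (X * q) x := by rw [mul_comm]
    rwa [pv_mul_apply, pv_mul_apply, pv_X] at e1
  refine ⟨hJ.toPS.pv_mem (h.pow_mem hJ he) q, fun y => ?_, fun x => ?_⟩
  · rw [ContinuousLinearMap.comp_apply, ContinuousLinearMap.comp_apply, h.f1 he, ← hβa, ← hcomm,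
      hβa, h.f2 he]
  · rw [ContinuousLinearMap.comp_apply, ContinuousLinearMap.comp_apply, ← hβa, hcomm, h.a', ← hβa]

end sa

end Pool.Q193.HP
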