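import Mathlib
import Pool.Agent.Q193.HP.Split

/-!
# Splitting tripotents, main theorem
-/

set_option autoImplicit false

namespace Pool.Q193.HP

open Filter Topology Polynomial

variable {U V : Type*} [NormedAddCommGroup U] [NormedSpace ℂ U] [NormedAddCommGroup V]
  [NormedSpace ℂ V] {W : (V →L[ℂ] U) → (U →L[ℂ] V) → Prop}

/-- the self-adjoint elements between `-1` and `1` -/
def Kw (W : (V →L[ℂ] U) → (U →L[ℂ] V) → Prop) (e : V →L[ℂ] U) (e' : U →L[ℂ] V) :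
    Set ((V →L[ℂ] U) × (U →L[ℂ] V)) :=
  {p | Sa W e e' p.1 p.2 ∧ ∀ (x : U) (f : U →L[ℂ] ℂ), Sp x f → |(f (p.1 (e' x))).re| ≤ ‖x‖}

theorem kw_norm [CompleteSpace U] (hJ : JS W) {e e'} (he : Tp W e e') {p} (hp : p ∈ Kw W e e') :
    ‖p.1‖ ≤ 3 * ‖e‖ ∧ ‖p.2‖ ≤ 3 * ‖e'‖ := by
  have hβ : ‖p.1.comp e'‖ ≤ 3 := by
    refine (norm_le_num one_pos (fun x f hf => ?_)).trans ((mul_one _).le.trans exp_le_three)
    have h1 := hp.1.hmP hJ he 1 x f hf
    rw [pow_one] at h1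
    have h2 := hp.2 x f hf
    have h3 : f ((p.1.comp e') x) = (((f ((p.1.comp e') x)).re : ℝ) : ℂ) :=
      Complex.ext (Complex.ofReal_re _).symm (by rw [Complex.ofReal_im]; exact h1)
    rw [h3, Complex.norm_real, Real.norm_eq_abs, one_mul]
    exact h2
  constructor
  · refine ContinuousLinearMap.opNorm_le_bound _ (by positivity) (fun y => ?_)
    have h1 : p.1 y = (p.1.comp e') (e y) := (hp.1.f2 he y).symm
    rw [h1]
    refine ((p.1.comp e').le_opNorm _).trans ?_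
    have h2 := e.le_opNorm y
    have h3 := norm_nonneg (e y)
    calc ‖p.1.comp e'‖ * ‖e y‖ ≤ 3 * (‖e‖ * ‖y‖) := by gcongr
      _ = 3 * ‖e‖ * ‖y‖ := by ring
  · refine ContinuousLinearMap.opNorm_le_bound _ (by positivity) (fun x => ?_)
    have h1 : p.2 x = e' ((p.1.comp e') x) := hp.1.a' x
    rw [h1]
    refine (e'.le_opNorm _).trans ?_
    have h2 := (p.1.comp e').le_opNorm x
    have h3 := norm_nonneg x
    have h4 := norm_nonneg e'
    calc ‖e'‖ * ‖(p.1.comp e') x‖ ≤ ‖e'‖ * (3 * ‖x‖) := by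
          gcongr
          exact h2.trans (by gcongr)
      _ = 3 * ‖e'‖ * ‖x‖ := by ring

theorem kw_compact [CompleteSpace U] (hJ : JS W) (hU : WL U) (hV : WL V) {e e'}
    (he : Tp W e e') (w : ℕ → (V →L[ℂ] U) × (U →L[ℂ] V)) (hw : ∀ n, w n ∈ Kw W e e') :
    ∃ z ∈ Kw W e e', WLim (fun n => (w n).1) z.1 := by
  obtain ⟨b, hb⟩ := exists_wlim hU (fun n => (w n).1) (fun n => (kw_norm hJ he (hw n)).1)
  obtain ⟨b', hb'⟩ := exists_wlim hV (fun n => (w n).2) (fun n => (kw_norm hJ he (hw n)).2)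
  have hn1 : ∀ n, ‖(w n).1‖ ≤ 3 * ‖e‖ + 3 * ‖e'‖ := fun n => by
    have := (kw_norm hJ he (hw n)).1
    have := norm_nonneg e'
    linarith
  have hn2 : ∀ n, ‖(w n).2‖ ≤ 3 * ‖e‖ + 3 * ‖e'‖ := fun n => by
    have := (kw_norm hJ he (hw n)).2
    have := norm_nonneg e
    linarith
  have hW : W b b' := hJ.lim _ _ _ b b' (fun n => (hw n).1.w) hn1 hn2 hb hb'
  refine ⟨(b, b'), ⟨⟨hW, fun y => ?_, fun x => ?_⟩, fun x f hf => ?_⟩, hb⟩
  · refine eq_of_dual fun g => ?_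
    refine tendsto_nhds_unique (hb y g) ?_
    refine (hb' (e y) (g.comp e)).congr (fun n => ?_)
    rw [(hw n).1.a y]
    rfl
  · refine eq_of_dual fun g => ?_
    refine tendsto_nhds_unique (hb' x g) ?_
    refine (hb (e' x) (g.comp e')).congr (fun n => ?_)
    rw [(hw n).1.a' x]
    rfl
  · have h1 := ((Complex.continuous_re.tendsto _).comp (hb (e' x) f)).abs
    exact le_of_tendsto h1 (Filter.Eventually.of_forall fun n => (hw n).2 x f hf)

/-- a functional which vanishes at `e` and is positive at `w` -/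
theorem exists_wf {e w : V →L[ℂ] U} (he : e ≠ 0) (hw : ∀ r : ℝ, w ≠ (r : ℂ) • e) :
    ∃ φ : (V →L[ℂ] U) → ℝ, WF φ ∧ φ e = 0 ∧ 0 < φ w := by
  have h1 : ∃ (g : U →L[ℂ] ℂ) (y : V), (g (e y)).re ≠ 0 := by
    by_contra hcon
    push Not at hcon
    exact he (op_zero hcon)
  obtain ⟨g₂, y₂, h2⟩ := h1
  set c : ℝ := (g₂ (e y₂)).re with hc
  set r : ℝ := (g₂ (w y₂)).re / c with hr
  have h3 : ∃ (g : U →L[ℂ] ℂ) (y : V), (g ((w - (r : ℂ) • e) y)).re ≠ 0 := by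
    by_contra hcon
    push Not at hcon
    exact hw r (sub_eq_zero.1 (op_zero hcon))
  obtain ⟨g, y, h4⟩ := h3
  set ψ : (V →L[ℂ] U) → ℝ := fun a => 1 * (g (a y)).re + (-((g (e y)).re / c)) * (g₂ (a y₂)).re
    with hψ
  have hψF : WF ψ := (WF.ev g y).comb (WF.ev g₂ y₂) 1 _
  have hψe : ψ e = 0 := by
    simp only [hψ]
    rw [← hc]
    field_simp
    ring
  have hψw : ψ w ≠ 0 := by
    intro h0
    apply h4
    rw [sub_apply, smul_apply, map_sub, map_smul, Complex.sub_re, smul_eq_mul,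
      Complex.re_ofReal_mul, hr]
    simp only [hψ] at h0
    have h5 : (g₂ (w y₂)).re / c * (g (e y)).re = (g (e y)).re / c * (g₂ (w y₂)).re := by ring
    rw [h5]
    linarith
  rcases lt_or_gt_of_ne hψw with h5 | h5
  · refine ⟨fun a => (-1) * ψ a + 0 * ψ a, hψF.comb hψF _ _, ?_, ?_⟩
    · show (-1) * ψ e + 0 * ψ e = 0
      rw [hψe]; ring
    · show 0 < (-1) * ψ w + 0 * ψ w
      linarith
  · exact ⟨ψ, hψF, hψe, h5⟩

/-- **splitting** -/
theorem JS.split [CompleteSpace U] [Nontrivial U] (hJ : JS W) (hU : WL U) (hV : WL V)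
    [TopologicalSpace.SeparableSpace U] [TopologicalSpace.SeparableSpace V] {e e'}
    (he : Tp W e e') (he0 : e ≠ 0) {w w'} (hw : Sa W e e' w w') (hne : ∀ r : ℝ, w ≠ (r : ℂ) • e) :
    Spl W e e' := by
  obtain ⟨φ, hφ, hsep⟩ := exists_sep (U := U) (V := V)
  obtain ⟨φ₀, hφ₀, hφe, hφw⟩ := exists_wf he0 hne
  set ψ : ℕ → (V →L[ℂ] U) → ℝ := fun n => Nat.casesOn n φ₀ φ with hψ
  have hψ0 : ψ 0 = φ₀ := rfl
  have hψs : ∀ n, ψ (n + 1) = φ n := fun n => rfl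
  have hψF : ∀ n, WF (ψ n) := by
    intro n
    cases n with
    | zero => exact hφ₀
    | succ n => exact hφ n
  have hbd : ∀ n, ∃ B, ∀ p ∈ Kw W e e', ψ n p.1 ≤ B := by
    intro n
    obtain ⟨C, hC0, hC⟩ := (hψF n).bd
    refine ⟨C * (3 * ‖e‖), fun p hp => (hC _).trans ?_⟩
    have := (kw_norm hJ he hp).1
    gcongr
  choose B hB using hbd
  obtain ⟨⟨v, v'⟩, hv, hmax, hext⟩ := exists_lex (K := Kw W e e')
    ⟨(0, 0), ⟨hJ.zero, fun y => by simp, fun x => by simp⟩, fun x f _ => by simp⟩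
    (fun n p => ψ n p.1) B hB
    (fun w hw => by
      obtain ⟨z, hz, h1⟩ := kw_compact hJ hU hV he w hw
      exact ⟨z, hz, fun m => (hψF m).lim h1⟩)
  have hvS : Sa W e e' v v' := hv.1
  have hvn : ∀ (x : U) (f : U →L[ℂ] ℂ), Sp x f → |(f (v (e' x))).re| ≤ ‖x‖ := hv.2
  set β : U →L[ℂ] U := v.comp e' with hβ
  have hβa : ∀ x, β x = v (e' x) := fun x => rfl
  have hβP : HmP β := hvS.hmP hJ he
  have hβn : ∀ (x : U) (f : U →L[ℂ] ℂ), Sp x f → -1 * ‖x‖ ≤ (f (β x)).re ∧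
      (f (β x)).re ≤ 1 * ‖x‖ := by
    intro x f hf
    have := abs_le.1 (hvn x f hf)
    rw [neg_one_mul, one_mul]
    exact this
  have hmem : ∀ q : ℝ[X], (∀ t : ℝ, -1 ≤ t → t ≤ 1 → |(q * X).eval t| ≤ 1) →
      (((pv β q).comp v), (v'.comp (pv β q))) ∈ Kw W e e' := by
    intro q hq
    refine ⟨hvS.pv hJ he q, fun x f hf => ?_⟩
    have h1 := hβP.bounds hβn (r := q * X) (a := -1) (b := 1)
      (fun t h0 h1 => abs_le.1 (hq t h0 h1)) hf
    have e1 : pv β (q * X) x = pv β q (v (e' x)) := by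
      rw [pv_mul_apply, pv_X]; rfl
    rw [e1, neg_one_mul, one_mul] at h1
    exact abs_le.2 h1
  set d : V →L[ℂ] U := v - (β * β).comp v with hd
  have hv1 := hmem (1 + C (1 / 4) * (1 - X * X)) (fun t h0 h1 => by
    simp only [eval_mul, eval_add, eval_sub, eval_one, eval_C, eval_X]
    rw [abs_le]
    constructor
    · nlinarith [mul_nonneg (sub_nonneg.2 h0) (show (0 : ℝ) ≤ 4 + t - t * t by nlinarith)]
    · nlinarith [mul_nonneg (sub_nonneg.2 h1) (show (0 : ℝ) ≤ 4 - t - t * t by nlinarith)])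
  have hv2 := hmem (1 - C (1 / 4) * (1 - X * X)) (fun t h0 h1 => by
    simp only [eval_mul, eval_sub, eval_one, eval_C, eval_X]
    rw [abs_le]
    constructor
    · nlinarith [mul_nonneg (sub_nonneg.2 h0) (show (0 : ℝ) ≤ 4 - t + t * t by nlinarith)]
    · nlinarith [mul_nonneg (sub_nonneg.2 h1) (show (0 : ℝ) ≤ 4 + t + t * t by nlinarith)])
  have e4 : ((1 / 4 : ℝ) : ℂ) • v - ((1 / 4 : ℝ) : ℂ) • (β * β).comp v = ((1 / 4 : ℝ) : ℂ) • d := by
    rw [hd, smul_sub]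
  have ev1 : (pv β (1 + C (1 / 4) * (1 - X * X))).comp v = v + ((1 / 4 : ℝ) : ℂ) • d := by
    ext y
    rw [← e4]
    simp only [pv_add, pv_one, pv_mul, pv_sub, pv_C, pv_X, smul_mul_assoc, one_mul,
      ContinuousLinearMap.comp_apply, add_apply, sub_apply, smul_apply, one_apply_eq_self,
      smul_sub]
  have ev2 : (pv β (1 - C (1 / 4) * (1 - X * X))).comp v = v - ((1 / 4 : ℝ) : ℂ) • d := by
    ext y
    rw [← e4]
    simp only [pv_one, pv_mul, pv_sub, pv_C, pv_X, smul_mul_assoc, one_mul,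
      ContinuousLinearMap.comp_apply, sub_apply, smul_apply, one_apply_eq_self,
      smul_sub]
  have hd0 : d = 0 := by
    have h1 := hext _ hv1 _ hv2 (fun n => by
      simp only [ev1, ev2]
      rw [(hψF n).add, (hψF n).sub]
      ring)
    refine hsep d (fun n => ?_)
    have h2 := h1 (n + 1)
    simp only [ev1, ev2, hψs] at h2
    rw [(hφ n).add, (hφ n).sub, (hφ n).smul] at h2
    linarith
  have hb3 : ∀ y, β (β (v y)) = v y := by
    intro y
    have h1 : v y - β (β (v y)) = d y := rfl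
    rw [hd0, zero_apply] at h1
    exact (sub_eq_zero.1 h1).symm
  have hb3' : ∀ x, β (β (β x)) = β x := fun x => hb3 (e' x)
  -- positivity of the value
  have hval : 0 < φ₀ v := by
    set t : ℝ := (‖w‖ * ‖e'‖ + 1)⁻¹ with ht
    have ht0 : 0 < t := by positivity
    have h1 : (((t : ℂ) • w), ((t : ℂ) • w')) ∈ Kw W e e' := by
      refine ⟨⟨hJ.smul t hw.w, fun y => ?_, fun x => ?_⟩, fun x f hf => ?_⟩
      · show (t : ℂ) • w y = e ((t : ℂ) • w' (e y))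
        rw [map_smul, ← hw.a]
      · show (t : ℂ) • w' x = e' ((t : ℂ) • w (e' x))
        rw [map_smul, ← hw.a']
      · show |(f ((t : ℂ) • w (e' x))).re| ≤ ‖x‖
        refine (Complex.abs_re_le_norm _).trans ((hf.norm_le _).trans ?_)
        rw [norm_smul, Complex.norm_real, Real.norm_of_nonneg ht0.le, ht,
          inv_mul_le_iff₀ (by positivity)]
        refine (w.le_opNorm _).trans ?_
        have h2 := e'.le_opNorm x
        have h3 := norm_nonneg x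
        calc ‖w‖ * ‖e' x‖ ≤ ‖w‖ * (‖e'‖ * ‖x‖) := by gcongr
          _ ≤ (‖w‖ * ‖e'‖ + 1) * ‖x‖ := by nlinarith
    have h2 := hmax _ h1
    simp only [hψ0] at h2
    rw [hφ₀.smul] at h2
    have := mul_pos ht0 hφw
    linarith
  have hφ0 : φ₀ 0 = 0 := by
    have := hφ₀.smul 0 (0 : V →L[ℂ] U)
    rw [zero_mul, smul_zero] at this
    exact this
  -- the projections
  have hTβ : ∀ x, e (e' (β x)) = β x := fun x => hvS.f3 he _
  have hβT : ∀ x, β (e (e' x)) = β x := by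
    intro x
    rw [hβa, hβa, he.t']
  have hβe : ∀ y, β (e y) = v y := fun y => hvS.f2 he y
  have hW2 := hvS.pow_mem hJ he 1
  have mk : ∀ c : ℝ, c * c = 1 → ∃ s : U →L[ℂ] U, (∀ x, s x = ((1 / 2 : ℝ) : ℂ) •
      (β (β x) + (c : ℂ) • β x)) ∧ (s.comp e ≠ 0 → e - s.comp e ≠ 0 → Spl W e e') := by
    intro c hc
    have hcc : (c : ℂ) * c = 1 := by exact_mod_cast hc
    refine ⟨((1 / 2 : ℝ) : ℂ) • (β * β + (c : ℂ) • β), fun x => rfl, fun h3 h4 => ?_⟩
    have hsx : ∀ x, (((1 / 2 : ℝ) : ℂ) • (β * β + (c : ℂ) • β)) x = ((1 / 2 : ℝ) : ℂ) •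
      (β (β x) + (c : ℂ) • β x) := fun x => rfl
    refine he.spl hJ.toPS (s := ((1 / 2 : ℝ) : ℂ) • (β * β + (c : ℂ) • β)) (fun x => ?_) ?_
      (fun x => ?_) (fun x => ?_) h3 h4
    · rw [hsx, hsx]
      simp only [map_smul, map_add, hb3', smul_add, smul_smul]
      have e1 : ((1 / 2 : ℝ) : ℂ) * (((1 / 2 : ℝ) : ℂ) * (c : ℂ)) * 1 =
        ((1 / 2 : ℝ) : ℂ) * ((1 / 2 : ℝ) : ℂ) * (c : ℂ) := by ring
      have e2 : ((1 / 2 : ℝ) : ℂ) * ((c : ℂ) * (((1 / 2 : ℝ) : ℂ) * (c : ℂ))) =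
        ((1 / 2 : ℝ) : ℂ) * ((1 / 2 : ℝ) : ℂ) := by
        have : ((1 / 2 : ℝ) : ℂ) * ((c : ℂ) * (((1 / 2 : ℝ) : ℂ) * (c : ℂ))) =
          ((1 / 2 : ℝ) : ℂ) * ((1 / 2 : ℝ) : ℂ) * ((c : ℂ) * c) := by ring
        rw [this, hcc, mul_one]
      rw [e2]
      module
    · have h5 := hJ.smul (1 / 2) (hJ.add hW2 (hJ.smul c hvS.w))
      have e1 : ((1 / 2 : ℝ) : ℂ) • (((v.comp e') ^ 1).comp v + (c : ℂ) • v) =
          (((1 / 2 : ℝ) : ℂ) • (β * β + (c : ℂ) • β)).comp e := by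
        ext y
        show ((1 / 2 : ℝ) : ℂ) • (((β ^ 1) (v y)) + (c : ℂ) • v y) =
          ((1 / 2 : ℝ) : ℂ) • (β (β (e y)) + (c : ℂ) • β (e y))
        rw [hβe, pow_one]
      have e2 : ((1 / 2 : ℝ) : ℂ) • (v'.comp ((v.comp e') ^ 1) + (c : ℂ) • v') =
          e'.comp (((1 / 2 : ℝ) : ℂ) • (β * β + (c : ℂ) • β)) := by
        ext x
        show ((1 / 2 : ℝ) : ℂ) • (v' ((β ^ 1) x) + (c : ℂ) • v' x) =
          e' (((1 / 2 : ℝ) : ℂ) • (β (β x) + (c : ℂ) • β x))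
        rw [map_smul, map_add, map_smul, pow_one, hvS.a', hvS.a' x, hβa (β x)]
        rfl
      rw [e1, e2] at h5
      exact h5
    · rw [hsx, hsx, hβT]
    · rw [hsx, map_smul, map_smul, map_add, map_add, map_smul, map_smul, hTβ, hTβ]
  obtain ⟨s, hs, hs1⟩ := mk 1 (by norm_num)
  obtain ⟨r, hr, hr1⟩ := mk (-1) (by norm_num)
  have hvd : v = s.comp e - r.comp e := by
    ext y
    rw [sub_apply, ContinuousLinearMap.comp_apply, ContinuousLinearMap.comp_apply, hs, hr, hβe]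
    push_cast
    module
  by_cases h1 : s.comp e ≠ 0 ∧ e - s.comp e ≠ 0
  · exact hs1 h1.1 h1.2
  by_cases h2 : r.comp e ≠ 0 ∧ e - r.comp e ≠ 0
  · exact hr1 h2.1 h2.2
  exfalso
  have h3 : s.comp e = 0 ∨ s.comp e = e := by
    by_cases h4 : s.comp e = 0
    · exact Or.inl h4
    · right
      by_contra h5
      exact h1 ⟨h4, fun h6 => h5 (sub_eq_zero.1 h6).symm⟩
  have h4 : r.comp e = 0 ∨ r.comp e = e := by
    by_cases h4 : r.comp e = 0
    · exact Or.inl h4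
    · right
      by_contra h5
      exact h2 ⟨h4, fun h6 => h5 (sub_eq_zero.1 h6).symm⟩
  rcases h3 with h3 | h3 <;> rcases h4 with h4 | h4 <;> rw [h3, h4] at hvd
  · rw [hvd, sub_self, hφ0] at hval; exact lt_irrefl _ hval
  · rw [hvd, hφ₀.sub, hφ0, hφe] at hval; linarith
  · rw [hvd, hφ₀.sub, hφ0, hφe] at hval; linarith
  · rw [hvd, sub_self, hφ0] at hval; exact lt_irrefl _ hval

end Pool.Q193.HP
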