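import Mathlib
import Pool.Agent.Q193.HP.Split2

/-!
# Tripotents which do not split have rank one
-/

set_option autoImplicit false

namespace Pool.Q193.HP

open Filter Topology Polynomial

variable {U V : Type*} [NormedAddCommGroup U] [NormedSpace ℂ U] [NormedAddCommGroup V]
  [NormedSpace ℂ V] {W : (V →L[ℂ] U) → (U →L[ℂ] V) → Prop}

theorem JS.rank_one (hJ : JS W) {e e'} (he : Tp W e e') (he0 : e ≠ 0)
    (hall : ∀ w w', Sa W e e' w w' → ∃ r : ℝ, w = (r : ℂ) • e) :
    ∃ x₀ : U, ∀ x, ∃ c : ℂ, e (e' x) = c • x₀ := by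
  obtain ⟨y, hy⟩ : ∃ y, e y ≠ 0 := by
    by_contra hcon
    push Not at hcon
    exact he0 (by ext y; rw [hcon y, zero_apply])
  set y₁ : V := e' (e y) with hy₁
  have hy₁e : e' (e y₁) = y₁ := he.t' (e y)
  have hy₁0 : y₁ ≠ 0 := by
    intro h0
    apply hy
    rw [← he.t y, ← hy₁, h0, map_zero]
  -- every element of the second Peirce space is a multiple of `e`
  have key : ∀ b b', W b b' → ∃ c : ℂ, e (e' (b y₁)) = c • e y₁ := by
    have hsum : ∀ b b', W b b' → ∃ r : ℝ, ∀ y, e (b' (e y)) + e (e' (b (e' (e y)))) =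
        (r : ℂ) • e y := by
      intro b b' hb
      have h1 := hJ.jor he.w hb
      have h2 := hJ.jor he.w h1
      obtain ⟨r, hr⟩ := hall _ _ (⟨hJ.add h1 h2, fun y => by
        simp only [add_apply, ContinuousLinearMap.comp_apply, map_add, he.t]
        rw [add_comm], fun x => by
        simp only [add_apply, ContinuousLinearMap.comp_apply, map_add, he.t']
        rw [add_comm]⟩ : Sa W e e' _ _)
      refine ⟨r, fun y => ?_⟩
      have h3 := congrArg (fun a : V →L[ℂ] U => a y) hr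
      simp only [add_apply, ContinuousLinearMap.comp_apply, smul_apply] at h3
      exact h3
    intro b b' hb
    obtain ⟨r, hr⟩ := hsum b b' hb
    obtain ⟨s, hs⟩ := hsum _ _ (hJ.J hb)
    have h1 := hr y₁
    have h2 := hs y₁
    simp only [neg_apply, smul_apply, map_neg, map_smul] at h2
    rw [hy₁e] at h1 h2
    refine ⟨(1 / 2 : ℂ) * (r - Complex.I * s), ?_⟩
    have h3 : (Complex.I * Complex.I) = -1 := Complex.I_mul_I
    have h4 : e (e' (b y₁)) + e (e' (b y₁)) = (r : ℂ) • e y₁ - Complex.I • ((s : ℂ) • e y₁) := by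
      rw [← h1, ← h2, smul_add, smul_neg, smul_smul, smul_smul, h3]
      module
    have h5 : e (e' (b y₁)) = (1 / 2 : ℂ) • (e (e' (b y₁)) + e (e' (b y₁))) := by module
    rw [h5, h4]
    module
  refine ⟨e y₁, fun x => ?_⟩
  have hcl : IsClosed ((Submodule.span ℂ {e y₁} : Submodule ℂ U) : Set U) :=
    Submodule.closed_of_finiteDimensional _
  have h1 : e (e' x) ∈ ((Submodule.span ℂ {e y₁} : Submodule ℂ U) : Set U) := by
    rw [← hcl.closure_eq, Metric.mem_closure_iff]
    intro ε hε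
    set K : ℝ := ‖e.comp e'‖ + 1 with hK
    have hK0 : 0 < K := by positivity
    obtain ⟨b, b', hb, h2⟩ := hJ.i1 y₁ hy₁0 x (ε / (2 * K)) (by positivity)
    obtain ⟨c, hc⟩ := key b b' hb
    refine ⟨c • e y₁, Submodule.smul_mem _ _ (Submodule.mem_span_singleton_self _), ?_⟩
    rw [dist_eq_norm, ← hc]
    have h3 : e (e' x) - e (e' (b y₁)) = (e.comp e') (x - b y₁) := by
      rw [map_sub]; rfl
    rw [h3]
    refine ((e.comp e').le_opNorm _).trans_lt ?_
    rw [norm_sub_rev]
    have h4 : ‖e.comp e'‖ * ‖b y₁ - x‖ ≤ K * (ε / (2 * K)) := by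
      have := norm_nonneg (e.comp e')
      gcongr
      linarith
    have h5 : K * (ε / (2 * K)) = ε / 2 := by field_simp
    linarith
  obtain ⟨c, hc⟩ := Submodule.mem_span_singleton.1 h1
  exact ⟨c, hc.symm⟩

/-- a tripotent splits or has rank one -/
theorem JS.alt [CompleteSpace U] [Nontrivial U] (hJ : JS W) (hU : WL U) (hV : WL V)
    [TopologicalSpace.SeparableSpace U] [TopologicalSpace.SeparableSpace V] {e e'}
    (he : Tp W e e') (he0 : e ≠ 0) : Spl W e e' ∨ ∃ x₀ : U, ∀ x, ∃ c : ℂ, e (e' x) = c • x₀ := by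
  by_cases hall : ∀ w w', Sa W e e' w w' → ∃ r : ℝ, w = (r : ℂ) • e
  · exact Or.inr (hJ.rank_one he he0 hall)
  · left
    push Not at hall
    obtain ⟨w, w', hw, hne⟩ := hall
    exact hJ.split hU hV he he0 hw hne

end Pool.Q193.HP
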