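import Mathlib
import Pool.Agent.Q193.HP.Rank1

/-!
# The space with one hermitian projection
-/

set_option autoImplicit false

namespace Pool.Q193.HP

open Filter Topology Polynomial

variable {E : Type*} [NormedAddCommGroup E] [NormedSpace ℂ E]

theorem Hm.neg {T : E →L[ℂ] E} (hT : Hm T) : Hm (-T) := by
  intro x f hf
  rw [neg_apply, map_neg, Complex.neg_im, hT x f hf, neg_zero]

theorem Hm.sub {S T : E →L[ℂ] E} (hS : Hm S) (hT : Hm T) : Hm (S - T) := by
  rw [sub_eq_add_neg]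
  exact hS.add hT.neg

/-- density from transitivity -/
theorem dense_of_trans [CompleteSpace E] [TopologicalSpace.SeparableSpace E]
    (htr : ∀ x y : E, ‖x‖ = 1 → ‖y‖ = 1 → ∃ T : E ≃ₗᵢ[ℂ] E, T x = y) {A : E →L[ℂ] E}
    (hA : SkC A) {x : E} (hx : x ≠ 0) (hAx : A x = 0) {w z : E} (hw : A w = z) {δ : ℝ}
    (hδ : 0 < δ) : ∃ C : E →L[ℂ] E, SkC C ∧ ‖C x - z‖ ≤ δ := by
  have hx0 : 0 < ‖x‖ := norm_pos_iff.2 hx
  set r : ℝ := ‖x‖⁻¹ with hr
  have hr0 : 0 < r := by positivity
  have hrx : ‖x‖ * r = 1 := mul_inv_cancel₀ hx0.ne'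
  have h1 : ‖(r : ℂ) • x‖ = 1 := by
    rw [norm_smul, Complex.norm_real, Real.norm_of_nonneg hr0.le, mul_comm, hrx]
  have h2 : A ((r : ℂ) • x) = 0 := by rw [map_smul, hAx, smul_zero]
  obtain ⟨C, hC, h3⟩ := range_subsetC htr hA h1 h2 ((r : ℂ) • w) (show 0 < r * δ by positivity)
  refine ⟨C, hC, ?_⟩
  rw [map_smul, map_smul, hw, ← smul_sub, norm_smul, Complex.norm_real,
    Real.norm_of_nonneg hr0.le] at h3
  exact le_of_mul_le_mul_left h3 hr0

variable {U V : Type*} [NormedAddCommGroup U] [NormedSpace ℂ U] [NormedAddCommGroup V]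
  [NormedSpace ℂ V]

/-- the Jordan triple product -/
theorem Wp.jor [CompleteSpace E] {j : Inc U E} {k : Inc V E} (hjk : Orth j k)
    (hj : Hm (j.i.comp j.p)) {a a' b b'} (ha : Wp j k a a') (hb : Wp j k b b') :
    Wp j k (a.comp (b'.comp a)) (a'.comp (b.comp a')) := by
  have key : ∀ {b b'}, Wp j k b b' →
      Wp j k (-((2 : ℂ) • a.comp (b'.comp a)) + b.comp (a'.comp a) + a.comp (a'.comp b))
        (-((2 : ℂ) • a'.comp (b.comp a')) + b'.comp (a.comp a') + a'.comp (a.comp b')) := by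
    intro b b' hb
    have h1 := SkC.comm (SkC.comm ha hb) ha
    have e1 : od j k (-((2 : ℂ) • a.comp (b'.comp a)) + b.comp (a'.comp a) + a.comp (a'.comp b))
        (-((2 : ℂ) • a'.comp (b.comp a')) + b'.comp (a.comp a') + a'.comp (a.comp b')) =
        (od j k a a' * od j k b b' - od j k b b' * od j k a a') * od j k a a' -
        od j k a a' * (od j k a a' * od j k b b' - od j k b b' * od j k a a') := by
      ext x
      rw [sub_apply]
      show _ = (od j k a a' (od j k b b' (od j k a a' x)) -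
        od j k b b' (od j k a a' (od j k a a' x))) - od j k a a' (od j k a a' (od j k b b' x) -
        od j k b b' (od j k a a' x))
      simp only [od_apply, map_sub, j.pi, k.pi, hjk.l, hjk.r, map_zero, sub_zero, zero_sub,
        ContinuousLinearMap.comp_apply, add_apply, neg_apply, smul_apply, map_add, map_neg,
        map_smul]
      module
    rw [Wp, e1]
    exact h1
  have h1 := key hb
  have h2 := (key (hb.J hjk hj)).J hjk hj
  have h3 : (Complex.I * Complex.I) = -1 := Complex.I_mul_I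
  have h4 := ((h1.add h2).smul (-1 / 4))
  have e1 : ((-1 / 4 : ℝ) : ℂ) • (-((2 : ℂ) • a.comp (b'.comp a)) + b.comp (a'.comp a) +
      a.comp (a'.comp b) + Complex.I • (-((2 : ℂ) • a.comp ((-(Complex.I • b')).comp a)) +
      (Complex.I • b).comp (a'.comp a) + a.comp (a'.comp (Complex.I • b)))) =
      a.comp (b'.comp a) := by
    ext y
    simp only [ContinuousLinearMap.comp_apply, add_apply, neg_apply, smul_apply, map_neg,
      map_smul, smul_add, smul_neg, smul_smul]
    have e2 : ((-1 / 4 : ℝ) : ℂ) * (Complex.I * 2) * Complex.I = 1 / 2 := by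
      have : ((-1 / 4 : ℝ) : ℂ) * (Complex.I * 2) * Complex.I =
        ((-1 / 4 : ℝ) : ℂ) * 2 * (Complex.I * Complex.I) := by ring
      rw [this, h3]
      push_cast
      ring
    have e3 : ((-1 / 4 : ℝ) : ℂ) * Complex.I * Complex.I = 1 / 4 := by
      rw [mul_assoc, h3]
      push_cast
      ring
    rw [e2, e3]
    push_cast
    module
  have e2 : ((-1 / 4 : ℝ) : ℂ) • (-((2 : ℂ) • a'.comp (b.comp a')) + b'.comp (a.comp a') +
      a'.comp (a.comp b') + -(Complex.I • (-((2 : ℂ) • a'.comp ((Complex.I • b).comp a')) +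
      (-(Complex.I • b')).comp (a.comp a') + a'.comp (a.comp (-(Complex.I • b')))))) =
      a'.comp (b.comp a') := by
    ext y
    simp only [ContinuousLinearMap.comp_apply, add_apply, neg_apply, smul_apply, map_neg,
      map_smul, smul_add, smul_neg, smul_smul, neg_add, neg_neg]
    have e2 : ((-1 / 4 : ℝ) : ℂ) * (Complex.I * 2) * Complex.I = 1 / 2 := by
      have : ((-1 / 4 : ℝ) : ℂ) * (Complex.I * 2) * Complex.I =
        ((-1 / 4 : ℝ) : ℂ) * 2 * (Complex.I * Complex.I) := by ring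
      rw [this, h3]
      push_cast
      ring
    have e3 : ((-1 / 4 : ℝ) : ℂ) * Complex.I * Complex.I = 1 / 4 := by
      rw [mul_assoc, h3]
      push_cast
      ring
    rw [e2, e3]
    push_cast
    module
  rw [e1, e2] at h4
  exact h4

theorem Wp.dense [CompleteSpace E] [TopologicalSpace.SeparableSpace E]
    (htr : ∀ x y : E, ‖x‖ = 1 → ‖y‖ = 1 → ∃ T : E ≃ₗᵢ[ℂ] E, T x = y)
    {j : Inc U E} {k : Inc V E} (hjk : Orth j k) (hj : Hm (j.i.comp j.p))
    (hk : Hm (k.i.comp k.p)) (y : V) (hy : y ≠ 0) (x : U) (δ : ℝ) (hδ : 0 < δ) :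
    ∃ a a', Wp j k a a' ∧ ‖a y - x‖ ≤ δ := by
  have h1 : k.i y ≠ 0 := by
    intro h0
    apply hy
    rw [← k.pi y, h0, map_zero]
  obtain ⟨C, hC, h2⟩ := dense_of_trans htr hj.sk h1 (w := (-Complex.I) • j.i x) (z := j.i x)
    (by
      rw [smul_apply, ContinuousLinearMap.comp_apply, hjk.l, map_zero, smul_zero])
    (by
      rw [smul_apply, ContinuousLinearMap.comp_apply, map_smul, j.pi, map_smul, smul_smul,
        mul_neg, Complex.I_mul_I, neg_neg, one_smul]) hδ
  refine ⟨_, _, Wp.part hjk hj hk hC, ?_⟩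
  have h3 : (j.p.comp (C.comp k.i)) y - x = j.p (C (k.i y) - j.i x) := by
    rw [map_sub, j.pi]; rfl
  rw [h3]
  exact (j.np _).trans h2

/-- the Jordan pair structure of a transitive space -/
theorem Wp.js [CompleteSpace E] [TopologicalSpace.SeparableSpace E]
    (htr : ∀ x y : E, ‖x‖ = 1 → ‖y‖ = 1 → ∃ T : E ≃ₗᵢ[ℂ] E, T x = y)
    {j : Inc U E} {k : Inc V E} (hjk : Orth j k) (hj : Hm (j.i.comp j.p))
    (hk : Hm (k.i.comp k.p)) : JS (Wp j k) :=
  { Wp.ps hjk hj hk with
    jor := fun ha hb => Wp.jor hjk hj ha hb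
    i1 := fun y hy x δ hδ => Wp.dense htr hjk hj hk y hy x δ hδ
    i2 := fun x hx y δ hδ => by
      obtain ⟨a', a, h1, h2⟩ := Wp.dense htr hjk.symm hk hj x hx y δ hδ
      exact ⟨a, a', h1.symm, h2⟩ }

/-! ### ranges of hermitian projections -/

theorem hm_idem_norm [CompleteSpace E] {T : E →L[ℂ] E} (hT : Hm T) (hi : ∀ x, T (T x) = T x)
    (x : E) : ‖T x‖ ≤ ‖x‖ := by
  have hd : ∀ t : ℝ, HasDerivAt (fun t : ℝ => x - T x + Complex.exp (t * Complex.I) • T x)
      ((Complex.I • T) (x - T x + Complex.exp (t * Complex.I) • T x)) t := by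
    intro t
    have h1 : HasDerivAt (fun t : ℝ => Complex.exp (t * Complex.I))
        (Complex.exp (t * Complex.I) * Complex.I) t := by
      have h2 : HasDerivAt (fun t : ℝ => ((t : ℂ) * Complex.I)) Complex.I t := by
        have h3 : HasDerivAt (fun s : ℝ => (s : ℂ)) 1 t := Complex.ofRealCLM.hasDerivAt (x := t)
        simpa using h3.mul_const Complex.I
      exact h2.cexp
    have h2 := (h1.smul_const (T x)).const_add (x - T x)
    refine h2.congr_deriv ?_
    rw [smul_apply, map_add, map_sub, map_smul, hi, sub_self, zero_add, smul_smul, mul_comm]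
  have h1 := ode_norm hT.sk hd Real.pi
  have e1 : Complex.exp ((Real.pi : ℂ) * Complex.I) = -1 := Complex.exp_pi_mul_I
  have e2 : x - T x + Complex.exp (((0 : ℝ) : ℂ) * Complex.I) • T x = x := by
    rw [Complex.ofReal_zero, zero_mul, Complex.exp_zero, one_smul]
    abel
  rw [e2, e1] at h1
  have e3 : T x = (1 / 2 : ℂ) • (x - (x - T x + (-1 : ℂ) • T x)) := by module
  rw [e3, norm_smul]
  have h2 := norm_sub_le x (x - T x + (-1 : ℂ) • T x)
  rw [h1] at h2
  have h3 : ‖(1 / 2 : ℂ)‖ = 1 / 2 := by norm_num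
  rw [h3]
  linarith

/-- the range of a projection of norm one -/
noncomputable def Inc.ofProj (T : E →L[ℂ] E) (hi : ∀ x, T (T x) = T x) (hn : ∀ x, ‖T x‖ ≤ ‖x‖) :
    Inc (LinearMap.range (T : E →ₗ[ℂ] E)) E where
  i := (LinearMap.range (T : E →ₗ[ℂ] E)).subtypeL
  p := T.codRestrict (LinearMap.range (T : E →ₗ[ℂ] E)) (fun x => ⟨x, rfl⟩)
  pi := by
    rintro ⟨_, x, rfl⟩
    exact Subtype.ext (hi x)
  ni := fun u => rfl
  np := fun x => hn x

theorem Inc.ofProj_ip (T : E →L[ℂ] E) (hi : ∀ x, T (T x) = T x) (hn : ∀ x, ‖T x‖ ≤ ‖x‖) :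
    (Inc.ofProj T hi hn).i.comp (Inc.ofProj T hi hn).p = T := by
  ext x
  rfl

theorem Inc.ofProj_mem (T : E →L[ℂ] E) (hi : ∀ x, T (T x) = T x) (hn : ∀ x, ‖T x‖ ≤ ‖x‖)
    (u : LinearMap.range (T : E →ₗ[ℂ] E)) : T ((Inc.ofProj T hi hn).i u) =
      (Inc.ofProj T hi hn).i u := by
  obtain ⟨_, x, rfl⟩ := u
  exact hi x

end Pool.Q193.HP
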