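import Mathlib
import Pool.Agent.Q193.HP.Big

/-!
# The two sides of the projection
-/

set_option autoImplicit false

namespace Pool.Q193.HP

open Filter Topology Polynomial

variable {E : Type*} [NormedAddCommGroup E] [NormedSpace ℂ E]
variable {U V : Type*} [NormedAddCommGroup U] [NormedSpace ℂ U] [NormedAddCommGroup V]
  [NormedSpace ℂ V]

/-- operators of `U` which are restrictions of hermitian operators of the big space -/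
def Ext (j : Inc U E) (T : U →L[ℂ] U) : Prop :=
  ∃ A : E →L[ℂ] E, SkC A ∧ ∀ u, A (j.i u) = Complex.I • j.i (T u)

theorem Ext.sub {j : Inc U E} {S T : U →L[ℂ] U} (hS : Ext j S) (hT : Ext j T) :
    Ext j (S - T) := by
  obtain ⟨A, hA, h1⟩ := hS
  obtain ⟨B, hB, h2⟩ := hT
  refine ⟨A - B, hA.sub hB, fun u => ?_⟩
  rw [sub_apply, h1, h2, sub_apply, map_sub, smul_sub]

theorem Ext.one {j : Inc U E} (hj : Hm (j.i.comp j.p)) : Ext j 1 := by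
  refine ⟨_, hj.sk, fun u => ?_⟩
  rw [smul_apply, ContinuousLinearMap.comp_apply, j.pi]
  rfl

theorem Ext.tp [CompleteSpace E] {j : Inc U E} {k : Inc V E} (hjk : Orth j k)
    (hj : Hm (j.i.comp j.p)) {e e'} (he : Wp j k e e') : Ext j (e.comp e') := by
  have h1 := (SkC.comm he (he.J hjk hj)).smul (1 / 2)
  refine ⟨_, h1, fun u => ?_⟩
  rw [smul_apply, sub_apply]
  show ((1 / 2 : ℝ) : ℂ) • (od j k e e' (od j k (Complex.I • e) (-(Complex.I • e')) (j.i u)) -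
    od j k (Complex.I • e) (-(Complex.I • e')) (od j k e e' (j.i u))) = _
  rw [od_l hjk, od_l hjk, map_neg, map_neg, od_r hjk, od_r hjk, neg_apply, smul_apply, smul_apply,
    map_neg, map_smul, map_neg, map_smul, neg_neg, sub_neg_eq_add, ← two_smul ℂ, smul_smul,
    ContinuousLinearMap.comp_apply]
  norm_num

/-- skew operators of a complemented subspace -/
theorem SkC.compress {j : Inc U E} {C : E →L[ℂ] E} (hC : SkC C) :
    SkC (j.p.comp (C.comp j.i)) := fun _ _ hf => hC _ _ (j.sp hf)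

/-- density in `U` from density in the big space -/
theorem Ext.dense [CompleteSpace E] [TopologicalSpace.SeparableSpace E]
    (htr : ∀ x y : E, ‖x‖ = 1 → ‖y‖ = 1 → ∃ T : E ≃ₗᵢ[ℂ] E, T x = y) {j : Inc U E}
    {T : U →L[ℂ] U} (hT : Ext j T) {x : U} (hx : x ≠ 0) (hTx : T x = 0) {z : U} (hz : T z = z)
    {δ : ℝ} (hδ : 0 < δ) : ∃ C : U →L[ℂ] U, SkC C ∧ ‖C x - z‖ ≤ δ := by
  obtain ⟨A, hA, h1⟩ := hT
  have hx' : j.i x ≠ 0 := by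
    intro h0
    apply hx
    rw [← j.pi x, h0, map_zero]
  obtain ⟨C, hC, h2⟩ := dense_of_trans htr hA hx' (w := (-Complex.I) • j.i z) (z := j.i z)
    (by rw [h1, hTx, map_zero, smul_zero])
    (by rw [map_smul, h1, hz, smul_smul, neg_mul, Complex.I_mul_I, neg_neg, one_smul]) hδ
  refine ⟨_, hC.compress (j := j), ?_⟩
  have h3 : (j.p.comp (C.comp j.i)) x - z = j.p (C (j.i x) - j.i z) := by
    rw [map_sub, j.pi]; rfl
  rw [h3]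
  exact (j.np _).trans h2

/-- three projections of `U` -/
theorem side_aux [CompleteSpace E] [TopologicalSpace.SeparableSpace E]
    (htr : ∀ x y : E, ‖x‖ = 1 → ‖y‖ = 1 → ∃ T : E ≃ₗᵢ[ℂ] E, T x = y) (hE : WL E)
    {j : Inc U E} {T₁ T₂ T₃ : U →L[ℂ] U} (h₁ : Ext j T₁) (h₂ : Ext j T₂) (h₃ : Ext j T₃)
    (m₁ : Hm T₁) (m₂ : Hm T₂) (m₃ : Hm T₃) (i₁ : ∀ x, T₁ (T₁ x) = T₁ x)
    (i₂ : ∀ x, T₂ (T₂ x) = T₂ x) (i₃ : ∀ x, T₃ (T₃ x) = T₃ x) (o₁₂ : ∀ x, T₁ (T₂ x) = 0)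
    (o₂₁ : ∀ x, T₂ (T₁ x) = 0) (o₁₃ : ∀ x, T₁ (T₃ x) = 0) (o₃₁ : ∀ x, T₃ (T₁ x) = 0)
    (o₂₃ : ∀ x, T₂ (T₃ x) = 0) (o₃₂ : ∀ x, T₃ (T₂ x) = 0)
    (hsum : ∀ x, T₁ x + T₂ x + T₃ x = x) (n₁ : T₁ ≠ 0) (n₂ : T₂ ≠ 0) (n₃ : T₃ ≠ 0) (z w : U) :
    ‖z + w‖ ^ 2 + ‖z - w‖ ^ 2 = 2 * (‖z‖ ^ 2 + ‖w‖ ^ 2) := by
  have : CompleteSpace U := j.complete
  have hU : WL U := j.wl hE
  set j₁ := Inc.ofProj T₁ i₁ (hm_idem_norm m₁ i₁) with hj₁
  set j₂ := Inc.ofProj T₂ i₂ (hm_idem_norm m₂ i₂) with hj₂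
  set j₃ := Inc.ofProj T₃ i₃ (hm_idem_norm m₃ i₃) with hj₃
  have f₁ : ∀ u, T₁ (j₁.i u) = j₁.i u := Inc.ofProj_mem T₁ i₁ _
  have f₂ : ∀ u, T₂ (j₂.i u) = j₂.i u := Inc.ofProj_mem T₂ i₂ _
  have f₃ : ∀ u, T₃ (j₃.i u) = j₃.i u := Inc.ofProj_mem T₃ i₃ _
  have p₁ : ∀ u, j₁.i (j₁.p u) = T₁ u := fun u => rfl
  have p₂ : ∀ u, j₂.i (j₂.p u) = T₂ u := fun u => rfl
  have p₃ : ∀ u, j₃.i (j₃.p u) = T₃ u := fun u => rfl
  have zero_of : ∀ {R : Type _} [NormedAddCommGroup R] [NormedSpace ℂ R] (l : Inc R U) (u : R),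
      l.i u = 0 → u = 0 := by
    intro R _ _ l u h
    rw [← l.pi u, h, map_zero]
  have nt : ∀ {T : U →L[ℂ] U}, T ≠ 0 → Nontrivial (LinearMap.range (T : U →ₗ[ℂ] U)) := by
    intro T hT
    obtain ⟨u, hu⟩ : ∃ u, T u ≠ 0 := by
      by_contra hcon
      push Not at hcon
      exact hT (by ext y; rw [hcon y, zero_apply])
    exact ⟨⟨⟨T u, u, rfl⟩, 0, fun h => hu (congrArg Subtype.val h)⟩⟩
  have := nt n₁
  have := nt n₂
  have := nt n₃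
  have hTrp : Trp j₁ j₂ j₃ := by
    refine ⟨⟨fun v => zero_of j₁ _ ?_, fun v => zero_of j₂ _ ?_⟩,
      ⟨fun v => zero_of j₂ _ ?_, fun v => zero_of j₃ _ ?_⟩,
      ⟨fun v => zero_of j₁ _ ?_, fun v => zero_of j₃ _ ?_⟩, ?_, ?_, ?_,
      fun x hx z δ hδ => ?_, fun x hx z δ hδ => ?_, fun x hx z δ hδ => ?_,
      fun x hx z δ hδ => ?_, fun x hx z δ hδ => ?_, fun x hx z δ hδ => ?_⟩
    · rw [p₁, ← f₂, o₁₂]
    · rw [p₂, ← f₁, o₂₁]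
    · rw [p₂, ← f₃, o₂₃]
    · rw [p₃, ← f₂, o₃₂]
    · rw [p₁, ← f₃, o₁₃]
    · rw [p₃, ← f₁, o₃₁]
    · rw [hj₁, Inc.ofProj_ip]; exact m₁
    · rw [hj₂, Inc.ofProj_ip]; exact m₂
    · rw [hj₃, Inc.ofProj_ip]; exact m₃
    · exact h₂.dense htr (fun h => hx (zero_of j₁ _ h)) (by rw [← f₁, o₂₁]) (f₂ z) hδ
    · exact h₁.dense htr (fun h => hx (zero_of j₂ _ h)) (by rw [← f₂, o₁₂]) (f₁ z) hδ
    · exact h₃.dense htr (fun h => hx (zero_of j₂ _ h)) (by rw [← f₂, o₃₂]) (f₃ z) hδ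
    · exact h₂.dense htr (fun h => hx (zero_of j₃ _ h)) (by rw [← f₃, o₂₃]) (f₂ z) hδ
    · exact h₃.dense htr (fun h => hx (zero_of j₁ _ h)) (by rw [← f₁, o₃₁]) (f₃ z) hδ
    · exact h₁.dense htr (fun h => hx (zero_of j₃ _ h)) (by rw [← f₃, o₁₃]) (f₁ z) hδ
  exact hTrp.hilbert hU (fun z => by rw [p₁, p₂, p₃, hsum]) z w

/-- **one side**: two orthogonal tripotents which do not exhaust `U` -/
theorem side [CompleteSpace E] [TopologicalSpace.SeparableSpace E]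
    (htr : ∀ x y : E, ‖x‖ = 1 → ‖y‖ = 1 → ∃ T : E ≃ₗᵢ[ℂ] E, T x = y) (hE : WL E)
    {j : Inc U E} {k : Inc V E} (hjk : Orth j k) (hj : Hm (j.i.comp j.p))
    (hk : Hm (k.i.comp k.p)) {e e' d d'} (he : Tp (Wp j k) e e') (hd : Tp (Wp j k) d d')
    (he0 : e ≠ 0) (hd0 : d ≠ 0) (o₁ : ∀ y, e' (d y) = 0) (o₂ : ∀ y, d' (e y) = 0) {x₀ : U}
    (hx₀ : x₀ ≠ 0) (hx₁ : e (e' x₀) = 0) (hx₂ : d (d' x₀) = 0) (z w : U) :
    ‖z + w‖ ^ 2 + ‖z - w‖ ^ 2 = 2 * (‖z‖ ^ 2 + ‖w‖ ^ 2) := by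
  have hps := Wp.ps hjk hj hk
  have hm : ∀ {e e'}, Wp j k e e' → Hm (e.comp e') := fun h _ _ hf => hps.real1 h hf
  have hne : ∀ {e e'}, Tp (Wp j k) e e' → e ≠ 0 → e.comp e' ≠ 0 := by
    intro e e' h h0 h1
    apply h0
    ext y
    rw [← h.t y]
    have := congrArg (fun a : U →L[ℂ] U => a (e y)) h1
    exact this
  have i₁ : ∀ x, (e.comp e') ((e.comp e') x) = (e.comp e') x := fun x => by
    simp only [ContinuousLinearMap.comp_apply, he.t]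
  have i₂ : ∀ x, (d.comp d') ((d.comp d') x) = (d.comp d') x := fun x => by
    simp only [ContinuousLinearMap.comp_apply, hd.t]
  have o₁₂ : ∀ x, (e.comp e') ((d.comp d') x) = 0 := fun x => by
    simp only [ContinuousLinearMap.comp_apply, o₁, map_zero]
  have o₂₁ : ∀ x, (d.comp d') ((e.comp e') x) = 0 := fun x => by
    simp only [ContinuousLinearMap.comp_apply, o₂, map_zero]
  have E₁ := Ext.tp hjk hj he.w
  have E₂ := Ext.tp hjk hj hd.w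
  have E₃ : Ext j (1 - e.comp e' - d.comp d') := ((Ext.one hj).sub E₁).sub E₂
  have a₃ : ∀ x, (1 - e.comp e' - d.comp d') x = x - (e.comp e') x - (d.comp d') x :=
    fun x => rfl
  refine side_aux htr hE E₁ E₂ E₃ (hm he.w) (hm hd.w) ((hm_one.sub (hm he.w)).sub (hm hd.w))
    i₁ i₂ (fun x => ?_) o₁₂ o₂₁ (fun x => ?_) (fun x => ?_) (fun x => ?_) (fun x => ?_)
    (fun x => ?_) (hne he he0) (hne hd hd0) (fun h0 => ?_) z w
  · rw [a₃, a₃, map_sub, map_sub, map_sub, map_sub, i₁, i₂, o₁₂, o₂₁]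
    abel
  · rw [a₃, map_sub, map_sub, i₁, o₁₂, sub_self, sub_zero]
  · rw [a₃, i₁, o₂₁, sub_self, sub_zero]
  · rw [a₃, map_sub, map_sub, i₂, o₂₁, sub_zero, sub_self]
  · rw [a₃, i₂, o₁₂, sub_zero, sub_self]
  · rw [a₃]; abel
  · apply hx₀
    have h1 := congrArg (fun a : U →L[ℂ] U => a x₀) h0
    have h2 : x₀ - e (e' x₀) - d (d' x₀) = 0 := h1
    rwa [hx₁, hx₂, sub_zero, sub_zero] at h2

end Pool.Q193.HP
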