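import Mathlib
import Pool.Agent.Q193.HP.Side

/-!
# The alternative: a tripotent of rank one, or both sides are Hilbert spaces
-/

set_option autoImplicit false

namespace Pool.Q193.HP

open Filter Topology Polynomial

variable {E : Type*} [NormedAddCommGroup E] [NormedSpace ℂ E]
variable {U V : Type*} [NormedAddCommGroup U] [NormedSpace ℂ U] [NormedAddCommGroup V]
  [NormedSpace ℂ V]

theorem Inc.separable [TopologicalSpace.SeparableSpace E] (j : Inc U E) :
    TopologicalSpace.SeparableSpace U := by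
  have h1 : Function.Surjective j.p := fun u => ⟨j.i u, j.pi u⟩
  exact h1.denseRange.separableSpace j.p.continuous

/-- the swapped tripotent -/
theorem Tp.swap {j : Inc U E} {k : Inc V E} {e e'} (h : Tp (Wp j k) e e') :
    Tp (Wp k j) e' e := ⟨h.w.symm, h.t', h.t⟩

theorem Tp.ne {W : (V →L[ℂ] U) → (U →L[ℂ] V) → Prop} {e e'} (h : Tp W e e') (h0 : e ≠ 0) :
    e' ≠ 0 := by
  intro h1
  apply h0
  ext y
  rw [← h.t y, h1]
  simp

theorem mid [CompleteSpace E] [TopologicalSpace.SeparableSpace E] [Nontrivial U] [Nontrivial V]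
    (htr : ∀ x y : E, ‖x‖ = 1 → ‖y‖ = 1 → ∃ T : E ≃ₗᵢ[ℂ] E, T x = y) (hE : WL E)
    {j : Inc U E} {k : Inc V E} (hjk : Orth j k) (hj : Hm (j.i.comp j.p))
    (hk : Hm (k.i.comp k.p)) :
    (∃ e e', Tp (Wp j k) e e' ∧ e ≠ 0 ∧ ∃ x₀ : U, ∀ x, ∃ c : ℂ, e (e' x) = c • x₀) ∨
    (∃ e e', Tp (Wp j k) e e' ∧ e ≠ 0 ∧
      (∀ z w : U, ‖z + w‖ ^ 2 + ‖z - w‖ ^ 2 = 2 * (‖z‖ ^ 2 + ‖w‖ ^ 2)) ∧
      (∀ z w : V, ‖z + w‖ ^ 2 + ‖z - w‖ ^ 2 = 2 * (‖z‖ ^ 2 + ‖w‖ ^ 2))) := by
  have : CompleteSpace U := j.complete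
  have : CompleteSpace V := k.complete
  have : TopologicalSpace.SeparableSpace U := j.separable
  have : TopologicalSpace.SeparableSpace V := k.separable
  have hU : WL U := j.wl hE
  have hV : WL V := k.wl hE
  have hJ := Wp.js htr hjk hj hk
  obtain ⟨e, e', he, he0⟩ := hJ.exists_tp hU hV
  rcases hJ.alt hU hV he he0 with h1 | h1
  swap
  · exact Or.inl ⟨e, e', he, he0, h1⟩
  obtain ⟨a, a', b, b', ha, hb, ha0, hb0, ab1, ab2, ab3, ab4, hab, hab'⟩ := h1
  rcases hJ.alt hU hV ha ha0 with h2 | h2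
  swap
  · exact Or.inl ⟨a, a', ha, ha0, h2⟩
  obtain ⟨c, c', d, d', hc, hd, hc0, hd0, cd1, cd2, cd3, cd4, hcd, hcd'⟩ := h2
  right
  refine ⟨e, e', he, he0, ?_, ?_⟩
  · -- the first side
    obtain ⟨y, hy⟩ : ∃ y, b y ≠ 0 := by
      by_contra hcon
      push Not at hcon
      exact hb0 (by ext y; rw [hcon y, zero_apply])
    have h3 : c' (b y) + d' (b y) = 0 := by
      have := ab1 y
      rw [hcd'] at this
      exact this
    have h4 : c (c' (b y)) = 0 := by
      have h5 := congrArg c h3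
      rwa [map_add, cd3, add_zero, map_zero] at h5
    have h5 : d (d' (b y)) = 0 := by
      have h5 := congrArg d h3
      rwa [map_add, cd4, zero_add, map_zero] at h5
    exact side htr hE hjk hj hk hc hd hc0 hd0 cd1 cd2 hy h4 h5
  · obtain ⟨x, hx⟩ : ∃ x, b' x ≠ 0 := by
      by_contra hcon
      push Not at hcon
      exact hb.ne hb0 (by ext y; rw [hcon y, zero_apply])
    have h3 : c (b' x) + d (b' x) = 0 := by
      have := ab3 x
      rw [hcd] at this
      exact this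
    have h4 : c' (c (b' x)) = 0 := by
      have h5 := congrArg c' h3
      rwa [map_add, cd1, add_zero, map_zero] at h5
    have h5 : d' (d (b' x)) = 0 := by
      have h5 := congrArg d' h3
      rwa [map_add, cd2, zero_add, map_zero] at h5
    exact side htr hE hjk.symm hk hj hc.swap hd.swap (hc.ne hc0) (hd.ne hd0) cd3 cd4 hx h4 h5

end Pool.Q193.HP
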