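import Mathlib
import Pool.Agent.Q193.HP.Mid

/-!
# Schur's lemma and the norm of the space
-/

set_option autoImplicit false

namespace Pool.Q193.HP

open Filter Topology

section schur

variable {H : Type*} [NormedAddCommGroup H] [InnerProductSpace ℂ H] [CompleteSpace H]

/-- Schur's lemma for selfadjoint operators -/
theorem schur {R : H →L[ℂ] H} (hR : IsSelfAdjoint R) (S : Set (H →L[ℂ] H))
    (hirr : ∀ M : Submodule ℂ H, IsClosed (M : Set H) → (∀ C ∈ S, ∀ h ∈ M, C h ∈ M) → M ≠ ⊥ →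
      M = ⊤) (hcomm : ∀ C ∈ S, Commute R C) : ∃ μ : ℝ, ∀ h, R h = (μ : ℂ) • h := by
  have key : ∀ μ₁ ∈ spectrum ℝ R, ∀ μ₂ ∈ spectrum ℝ R, ¬ μ₁ < μ₂ := by
    intro μ₁ h1 μ₂ h2 hlt
    set c : ℝ := (μ₁ + μ₂) / 2 with hc
    have hf1 : Continuous (fun t : ℝ => max (c - t) 0) := by fun_prop
    have hf2 : Continuous (fun t : ℝ => max (t - c) 0) := by fun_prop
    set Q₁ : H →L[ℂ] H := cfc (fun t : ℝ => max (c - t) 0) R with hQ₁
    set Q₂ : H →L[ℂ] H := cfc (fun t : ℝ => max (t - c) 0) R with hQ₂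
    have hQQ : Q₁ * Q₂ = 0 := by
      rw [hQ₁, hQ₂, ← cfc_mul _ _ R hf1.continuousOn hf2.continuousOn]
      have e1 : (fun t : ℝ => max (c - t) 0 * max (t - c) 0) = fun _ => 0 := by
        funext t
        rcases le_total t c with h | h
        · rw [max_eq_right (by linarith : t - c ≤ 0), mul_zero]
        · rw [max_eq_right (by linarith : c - t ≤ 0), zero_mul]
      rw [e1, cfc_const_zero]
    have hne : ∀ (f : ℝ → ℝ), Continuous f → ∀ μ ∈ spectrum ℝ R, f μ ≠ 0 → cfc f R ≠ 0 := by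
      intro f hf μ hμ hfμ h0
      have h3 := cfc_map_spectrum f R hR hf.continuousOn
      rw [h0] at h3
      have h4 : f μ ∈ spectrum ℝ (0 : H →L[ℂ] H) := by
        rw [h3]
        exact ⟨μ, hμ, rfl⟩
      have h5 : Nontrivial (H →L[ℂ] H) := by
        by_contra hcon
        rw [not_nontrivial_iff_subsingleton] at hcon
        rw [spectrum.of_subsingleton] at h4
        exact h4
      rw [spectrum.zero_eq] at h4
      exact hfμ h4
    have hQ₁0 : Q₁ ≠ 0 := hne _ hf1 μ₁ h1 (by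
      have : 0 < c - μ₁ := by rw [hc]; linarith
      exact (lt_max_of_lt_left this).ne')
    have hQ₂0 : Q₂ ≠ 0 := hne _ hf2 μ₂ h2 (by
      have : 0 < μ₂ - c := by rw [hc]; linarith
      exact (lt_max_of_lt_left this).ne')
    have h3 := hirr (LinearMap.ker (Q₁ : H →ₗ[ℂ] H)) Q₁.isClosed_ker (fun C hC h hh => by
      rw [LinearMap.mem_ker] at hh ⊢
      have h4 : Commute Q₁ C := (hcomm C hC).cfc_real _
      have h5 : Q₁ (C h) = C (Q₁ h) := congrArg (fun T : H →L[ℂ] H => T h) h4.eq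
      show Q₁ (C h) = 0
      rw [h5]
      have h6 : Q₁ h = 0 := hh
      rw [h6, map_zero]) (fun hbot => by
      apply hQ₂0
      ext h
      have h4 : Q₂ h ∈ LinearMap.ker (Q₁ : H →ₗ[ℂ] H) := by
        rw [LinearMap.mem_ker]
        exact congrArg (fun T : H →L[ℂ] H => T h) hQQ
      rw [hbot] at h4
      exact (Submodule.mem_bot ℂ).1 h4)
    apply hQ₁0
    ext h
    have h4 : h ∈ LinearMap.ker (Q₁ : H →ₗ[ℂ] H) := by rw [h3]; trivial
    exact h4
  by_cases hs : (spectrum ℝ R).Nonempty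
  · obtain ⟨μ, hμ⟩ := hs
    refine ⟨μ, fun h => ?_⟩
    have h1 : ∀ ν ∈ spectrum ℝ R, ν = μ := by
      intro ν hν
      exact le_antisymm (not_lt.1 (key μ hμ ν hν)) (not_lt.1 (key ν hν μ hμ))
    have h2 : cfc (fun t : ℝ => t) R = cfc (fun _ : ℝ => μ) R := cfc_congr (fun ν hν => h1 ν hν)
    rw [cfc_id' ℝ R hR, cfc_const μ R hR] at h2
    rw [h2, Algebra.algebraMap_eq_smul_one]
    rfl
  · rw [Set.not_nonempty_iff_eq_empty] at hs
    have h1 : Subsingleton (H →L[ℂ] H) := by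
      have h2 : cfc (fun t : ℝ => t) R = cfc (fun _ : ℝ => (0 : ℝ)) R :=
        cfc_congr (fun ν hν => by rw [hs] at hν; exact absurd hν (Set.notMem_empty _))
      have h3 : cfc (fun t : ℝ => (1 : ℝ)) R = cfc (fun _ : ℝ => (0 : ℝ)) R :=
        cfc_congr (fun ν hν => by rw [hs] at hν; exact absurd hν (Set.notMem_empty _))
      rw [cfc_const_one ℝ R, cfc_const_zero] at h3
      exact subsingleton_of_zero_eq_one h3.symm
    refine ⟨0, fun h => ?_⟩
    have h2 : R = 0 := Subsingleton.elim _ _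
    rw [h2]
    simp

end schur

end Pool.Q193.HP
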