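import Mathlib
import Pool.Agent.Q193.HP.Schur

/-!
# Adjoints when both sides are Hilbert spaces
-/

set_option autoImplicit false

namespace Pool.Q193.HP

open Filter Topology

section one

variable {U : Type*} [NormedAddCommGroup U] [InnerProductSpace ℂ U]

/-- the support functional of a vector of a Hilbert space -/
theorem sp_inner {x : U} (hx : x ≠ 0) : Sp x (((‖x‖⁻¹ : ℝ) : ℂ) • innerSL ℂ x) := by
  have h0 : ‖x‖ ≠ 0 := norm_ne_zero_iff.2 hx
  refine ⟨?_, ?_⟩
  · rw [norm_smul, Complex.norm_real, norm_inv, norm_norm, innerSL_apply_norm,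
      inv_mul_cancel₀ h0]
  · have h1 : ((‖x‖ : ℝ) : ℂ) ≠ 0 := by exact_mod_cast h0
    rw [smul_apply, innerSL_apply_apply, inner_self_eq_norm_sq_to_K, smul_eq_mul,
      Complex.ofReal_inv, pow_two, ← mul_assoc]
    erw [inv_mul_cancel₀ h1, one_mul]
    rfl

theorem SkC.inner_self {C : U →L[ℂ] U} (hC : SkC C) (x : U) : (inner ℂ x (C x)).re = 0 := by
  by_cases hx : x = 0
  · rw [hx, inner_zero_left, Complex.zero_re]
  · have h1 := hC _ _ (sp_inner hx)
    rw [smul_apply, innerSL_apply_apply, smul_eq_mul, Complex.re_ofReal_mul] at h1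
    rcases mul_eq_zero.1 h1 with h2 | h2
    · exact absurd h2 (inv_ne_zero (norm_ne_zero_iff.2 hx))
    · exact h2

variable [CompleteSpace U]

/-- operators with `Re ⟪x, C x⟫ = 0` are skew-adjoint -/
theorem adj_of_re {C : U →L[ℂ] U} (h : ∀ x, (inner ℂ x (C x)).re = 0) :
    ContinuousLinearMap.adjoint C = -C := by
  have h1 : ((ContinuousLinearMap.adjoint C + C : U →L[ℂ] U) : U →ₗ[ℂ] U) = 0 := by
    refine (inner_map_self_eq_zero _).1 (fun x => ?_)
    show inner ℂ ((ContinuousLinearMap.adjoint C + C) x) x = 0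
    rw [add_apply, inner_add_left, ContinuousLinearMap.adjoint_inner_left]
    have h2 := h x
    have h3 : inner ℂ (C x) x = (starRingEnd ℂ) (inner ℂ x (C x)) := (inner_conj_symm _ _).symm
    rw [h3]
    refine Complex.ext ?_ ?_
    · rw [Complex.add_re, Complex.conj_re, h2, Complex.zero_re, add_zero]
    · rw [Complex.add_im, Complex.conj_im, Complex.zero_im, add_neg_cancel]
  have h2 : ContinuousLinearMap.adjoint C + C = 0 := by
    ext x
    have := congrArg (fun T : U →ₗ[ℂ] U => T x) h1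
    exact this
  exact eq_neg_of_add_eq_zero_left h2

theorem SkC.adj {C : U →L[ℂ] U} (hC : SkC C) : ContinuousLinearMap.adjoint C = -C :=
  adj_of_re hC.inner_self

theorem Hm.adj {T : U →L[ℂ] U} (hT : Hm T) : ContinuousLinearMap.adjoint T = T := by
  have h1 := hT.sk.adj
  rw [map_smulₛₗ, Complex.conj_I, neg_smul, neg_inj] at h1
  exact smul_right_injective _ Complex.I_ne_zero h1

end one

variable {U V : Type*} [NormedAddCommGroup U] [InnerProductSpace ℂ U] [CompleteSpace U]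
  [NormedAddCommGroup V] [InnerProductSpace ℂ V] [CompleteSpace V]

omit [CompleteSpace V] in
theorem adj_mul {W : (V →L[ℂ] U) → (U →L[ℂ] V) → Prop} (hW : PS W) {a a' b b'} (ha : W a a')
    (hb : W b b') : ContinuousLinearMap.adjoint (a.comp b') = b.comp a' := by
  have h1 : ((ContinuousLinearMap.adjoint (a.comp b') : U →L[ℂ] U) : U →ₗ[ℂ] U) =
      ((b.comp a' : U →L[ℂ] U) : U →ₗ[ℂ] U) := by
    refine (ext_inner_map _ _).1 (fun x => ?_)
    show inner ℂ (ContinuousLinearMap.adjoint (a.comp b') x) x = inner ℂ (b (a' x)) x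
    rw [ContinuousLinearMap.adjoint_inner_left]
    by_cases hx : x = 0
    · rw [hx]; simp
    have h2 := hW.h1 ha hb (sp_inner hx)
    rw [smul_apply, smul_apply, innerSL_apply_apply, innerSL_apply_apply, smul_eq_mul,
      smul_eq_mul, map_mul, Complex.conj_ofReal, inner_conj_symm] at h2
    have h3 : (((‖x‖⁻¹ : ℝ) : ℂ)) ≠ 0 := by
      exact_mod_cast inv_ne_zero (norm_ne_zero_iff.2 hx)
    exact mul_left_cancel₀ h3 h2
  ext x
  exact congrArg (fun T : U →ₗ[ℂ] U => T x) h1

variable {E : Type*} [NormedAddCommGroup E] [NormedSpace ℂ E] [CompleteSpace E]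

omit [CompleteSpace U] [CompleteSpace V] in
/-- tripotents are partial isometries -/
theorem Tp.norm {j : Inc U E} {k : Inc V E} (hjk : Orth j k) {e e'} (he : Tp (Wp j k) e e')
    (y : V) : ‖e y‖ = ‖e' (e y)‖ := by
  by_cases h0 : e' (e y) = 0
  · rw [h0, norm_zero, ← he.t y, h0, map_zero, norm_zero]
  set s : V := e' (e y) with hs
  have hs0 : 0 < ‖s‖ := norm_pos_iff.2 h0
  have hes : e' (e s) = s := by rw [hs, he.t']
  have hey : e y = e s := by rw [hs, he.t]
  have hes0 : 0 < ‖e s‖ := by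
    refine norm_pos_iff.2 (fun h => h0 ?_)
    rw [← hes, h, map_zero]
  set y₁ : V := ((‖s‖⁻¹ : ℝ) : ℂ) • s with hy₁
  set x₁ : U := ((‖e s‖⁻¹ : ℝ) : ℂ) • e s with hx₁
  have n1 : ‖y₁‖ = 1 := by
    rw [hy₁, norm_smul, Complex.norm_real, norm_inv, norm_norm, inv_mul_cancel₀ hs0.ne']
  have n2 : ‖x₁‖ = 1 := by
    rw [hx₁, norm_smul, Complex.norm_real, norm_inv, norm_norm, inv_mul_cancel₀ hes0.ne']
  have h1 : e y₁ = ((‖e s‖ * ‖s‖⁻¹ : ℝ) : ℂ) • x₁ := by
    rw [hy₁, hx₁, map_smul, smul_smul, ← Complex.ofReal_mul]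
    congr 2
    field_simp
  have h2 : e' x₁ = ((‖s‖ * ‖e s‖⁻¹ : ℝ) : ℂ) • y₁ := by
    rw [hy₁, hx₁, map_smul, smul_smul, ← Complex.ofReal_mul, hes]
    congr 2
    field_simp
  obtain ⟨h3, _⟩ := rot_norm hjk he.w n2 n1 (by positivity) (by positivity) h1 h2
  rw [hey]
  have h4 : ‖e s‖ ^ 2 = ‖s‖ ^ 2 := by
    field_simp at h3
    linarith
  exact (pow_left_inj₀ hes0.le hs0.le two_ne_zero).1 h4

theorem Tp.adj {j : Inc U E} {k : Inc V E} (hjk : Orth j k) (hj : Hm (j.i.comp j.p))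
    (hk : Hm (k.i.comp k.p)) {e e'} (he : Tp (Wp j k) e e') :
    ContinuousLinearMap.adjoint e = e' := by
  have hps := Wp.ps hjk hj hk
  have hS : ContinuousLinearMap.adjoint (e'.comp e) = e'.comp e := adj_mul hps.swap he.w he.w
  have hT : ContinuousLinearMap.adjoint (e.comp e') = e.comp e' := adj_mul hps he.w he.w
  have h1 : (((ContinuousLinearMap.adjoint e).comp e : V →L[ℂ] V) : V →ₗ[ℂ] V) =
      ((e'.comp e : V →L[ℂ] V) : V →ₗ[ℂ] V) := by
    refine (ext_inner_map _ _).1 (fun y => ?_)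
    show inner ℂ (ContinuousLinearMap.adjoint e (e y)) y = inner ℂ ((e'.comp e) y) y
    rw [ContinuousLinearMap.adjoint_inner_left]
    have h2 : inner ℂ ((e'.comp e) y) y = inner ℂ ((e'.comp e) y) ((e'.comp e) y) := by
      have h3 : inner ℂ ((e'.comp e) y) ((e'.comp e) y) =
          inner ℂ (ContinuousLinearMap.adjoint (e'.comp e) ((e'.comp e) y)) y := by
        rw [ContinuousLinearMap.adjoint_inner_left]
      rw [h3, hS]
      congr 1
      show e' (e y) = e' (e (e' (e y)))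
      rw [he.t]
    rw [h2, inner_self_eq_norm_sq_to_K, inner_self_eq_norm_sq_to_K, he.norm hjk y]
    rfl
  have h2 : ∀ y, ContinuousLinearMap.adjoint e (e y) = e' (e y) := fun y =>
    congrArg (fun T : V →ₗ[ℂ] V => T y) h1
  have h3 : (ContinuousLinearMap.adjoint e).comp (e.comp e') = ContinuousLinearMap.adjoint e := by
    have h4 : (e.comp e').comp e = e := by
      ext y
      exact he.t y
    have h5 := congrArg (fun T => ContinuousLinearMap.adjoint T) h4
    simp only [ContinuousLinearMap.adjoint_comp (e.comp e') e, hT] at h5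
    exact h5
  rw [← h3]
  ext x
  show ContinuousLinearMap.adjoint e (e (e' x)) = e' x
  rw [h2, he.t']

/-- **adjoints** -/
theorem adj_all [TopologicalSpace.SeparableSpace E]
    (htr : ∀ x y : E, ‖x‖ = 1 → ‖y‖ = 1 → ∃ T : E ≃ₗᵢ[ℂ] E, T x = y) {j : Inc U E}
    {k : Inc V E} (hjk : Orth j k) (hj : Hm (j.i.comp j.p)) (hk : Hm (k.i.comp k.p)) {e e'}
    (he : Tp (Wp j k) e e') (he0 : e ≠ 0) {a a'} (ha : Wp j k a a') (x : U) (y : V) :
    inner ℂ (a' x) y = inner ℂ x (a y) := by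
  have hJ := Wp.js htr hjk hj hk
  have hps := hJ.toPS
  obtain ⟨y₀, hy₀⟩ : ∃ y, e y ≠ 0 := by
    by_contra hcon
    push Not at hcon
    exact he0 (by ext y; rw [hcon y, zero_apply])
  set y₁ : V := e' (e y₀) with hy₁
  have hy₁0 : y₁ ≠ 0 := by
    intro h0
    apply hy₀
    rw [← he.t y₀, ← hy₁, h0, map_zero]
  have hadj := he.adj hjk hj hk
  have hadj' : ContinuousLinearMap.adjoint e' = e := by
    rw [← hadj, ContinuousLinearMap.adjoint_adjoint]
  -- vectors of the range of `e'`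
  have h1 : ∀ {a a'}, Wp j k a a' → ∀ x, inner ℂ (a' x) y₁ = inner ℂ x (a y₁) := by
    intro a a' ha x
    have h2 := adj_mul hps ha he.w
    have h3 : inner ℂ (a' x) y₁ = inner ℂ (e (a' x)) (e y₀) := by
      rw [hy₁, ← hadj, ContinuousLinearMap.adjoint_inner_right]
    have h4 : inner ℂ x (a y₁) = inner ℂ (ContinuousLinearMap.adjoint (a.comp e') x) (e y₀) := by
      rw [ContinuousLinearMap.adjoint_inner_left]
      rfl
    rw [h3, h4, h2]
    rfl
  -- moving the vector
  have h2 : ∀ {b b' d d'}, Wp j k b b' → Wp j k d d' → ∀ {a a'}, Wp j k a a' → ∀ x,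
      inner ℂ (a' x) (b' (d y₁)) = inner ℂ x (a (b' (d y₁))) := by
    intro b b' d d' hb hd a a' ha x
    have h3 := h1 (hJ.jor2 ha hb hd) x
    simp only [add_apply, ContinuousLinearMap.comp_apply, inner_add_left, inner_add_right] at h3
    -- `h3 : ⟪d' b a' x, y₁⟫ + ⟪a' b d' x, y₁⟫ = ⟪x, a b' d y₁⟫ + ⟪x, d b' a y₁⟫`
    have h4 : inner ℂ (a' (b (d' x))) y₁ = inner ℂ x (d (b' (a y₁))) := by
      rw [h1 ha]
      have h5 := adj_mul hps hd hb
      have h6 : inner ℂ (b (d' x)) (a y₁) =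
          inner ℂ (ContinuousLinearMap.adjoint (d.comp b') x) (a y₁) := by rw [h5]; rfl
      rw [h6, ContinuousLinearMap.adjoint_inner_left]
      rfl
    have h5 : inner ℂ (a' x) (b' (d y₁)) = inner ℂ (d' (b (a' x))) y₁ := by
      have h6 := adj_mul hps.swap hb hd
      have h7 : inner ℂ (d' (b (a' x))) y₁ =
          inner ℂ (ContinuousLinearMap.adjoint (b'.comp d) (a' x)) y₁ := by rw [h6]; rfl
      rw [h7, ContinuousLinearMap.adjoint_inner_left]
      rfl
    rw [h5]
    linear_combination h3 - h4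
  -- density
  have hcl : IsClosed {y : V | inner ℂ (a' x) y = inner ℂ x (a y)} :=
    isClosed_eq (by fun_prop) (by fun_prop)
  have h3 : y ∈ {y : V | inner ℂ (a' x) y = inner ℂ x (a y)} := by
    rw [← hcl.closure_eq, Metric.mem_closure_iff]
    intro ε hε
    obtain ⟨d, d', hd, hd0⟩ : ∃ d d', Wp j k d d' ∧ d y₁ ≠ 0 := by
      have hx : e y₁ ≠ 0 := by
        intro h0
        apply hy₁0
        have h5 : e' (e y₁) = y₁ := he.t' (e y₀)
        rw [← h5, h0, map_zero]
      exact ⟨e, e', he.w, hx⟩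
    obtain ⟨b, b', hb, h4⟩ := hJ.i2 (d y₁) hd0 y (ε / 2) (by positivity)
    refine ⟨b' (d y₁), h2 hb hd ha x, ?_⟩
    rw [dist_eq_norm, norm_sub_rev]
    linarith
  exact h3

end Pool.Q193.HP
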