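import Mathlib
import Pool.Agent.Q193.HP.Adj

/-!
# The norm of the space when both sides are Hilbert spaces
-/

set_option autoImplicit false

namespace Pool.Q193.HP

open Filter Topology

variable {E : Type*} [NormedAddCommGroup E] [NormedSpace ℂ E]

section irr

variable {U V : Type*} [NormedAddCommGroup U] [NormedSpace ℂ U] [NormedAddCommGroup V]
  [NormedSpace ℂ V]

theorem mem_other [CompleteSpace E] [TopologicalSpace.SeparableSpace E]
    (htr : ∀ x y : E, ‖x‖ = 1 → ‖y‖ = 1 → ∃ T : E ≃ₗᵢ[ℂ] E, T x = y)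
    {j : Inc U E} {k : Inc V E} (hjk : Orth j k) (hk : Hm (k.i.comp k.p))
    {N : Submodule ℂ E} (hN : IsClosed (N : Set E))
    (hinv : ∀ C : E →L[ℂ] E, SkC C → ∀ x ∈ N, C x ∈ N) {u : U} (hu : u ≠ 0) (huN : j.i u ∈ N)
    (v : V) : k.i v ∈ N := by
  have h0 : j.i u ≠ 0 := by
    intro h0
    apply hu
    rw [← j.pi u, h0, map_zero]
  have h3 : k.i v ∈ (N : Set E) := by
    rw [← hN.closure_eq, Metric.mem_closure_iff]
    intro ε hε
    obtain ⟨C, hC, h2⟩ := dense_of_trans htr hk.sk h0 (w := (-Complex.I) • k.i v) (z := k.i v)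
      (by
        rw [smul_apply, ContinuousLinearMap.comp_apply, hjk.r, map_zero, smul_zero])
      (by
        rw [smul_apply, ContinuousLinearMap.comp_apply, map_smul, k.pi, map_smul, smul_smul,
          mul_neg, Complex.I_mul_I, neg_neg, one_smul]) (δ := ε / 2) (by positivity)
    refine ⟨C (j.i u), hinv C hC _ huN, ?_⟩
    rw [dist_eq_norm, norm_sub_rev]
    linarith
  exact h3

/-- irreducibility -/
theorem irr [CompleteSpace E] [TopologicalSpace.SeparableSpace E] [Nontrivial U] [Nontrivial V]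
    (htr : ∀ x y : E, ‖x‖ = 1 → ‖y‖ = 1 → ∃ T : E ≃ₗᵢ[ℂ] E, T x = y)
    {j : Inc U E} {k : Inc V E} (hjk : Orth j k) (hj : Hm (j.i.comp j.p))
    (hk : Hm (k.i.comp k.p)) (hsum : ∀ x, j.i (j.p x) + k.i (k.p x) = x)
    {N : Submodule ℂ E} (hN : IsClosed (N : Set E))
    (hinv : ∀ C : E →L[ℂ] E, SkC C → ∀ x ∈ N, C x ∈ N) {x₀ : E} (hx₀ : x₀ ≠ 0)
    (hx : x₀ ∈ N) : N = ⊤ := by
  have h1 : j.i (j.p x₀) ∈ N := by
    have h2 := N.smul_mem (-Complex.I) (hinv _ hj.sk x₀ hx)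
    rwa [smul_apply, smul_smul, neg_mul, Complex.I_mul_I, neg_neg, one_smul] at h2
  have h2 : k.i (k.p x₀) ∈ N := by
    have h2 := N.smul_mem (-Complex.I) (hinv _ hk.sk x₀ hx)
    rwa [smul_apply, smul_smul, neg_mul, Complex.I_mul_I, neg_neg, one_smul] at h2
  have h3 : (∀ u, j.i u ∈ N) ∧ (∀ v, k.i v ∈ N) := by
    by_cases h0 : j.p x₀ = 0
    · have h4 : k.p x₀ ≠ 0 := by
        intro h5
        apply hx₀
        rw [← hsum x₀, h0, h5, map_zero, map_zero, add_zero]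
      have h5 : ∀ u, j.i u ∈ N := fun u => mem_other htr hjk.symm hj hN hinv h4 h2 u
      obtain ⟨u, hu⟩ := exists_ne (0 : U)
      exact ⟨h5, fun v => mem_other htr hjk hk hN hinv hu (h5 u) v⟩
    · have h5 : ∀ v, k.i v ∈ N := fun v => mem_other htr hjk hk hN hinv h0 h1 v
      obtain ⟨v, hv⟩ := exists_ne (0 : V)
      exact ⟨fun u => mem_other htr hjk.symm hj hN hinv hv (h5 v) u, h5⟩
  refine (Submodule.eq_top_iff').2 (fun x => ?_)
  rw [← hsum x]
  exact N.add_mem (h3.1 _) (h3.2 _)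

end irr

variable {U V : Type*} [NormedAddCommGroup U] [InnerProductSpace ℂ U]
  [NormedAddCommGroup V] [InnerProductSpace ℂ V]

/-- the splitting map -/
noncomputable def Ph (j : Inc U E) (k : Inc V E) : E →L[ℂ] WithLp 2 (U × V) :=
  ((WithLp.prodContinuousLinearEquiv 2 ℂ U V).symm : (U × V) →L[ℂ] WithLp 2 (U × V)).comp
    (j.p.prod k.p)

/-- the inverse of the splitting map -/
noncomputable def Pi (j : Inc U E) (k : Inc V E) : WithLp 2 (U × V) →L[ℂ] E :=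
  (j.i.coprod k.i).comp
    ((WithLp.prodContinuousLinearEquiv 2 ℂ U V) : WithLp 2 (U × V) →L[ℂ] (U × V))

theorem Ph_fst (j : Inc U E) (k : Inc V E) (x : E) : (Ph j k x).fst = j.p x := rfl

theorem Ph_snd (j : Inc U E) (k : Inc V E) (x : E) : (Ph j k x).snd = k.p x := rfl

theorem Pi_apply (j : Inc U E) (k : Inc V E) (h : WithLp 2 (U × V)) :
    Pi j k h = j.i h.fst + k.i h.snd := rfl

theorem Ph_Pi {j : Inc U E} {k : Inc V E} (hjk : Orth j k) (h : WithLp 2 (U × V)) :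
    Ph j k (Pi j k h) = h := by
  apply (WithLp.prodContinuousLinearEquiv 2 ℂ U V).injective
  refine Prod.ext ?_ ?_
  · show j.p (j.i h.fst + k.i h.snd) = h.fst
    rw [map_add, j.pi, hjk.l, add_zero]
  · show k.p (j.i h.fst + k.i h.snd) = h.snd
    rw [map_add, k.pi, hjk.r, zero_add]

theorem Pi_Ph {j : Inc U E} {k : Inc V E} (hsum : ∀ x, j.i (j.p x) + k.i (k.p x) = x) (x : E) :
    Pi j k (Ph j k x) = x := hsum x

/-- the transported operator -/
noncomputable def Ha (j : Inc U E) (k : Inc V E) (T : E →L[ℂ] E) :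
    WithLp 2 (U × V) →L[ℂ] WithLp 2 (U × V) := (Ph j k).comp (T.comp (Pi j k))

theorem Ha_apply (j : Inc U E) (k : Inc V E) (T : E →L[ℂ] E) (h : WithLp 2 (U × V)) :
    Ha j k T h = Ph j k (T (Pi j k h)) := rfl

theorem Ph_norm (j : Inc U E) (k : Inc V E) (x : E) :
    ‖Ph j k x‖ ^ 2 = ‖j.p x‖ ^ 2 + ‖k.p x‖ ^ 2 := by
  rw [WithLp.prod_norm_sq_eq_of_L2]
  rfl

variable [CompleteSpace E]

/-- transported skew operators are skew-adjoint -/
theorem Ha_adj [CompleteSpace U] [CompleteSpace V] [TopologicalSpace.SeparableSpace E]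
    (htr : ∀ x y : E, ‖x‖ = 1 → ‖y‖ = 1 → ∃ T : E ≃ₗᵢ[ℂ] E, T x = y) {j : Inc U E}
    {k : Inc V E} (hjk : Orth j k) (hj : Hm (j.i.comp j.p)) (hk : Hm (k.i.comp k.p)) {e e'}
    (he : Tp (Wp j k) e e') (he0 : e ≠ 0) {C : E →L[ℂ] E} (hC : SkC C) :
    ContinuousLinearMap.adjoint (Ha j k C) = - Ha j k C := by
  refine adj_of_re (fun h => ?_)
  set a : V →L[ℂ] U := j.p.comp (C.comp k.i) with ha
  set a' : U →L[ℂ] V := -(k.p.comp (C.comp j.i)) with ha'
  have hW : Wp j k a a' := Wp.part hjk hj hk hC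
  have h1 := adj_all htr hjk hj hk he he0 hW h.fst h.snd
  have h2 := (hC.compress (j := j)).inner_self h.fst
  have h3 := (hC.compress (j := k)).inner_self h.snd
  have h4 : inner ℂ h (Ha j k C h) =
      inner ℂ h.fst ((j.p.comp (C.comp j.i)) h.fst) + inner ℂ h.fst (a h.snd) -
        inner ℂ h.snd (a' h.fst) + inner ℂ h.snd ((k.p.comp (C.comp k.i)) h.snd) := by
    rw [WithLp.prod_inner_apply]
    show inner ℂ h.fst (j.p (C (j.i h.fst + k.i h.snd))) +
      inner ℂ h.snd (k.p (C (j.i h.fst + k.i h.snd))) = _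
    rw [map_add, map_add, map_add, inner_add_right, inner_add_right, ha', neg_apply,
      inner_neg_right]
    simp only [ha, ContinuousLinearMap.comp_apply]
    ring
  have h5 : inner ℂ h.snd (a' h.fst) = (starRingEnd ℂ) (inner ℂ h.fst (a h.snd)) := by
    rw [← h1, inner_conj_symm]
  rw [h4, Complex.add_re, Complex.sub_re, Complex.add_re, h2, h3, h5, Complex.conj_re]
  ring

/-- isometries act as multiples of isometries -/
theorem Ha_iso [Nontrivial U] [Nontrivial V] [CompleteSpace U] [CompleteSpace V]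
    [TopologicalSpace.SeparableSpace E]
    (htr : ∀ x y : E, ‖x‖ = 1 → ‖y‖ = 1 → ∃ T : E ≃ₗᵢ[ℂ] E, T x = y) {j : Inc U E}
    {k : Inc V E} (hjk : Orth j k) (hj : Hm (j.i.comp j.p)) (hk : Hm (k.i.comp k.p))
    (hsum : ∀ x, j.i (j.p x) + k.i (k.p x) = x) {e e'}
    (he : Tp (Wp j k) e e') (he0 : e ≠ 0) (g : E ≃ₗᵢ[ℂ] E) :
    ∃ μ : ℝ, ∀ x, ‖Ph j k (g x)‖ ^ 2 = μ * ‖Ph j k x‖ ^ 2 := by
  set G : WithLp 2 (U × V) →L[ℂ] WithLp 2 (U × V) := Ha j k (g : E →L[ℂ] E) with hG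
  set R : WithLp 2 (U × V) →L[ℂ] WithLp 2 (U × V) := ContinuousLinearMap.adjoint G * G with hR
  have hRs : IsSelfAdjoint R := by
    rw [hR, ← ContinuousLinearMap.star_eq_adjoint]
    exact IsSelfAdjoint.star_mul_self G
  have hmul : ∀ S T : E →L[ℂ] E, Ha j k S * Ha j k T = Ha j k (S.comp T) := by
    intro S T
    ext1 h
    show Ph j k (S (Pi j k (Ph j k (T (Pi j k h))))) = Ph j k (S (T (Pi j k h)))
    rw [Pi_Ph hsum]
  have hcomm : ∀ C ∈ {D | ∃ C : E →L[ℂ] E, SkC C ∧ Ha j k C = D}, Commute R C := by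
    rintro _ ⟨C, hC, rfl⟩
    have hC' : SkC (cj g C) := hC.cj g
    have h1 : Ha j k (cj g C) * G = G * Ha j k C := by
      rw [hG, hmul, hmul]
      congr 1
      ext1 x
      show g (C (g.symm (g x))) = g (C x)
      rw [g.symm_apply_apply]
    have h2 := congrArg (fun T => ContinuousLinearMap.adjoint T) h1
    have h3 : ContinuousLinearMap.adjoint (Ha j k (cj g C) * G) =
        - (ContinuousLinearMap.adjoint G * Ha j k (cj g C)) := by
      have := ContinuousLinearMap.adjoint_comp (Ha j k (cj g C)) G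
      rw [Ha_adj htr hjk hj hk he he0 hC', ContinuousLinearMap.comp_neg] at this
      exact this
    have h4 : ContinuousLinearMap.adjoint (G * Ha j k C) =
        - (Ha j k C * ContinuousLinearMap.adjoint G) := by
      have := ContinuousLinearMap.adjoint_comp G (Ha j k C)
      rw [Ha_adj htr hjk hj hk he he0 hC, ContinuousLinearMap.neg_comp] at this
      exact this
    simp only [h3, h4, neg_inj] at h2
    show R * Ha j k C = Ha j k C * R
    rw [hR, mul_assoc, ← h1, ← mul_assoc, h2, mul_assoc]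
  have hirr : ∀ M : Submodule ℂ (WithLp 2 (U × V)), IsClosed (M : Set (WithLp 2 (U × V))) →
      (∀ C ∈ {D | ∃ C : E →L[ℂ] E, SkC C ∧ Ha j k C = D}, ∀ h ∈ M, C h ∈ M) → M ≠ ⊥ →
      M = ⊤ := by
    intro M hM hinv hbot
    obtain ⟨h, hh, h0⟩ := (Submodule.ne_bot_iff M).1 hbot
    have h1 := irr htr hjk hj hk hsum (N := M.comap (Ph j k : E →ₗ[ℂ] WithLp 2 (U × V)))
      (hM.preimage (Ph j k).continuous) (fun C hC x hx => by
        have h2 := hinv _ ⟨C, hC, rfl⟩ _ hx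
        rw [Submodule.mem_comap]
        have h3 : Ha j k C (Ph j k x) = Ph j k (C x) := by rw [Ha_apply, Pi_Ph hsum]
        show Ph j k (C x) ∈ M
        rw [← h3]
        exact h2) (x₀ := Pi j k h) (fun h2 => h0 (by rw [← Ph_Pi hjk h, h2, map_zero])) (by
        rw [Submodule.mem_comap]
        show Ph j k (Pi j k h) ∈ M
        rw [Ph_Pi hjk]
        exact hh)
    refine (Submodule.eq_top_iff').2 (fun y => ?_)
    have h2 : Pi j k y ∈ M.comap (Ph j k : E →ₗ[ℂ] WithLp 2 (U × V)) := by rw [h1]; trivial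
    rw [Submodule.mem_comap] at h2
    have h3 : Ph j k (Pi j k y) ∈ M := h2
    rwa [Ph_Pi hjk] at h3
  obtain ⟨μ, hμ⟩ := schur hRs _ hirr hcomm
  refine ⟨μ, fun x => ?_⟩
  have h1 : Ph j k (g x) = G (Ph j k x) := by
    rw [hG, Ha_apply, Pi_Ph hsum]
    rfl
  have h2 : inner ℂ (G (Ph j k x)) (G (Ph j k x)) = (μ : ℂ) * inner ℂ (Ph j k x) (Ph j k x) := by
    have h3 := hμ (Ph j k x)
    have h4 : inner ℂ (Ph j k x) (R (Ph j k x)) = inner ℂ (G (Ph j k x)) (G (Ph j k x)) := by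
      show inner ℂ (Ph j k x) (ContinuousLinearMap.adjoint G (G (Ph j k x))) = _
      rw [ContinuousLinearMap.adjoint_inner_right]
    rw [← h4, h3, inner_smul_right]
  rw [inner_self_eq_norm_sq_to_K, inner_self_eq_norm_sq_to_K] at h2
  rw [h1]
  have h5 : ((‖G (Ph j k x)‖ ^ 2 : ℝ) : ℂ) = ((μ * ‖Ph j k x‖ ^ 2 : ℝ) : ℂ) := by
    push_cast
    exact h2
  exact Complex.ofReal_injective h5

theorem Ph_inv [Nontrivial U] [Nontrivial V] [CompleteSpace U] [CompleteSpace V]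
    [TopologicalSpace.SeparableSpace E]
    (htr : ∀ x y : E, ‖x‖ = 1 → ‖y‖ = 1 → ∃ T : E ≃ₗᵢ[ℂ] E, T x = y) {j : Inc U E}
    {k : Inc V E} (hjk : Orth j k) (hj : Hm (j.i.comp j.p)) (hk : Hm (k.i.comp k.p))
    (hsum : ∀ x, j.i (j.p x) + k.i (k.p x) = x) {e e'}
    (he : Tp (Wp j k) e e') (he0 : e ≠ 0) (g : E ≃ₗᵢ[ℂ] E) (x : E) :
    ‖Ph j k (g x)‖ ^ 2 = ‖Ph j k x‖ ^ 2 := by
  have key : ∀ (g : E ≃ₗᵢ[ℂ] E) (x : E), ‖Ph j k (g x)‖ ^ 2 ≤ ‖Ph j k x‖ ^ 2 := by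
    intro g x
    obtain ⟨μ, hμ⟩ := Ha_iso htr hjk hj hk hsum he he0 g
    by_cases h0 : ‖Ph j k x‖ ^ 2 = 0
    · rw [hμ, h0, mul_zero]
    have h1 : 0 < ‖Ph j k x‖ ^ 2 := lt_of_le_of_ne (by positivity) (Ne.symm h0)
    by_contra hcon
    push Not at hcon
    rw [hμ] at hcon
    have h2 : 1 < μ := by
      by_contra h3
      push Not at h3
      have := mul_le_mul_of_nonneg_right h3 h1.le
      linarith
    have h3 : ∀ n : ℕ, ∃ y : E, ‖y‖ = ‖x‖ ∧ ‖Ph j k y‖ ^ 2 = μ ^ n * ‖Ph j k x‖ ^ 2 := by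
      intro n
      induction n with
      | zero => exact ⟨x, rfl, by rw [pow_zero, one_mul]⟩
      | succ n ih =>
        obtain ⟨y, h4, h5⟩ := ih
        refine ⟨g y, by rw [g.norm_map, h4], ?_⟩
        rw [hμ, h5, pow_succ]
        ring
    obtain ⟨n, hn⟩ := pow_unbounded_of_one_lt ((‖Ph j k‖ * ‖x‖) ^ 2 / ‖Ph j k x‖ ^ 2) h2
    obtain ⟨y, h4, h5⟩ := h3 n
    have h6 := (Ph j k).le_opNorm y
    rw [h4] at h6
    have h7 : ‖Ph j k y‖ ^ 2 ≤ (‖Ph j k‖ * ‖x‖) ^ 2 := by gcongr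
    rw [div_lt_iff₀ h1] at hn
    linarith
  refine le_antisymm (key g x) ?_
  have h1 := key g.symm (g x)
  rwa [g.symm_apply_apply] at h1

/-- **the parallelogram law** when both sides are Hilbert spaces -/
theorem parE [Nontrivial U] [Nontrivial V] [TopologicalSpace.SeparableSpace E]
    (htr : ∀ x y : E, ‖x‖ = 1 → ‖y‖ = 1 → ∃ T : E ≃ₗᵢ[ℂ] E, T x = y) {j : Inc U E}
    {k : Inc V E} (hjk : Orth j k) (hj : Hm (j.i.comp j.p)) (hk : Hm (k.i.comp k.p))
    (hsum : ∀ x, j.i (j.p x) + k.i (k.p x) = x) {e e'}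
    (he : Tp (Wp j k) e e') (he0 : e ≠ 0) (x y : E) :
    ‖x + y‖ ^ 2 + ‖x - y‖ ^ 2 = 2 * (‖x‖ ^ 2 + ‖y‖ ^ 2) := by
  have : CompleteSpace U := j.complete
  have : CompleteSpace V := k.complete
  obtain ⟨u, hu⟩ := exists_norm_eq U zero_le_one
  have h1 : ∀ x : E, ‖x‖ = 1 → ‖Ph j k x‖ ^ 2 = 1 := by
    intro x hx
    obtain ⟨g, hg⟩ := htr (j.i u) x (by rw [j.ni, hu]) hx
    rw [← hg, Ph_inv htr hjk hj hk hsum he he0, Ph_norm, j.pi, hjk.r, hu]
    simp
  have h2 : ∀ x : E, ‖x‖ ^ 2 = ‖Ph j k x‖ ^ 2 := by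
    intro x
    by_cases hx : x = 0
    · rw [hx, map_zero, norm_zero, norm_zero]
    have h0 : ‖x‖ ≠ 0 := norm_ne_zero_iff.2 hx
    have h3 := h1 (((‖x‖⁻¹ : ℝ) : ℂ) • x) (by
      rw [norm_smul, Complex.norm_real, norm_inv, norm_norm, inv_mul_cancel₀ h0])
    rw [map_smul, norm_smul, Complex.norm_real, norm_inv, norm_norm] at h3
    field_simp at h3
    linarith
  have h3 := parallelogram_law_with_norm ℂ (Ph j k x) (Ph j k y)
  rw [h2, h2, h2 x, h2 y, map_add, map_sub]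
  nlinarith [h3]

end Pool.Q193.HP
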