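import Mathlib
import Pool.Agent.Q193.HP.Fin
import Pool.Agent.Q98.BM.Sep

/-!
# The case of a tripotent of rank one
-/

set_option autoImplicit false

namespace Pool.Q193.HP

open Filter Topology

variable {E : Type*} [NormedAddCommGroup E] [NormedSpace ℂ E]
variable {U V : Type*} [NormedAddCommGroup U] [NormedSpace ℂ U] [NormedAddCommGroup V]
  [NormedSpace ℂ V]

/-- the symmetry of a tripotent is isometric -/
theorem sym_norm [CompleteSpace E] {A : E →L[ℂ] E} (hA : SkC A)
    (h3 : ∀ x, A (A (A x)) = - A x) (x : E) : ‖x + (2 : ℂ) • A (A x)‖ = ‖x‖ := by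
  have hd : ∀ t : ℝ, HasDerivAt
      (fun t : ℝ => x + ((Real.sin t : ℝ) : ℂ) • A x + ((1 - Real.cos t : ℝ) : ℂ) • A (A x))
      (A (x + ((Real.sin t : ℝ) : ℂ) • A x + ((1 - Real.cos t : ℝ) : ℂ) • A (A x))) t := by
    intro t
    have h1 : HasDerivAt (fun t : ℝ => ((Real.sin t : ℝ) : ℂ)) ((Real.cos t : ℝ) : ℂ) t :=
      (Real.hasDerivAt_sin t).ofReal_comp
    have h2 : HasDerivAt (fun t : ℝ => ((1 - Real.cos t : ℝ) : ℂ)) ((Real.sin t : ℝ) : ℂ) t := by
      have h3 : HasDerivAt (fun t : ℝ => 1 - Real.cos t) (Real.sin t) t := by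
        have := (Real.hasDerivAt_cos t).const_sub 1
        rwa [neg_neg] at this
      exact h3.ofReal_comp
    have h4 := ((h1.smul_const (A x)).const_add x).add (h2.smul_const (A (A x)))
    refine h4.congr_deriv ?_
    rw [map_add, map_add, map_smul, map_smul, h3]
    push_cast
    module
  have h1 := ode_norm hA hd Real.pi
  simp only [Real.sin_pi, Real.cos_pi, Real.sin_zero, Real.cos_zero, Complex.ofReal_zero,
    zero_smul, add_zero, sub_self] at h1
  have e1 : ((1 - -1 : ℝ) : ℂ) = 2 := by norm_num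
  rw [e1] at h1
  exact h1

/-- the isometry of a tripotent -/
noncomputable def sym [CompleteSpace E] {A : E →L[ℂ] E} (hA : SkC A)
    (h3 : ∀ x, A (A (A x)) = - A x) : E ≃ₗᵢ[ℝ] E where
  toFun := fun x => x + (2 : ℂ) • A (A x)
  invFun := fun x => x + (2 : ℂ) • A (A x)
  map_add' := fun x y => by rw [map_add, map_add, smul_add]; abel
  map_smul' := fun c x => by
    rw [RingHom.id_apply, ← Complex.coe_smul, ← Complex.coe_smul, map_smul, map_smul, smul_add,
      smul_comm (2 : ℂ) ((c : ℝ) : ℂ)]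
  left_inv := fun x => by
    show x + (2 : ℂ) • A (A x) + (2 : ℂ) • A (A (x + (2 : ℂ) • A (A x))) = x
    rw [map_add, map_smul, map_add, map_smul, h3, smul_neg]
    module
  right_inv := fun x => by
    show x + (2 : ℂ) • A (A x) + (2 : ℂ) • A (A (x + (2 : ℂ) • A (A x))) = x
    rw [map_add, map_smul, map_add, map_smul, h3, smul_neg]
    module
  norm_map' := fun x => sym_norm hA h3 x

theorem sym_apply [CompleteSpace E] {A : E →L[ℂ] E} (hA : SkC A)
    (h3 : ∀ x, A (A (A x)) = - A x) (x : E) : sym hA h3 x = x + (2 : ℂ) • A (A x) := rfl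

/-- a skew operator of finite rank with `A ^ 3 = - A` -/
theorem par_of_finite [CompleteSpace E] [TopologicalSpace.SeparableSpace E]
    (htr : ∀ x y : E, ‖x‖ = 1 → ‖y‖ = 1 → ∃ T : E ≃ₗᵢ[ℂ] E, T x = y) {A : E →L[ℂ] E}
    (hA : SkC A) (hA0 : A ≠ 0) (h3 : ∀ x, A (A (A x)) = - A x) {F : Submodule ℂ E}
    (hF : FiniteDimensional ℂ F) (hAF : ∀ x, A x ∈ F) (x y : E) :
    ‖x + y‖ ^ 2 + ‖x - y‖ ^ 2 = 2 * (‖x‖ ^ 2 + ‖y‖ ^ 2) := by
  have htr' : Pool.Agent.Q98.BM.Trans E := by
    intro x y hx hy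
    obtain ⟨T, hT⟩ := htr x y hx hy
    exact ⟨⟨T.toLinearEquiv.restrictScalars ℝ, T.norm_map⟩, hT⟩
  have hT : ∃ x, sym hA h3 x ≠ x := by
    by_contra hcon
    push Not at hcon
    apply hA0
    ext x
    have h1 := hcon (A x)
    rw [sym_apply, h3, add_eq_left, smul_neg, neg_eq_zero, smul_eq_zero] at h1
    rcases h1 with h1 | h1
    · norm_num at h1
    · exact h1
  have hSS : Pool.Agent.Q98.BM.SS (sym hA h3) := by
    rintro M - ⟨c, hc0, hc⟩
    have hFR : FiniteDimensional ℝ F := FiniteDimensional.complexToReal F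
    let L : M →ₗ[ℝ] F :=
      { toFun := fun z => ⟨A (A z), hAF _⟩
        map_add' := fun z w => by
          apply Subtype.ext
          show A (A ((z : E) + w)) = A (A z) + A (A w)
          rw [map_add, map_add]
        map_smul' := fun r z => by
          apply Subtype.ext
          show A (A (r • (z : E))) = r • A (A z)
          rw [← Complex.coe_smul, ← Complex.coe_smul, map_smul, map_smul] }
    have hL : Function.Injective L := by
      rw [injective_iff_map_eq_zero]
      intro z hz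
      have h1 : A (A (z : E)) = 0 := congrArg Subtype.val hz
      have h2 := hc z z.2
      rw [sym_apply, h1, smul_zero, add_zero, sub_self, norm_zero] at h2
      have h4 : ‖(z : E)‖ = 0 := by
        have h5 := norm_nonneg (z : E)
        nlinarith
      exact Subtype.ext (norm_eq_zero.1 h4)
    exact FiniteDimensional.of_injective L hL
  have h1 := Pool.Agent.Q98.BM.main htr' hT hSS
    (Pool.Agent.Q98.BM.ac_of_sep htr' hSS.ff) x y
  rw [pow_two, pow_two, pow_two, pow_two]
  exact h1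

/-- **the rank one case** -/
theorem par_rank_one [CompleteSpace E] [TopologicalSpace.SeparableSpace E]
    (htr : ∀ x y : E, ‖x‖ = 1 → ‖y‖ = 1 → ∃ T : E ≃ₗᵢ[ℂ] E, T x = y)
    {j : Inc U E} {k : Inc V E} (hjk : Orth j k) {e e'} (he : Tp (Wp j k) e e') (he0 : e ≠ 0)
    {x₀ : U} (hx₀ : ∀ x, ∃ c : ℂ, e (e' x) = c • x₀) (x y : E) :
    ‖x + y‖ ^ 2 + ‖x - y‖ ^ 2 = 2 * (‖x‖ ^ 2 + ‖y‖ ^ 2) := by
  refine par_of_finite htr (A := od j k e e') he.w ?_ ?_
    (F := Submodule.span ℂ {j.i x₀, k.i (e' x₀)}) ?_ ?_ x y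
  · intro h0
    apply he0
    ext z
    have h1 := congrArg (fun T : E →L[ℂ] E => j.p (T (k.i z))) h0
    simp only [od_r hjk, j.pi, zero_apply, map_zero] at h1
    exact h1
  · intro x
    simp only [od_apply, map_sub, j.pi, k.pi, hjk.l, hjk.r, map_zero, sub_zero, zero_sub,
      map_neg, he.t, he.t']
    abel
  · exact FiniteDimensional.span_of_finite ℂ (Set.toFinite _)
  · intro x
    rw [od_apply]
    refine Submodule.sub_mem _ ?_ ?_
    · obtain ⟨c, hc⟩ := hx₀ (e (k.p x))
      rw [← he.t, hc, map_smul]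
      exact Submodule.smul_mem _ _ (Submodule.subset_span (by simp))
    · obtain ⟨c, hc⟩ := hx₀ (j.p x)
      rw [← he.t' (j.p x), hc, map_smul, map_smul]
      exact Submodule.smul_mem _ _ (Submodule.subset_span (by simp))

end Pool.Q193.HP
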