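import Mathlib
import Pool.Agent.Q193.HP.Rk

/-!
# Transitive spaces with a hermitian projection
-/

set_option autoImplicit false

namespace Pool.Q193.HP

open Filter Topology

variable {E : Type*} [NormedAddCommGroup E] [NormedSpace ℂ E]

/-- hermitian projections are hermitian operators -/
theorem hm_of_rot {P : E →L[ℂ] E}
    (hn : ∀ (t : ℝ) (x : E), ‖x + (Complex.exp (t * Complex.I) - 1) • P x‖ = ‖x‖) : Hm P := by
  intro x f hf
  have h1 : HasDerivAt (fun t : ℝ => Complex.exp (t * Complex.I) - 1)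
      (Complex.exp (((0 : ℝ) : ℂ) * Complex.I) * Complex.I) 0 := by
    have h2 : HasDerivAt (fun t : ℝ => ((t : ℂ) * Complex.I)) Complex.I 0 := by
      have h3 : HasDerivAt (fun s : ℝ => (s : ℂ)) 1 0 := Complex.ofRealCLM.hasDerivAt (x := 0)
      simpa using h3.mul_const Complex.I
    exact h2.cexp.sub_const 1
  have h2 := (h1.smul_const (P x)).const_add x
  have h3 := (f.restrictScalars ℝ).hasFDerivAt.comp_hasDerivAt (0 : ℝ) h2
  have h4 := Complex.reCLM.hasFDerivAt.comp_hasDerivAt (0 : ℝ) h3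
  have h5 : IsLocalMax
      (fun t : ℝ => (f (x + (Complex.exp (t * Complex.I) - 1) • P x)).re) 0 := by
    refine Filter.Eventually.of_forall (fun t => ?_)
    have h6 := hf.re_le (x + (Complex.exp (t * Complex.I) - 1) • P x)
    rw [hn] at h6
    show (f (x + (Complex.exp (t * Complex.I) - 1) • P x)).re ≤
      (f (x + (Complex.exp (((0 : ℝ) : ℂ) * Complex.I) - 1) • P x)).re
    rw [Complex.ofReal_zero, zero_mul, Complex.exp_zero, sub_self, zero_smul, add_zero,
      hf.re_self]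
    exact h6
  have h6 : (f ((Complex.exp (((0 : ℝ) : ℂ) * Complex.I) * Complex.I) • P x)).re = 0 :=
    h5.hasDerivAt_eq_zero h4
  rw [Complex.ofReal_zero, zero_mul, Complex.exp_zero, one_mul, map_smul, smul_eq_mul,
    Complex.mul_re, Complex.I_re, Complex.I_im, zero_mul, one_mul, zero_sub, neg_eq_zero] at h6
  exact h6

/-- **transitive spaces with a hermitian projection are Hilbert spaces** -/
theorem main [CompleteSpace E] [TopologicalSpace.SeparableSpace E] (hE : WL E)
    (htr : ∀ x y : E, ‖x‖ = 1 → ‖y‖ = 1 → ∃ T : E ≃ₗᵢ[ℂ] E, T x = y) {P : E →L[ℂ] E}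
    (hP : ∀ x, P (P x) = P x) (hP0 : P ≠ 0) (hP1 : P ≠ 1)
    (hn : ∀ (t : ℝ) (x : E), ‖x + (Complex.exp (t * Complex.I) - 1) • P x‖ = ‖x‖) (x y : E) :
    ‖x + y‖ ^ 2 + ‖x - y‖ ^ 2 = 2 * (‖x‖ ^ 2 + ‖y‖ ^ 2) := by
  have hmP : Hm P := hm_of_rot hn
  have hmQ : Hm (1 - P) := hm_one.sub hmP
  have hQ : ∀ x, (1 - P) ((1 - P) x) = (1 - P) x := by
    intro x
    show x - P x - P (x - P x) = x - P x
    rw [map_sub, hP, sub_self, sub_zero]
  set j := Inc.ofProj P hP (hm_idem_norm hmP hP) with hj'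
  set k := Inc.ofProj (1 - P) hQ (hm_idem_norm hmQ hQ) with hk'
  have hj : Hm (j.i.comp j.p) := by rw [hj', Inc.ofProj_ip]; exact hmP
  have hk : Hm (k.i.comp k.p) := by rw [hk', Inc.ofProj_ip]; exact hmQ
  have hjk : Orth j k := by
    refine ⟨?_, ?_⟩
    · rintro ⟨_, z, rfl⟩
      apply Subtype.ext
      show P (z - P z) = 0
      rw [map_sub, hP, sub_self]
    · rintro ⟨_, z, rfl⟩
      apply Subtype.ext
      show P z - P (P z) = 0
      rw [hP, sub_self]
  have hsum : ∀ x, j.i (j.p x) + k.i (k.p x) = x := by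
    intro x
    show P x + (x - P x) = x
    abel
  have hU : Nontrivial (LinearMap.range (P : E →ₗ[ℂ] E)) := by
    obtain ⟨z, hz⟩ : ∃ z, P z ≠ 0 := by
      by_contra hcon
      push Not at hcon
      exact hP0 (by ext z; rw [hcon z, zero_apply])
    exact ⟨⟨⟨P z, z, rfl⟩, 0, fun h => hz (congrArg Subtype.val h)⟩⟩
  have hV : Nontrivial (LinearMap.range ((1 - P : E →L[ℂ] E) : E →ₗ[ℂ] E)) := by
    obtain ⟨z, hz⟩ : ∃ z, z - P z ≠ 0 := by
      by_contra hcon
      push Not at hcon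
      apply hP1
      ext z
      exact (sub_eq_zero.1 (hcon z)).symm
    exact ⟨⟨⟨z - P z, z, rfl⟩, 0, fun h => hz (congrArg Subtype.val h)⟩⟩
  rcases mid htr hE hjk hj hk with ⟨e, e', he, he0, x₀, hx₀⟩ | ⟨e, e', he, he0, hp1, hp2⟩
  · exact par_rank_one htr hjk he he0 hx₀ x y
  · letI i1 : InnerProductSpace ℂ (LinearMap.range (P : E →ₗ[ℂ] E)) :=
      InnerProductSpace.ofNorm ℂ (fun z w => by
        have := hp1 z w
        rw [← pow_two, ← pow_two, ← pow_two, ← pow_two]
        exact this)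
    letI i2 : InnerProductSpace ℂ (LinearMap.range ((1 - P : E →L[ℂ] E) : E →ₗ[ℂ] E)) :=
      InnerProductSpace.ofNorm ℂ (fun z w => by
        have := hp2 z w
        rw [← pow_two, ← pow_two, ← pow_two, ← pow_two]
        exact this)
    exact parE htr (j := j) (k := k) hjk hj hk hsum he he0 x y

end Pool.Q193.HP
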